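import Pool.Graph.R_seed8.AltGenus.ChartDefs

open Set Topology Filter

namespace AltGenus

namespace AG

/-- a continuous map from the 3-sphere to the plane -/
structure WMap (n : ℕ) where
  κ : S3 → ℝ × ℝ
  cont : Continuous κ

/-- the points over the `n` points `(0, i)` -/
def WMap.L {n : ℕ} (P : WMap n) : Set S3 := {v | ∃ i : Fin n, P.κ v = (0, (i : ℝ))}

end AG

end AltGenus
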