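import Pool.Agent.H99.AG.Frame

open Set Topology Filter

namespace AltGenus

namespace AG

/-- a framed closed curve on the unit sphere of `ℝ⁴` -/
structure Fr where
  c : ℝ → E4
  n : ℝ → E4
  w : E4
  hc : ContDiff ℝ (⊤ : ℕ∞) c
  hn : ContDiff ℝ (⊤ : ℕ∞) n
  pc : ∀ t, c (t + 1) = c t
  pn : ∀ t, n (t + 1) = n t
  unit : ∀ t, ‖c t‖ = 1
  ind : ∀ t τ x y r : ℝ, τ • deriv c t + x • w + y • n t + r • c t = 0 →
    τ = 0 ∧ x = 0 ∧ y = 0 ∧ r = 0

namespace Fr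

variable (A : Fr)

def G (p : ℝ × ℝ × ℝ) : E4 := A.c p.1 + p.2.1 • A.w + p.2.2 • A.n p.1

def H (q : ℝ × ℝ × ℝ × ℝ) : E4 :=
  q.2.2.2 • (A.c q.1 + q.2.1 • A.w + q.2.2.1 • A.n q.1)

theorem G_ne (p : ℝ × ℝ × ℝ) : A.G p ≠ 0 := by
  intro h
  have := A.ind p.1 0 p.2.1 p.2.2 1 (by
    rw [zero_smul, zero_add, one_smul, ← h]
    unfold G
    abel)
  exact one_ne_zero this.2.2.2

theorem G_pos (p : ℝ × ℝ × ℝ) : 0 < ‖A.G p‖ := norm_pos_iff.2 (A.G_ne p)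

theorem G_cont : Continuous A.G := by
  have h1 := A.hc.continuous
  have h2 := A.hn.continuous
  unfold G
  fun_prop

theorem H_smooth : ContDiff ℝ (⊤ : ℕ∞) A.H := by
  have h1 := A.hc
  have h2 := A.hn
  unfold H
  fun_prop

noncomputable def psi (p : ℝ × ℝ × ℝ) : S3 :=
  ⟨‖A.G p‖⁻¹ • A.G p, by
    rw [mem_sphere_zero_iff_norm, norm_smul, norm_inv, norm_norm,
      inv_mul_cancel₀ (A.G_pos p).ne']⟩

theorem psi_cont : Continuous A.psi := by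
  apply continuous_induced_rng.2
  show Continuous (fun p => ‖A.G p‖⁻¹ • A.G p)
  exact (A.G_cont.norm.inv₀ (fun p => (A.G_pos p).ne')).smul A.G_cont

noncomputable def sg (p : ℝ × ℝ × ℝ) : ℝ × ℝ × ℝ × ℝ := (p.1, p.2.1, p.2.2, ‖A.G p‖⁻¹)

theorem sg_cont : Continuous A.sg := by
  have h1 := A.G_cont.norm.inv₀ (fun p => (A.G_pos p).ne')
  exact continuous_fst.prodMk ((continuous_fst.comp continuous_snd).prodMk
    ((continuous_snd.comp continuous_snd).prodMk h1))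

theorem H_sg (p : ℝ × ℝ × ℝ) : A.H (A.sg p) = (A.psi p : E4) := rfl

theorem sg_inj : Function.Injective A.sg := by
  rintro ⟨t, x, y⟩ ⟨t', x', y'⟩ h
  unfold sg at h
  simp only [Prod.mk.injEq] at h
  obtain ⟨h1, h2, h3, _⟩ := h
  rw [h1, h2, h3]

/-- the points where the derivative of `H` is invertible -/
def good : Set (ℝ × ℝ × ℝ) :=
  {p | ∃ e : (ℝ × ℝ × ℝ × ℝ) ≃L[ℝ] E4, (e : (ℝ × ℝ × ℝ × ℝ) →L[ℝ] E4) = fderiv ℝ A.H (A.sg p)}

theorem good_open : IsOpen A.good := by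
  have h1 : Continuous (fun p => fderiv ℝ A.H (A.sg p)) :=
    (A.H_smooth.continuous_fderiv (by simp)).comp A.sg_cont
  have h2 := (ContinuousLinearEquiv.isOpen (𝕜 := ℝ) (E := ℝ × ℝ × ℝ × ℝ) (F := E4)).preimage h1
  exact h2

theorem fderiv_zero (t τ x y r : ℝ) :
    fderiv ℝ A.H (t, 0, 0, 1) (τ, x, y, r) =
      τ • deriv A.c t + x • A.w + y • A.n t + r • A.c t := by
  have hH : HasFDerivAt A.H (fderiv ℝ A.H (t, 0, 0, 1)) (t, 0, 0, 1) :=
    (A.H_smooth.differentiable (by simp)).differentiableAt.hasFDerivAt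
  have hlin : ∀ a b : ℝ, HasDerivAt (fun s : ℝ => a + s * b) b 0 := by
    intro a b
    have := ((hasDerivAt_id (0 : ℝ)).mul_const b).const_add a
    simpa using this
  have hl : HasDerivAt (fun s : ℝ => ((t + s * τ, 0 + s * x, 0 + s * y, 1 + s * r) :
      ℝ × ℝ × ℝ × ℝ)) (τ, x, y, r) 0 :=
    (hlin t τ).prodMk ((hlin 0 x).prodMk ((hlin 0 y).prodMk (hlin 1 r)))
  have h0 : ((t + 0 * τ, 0 + 0 * x, 0 + 0 * y, 1 + 0 * r) : ℝ × ℝ × ℝ × ℝ) = (t, 0, 0, 1) := by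
    simp
  have h1 : HasDerivAt (fun s : ℝ => A.H (t + s * τ, 0 + s * x, 0 + s * y, 1 + s * r))
      (fderiv ℝ A.H (t, 0, 0, 1) (τ, x, y, r)) 0 := by
    have hH' : HasFDerivAt A.H (fderiv ℝ A.H (t, 0, 0, 1))
        ((fun s : ℝ => ((t + s * τ, 0 + s * x, 0 + s * y, 1 + s * r) : ℝ × ℝ × ℝ × ℝ)) 0) := by
      simp only [h0]
      exact hH
    exact hH'.comp_hasDerivAt 0 hl
  have hcd : HasDerivAt A.c (deriv A.c t) t :=
    (A.hc.differentiable (by simp)).differentiableAt.hasDerivAt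
  have hnd : HasDerivAt A.n (deriv A.n t) t :=
    (A.hn.differentiable (by simp)).differentiableAt.hasDerivAt
  have hct : HasDerivAt (fun s : ℝ => A.c (t + s * τ)) (τ • deriv A.c t) 0 := by
    have hcd' : HasDerivAt A.c (deriv A.c t) (t + 0 * τ) := by simpa using hcd
    exact hcd'.scomp 0 (hlin t τ)
  have hnt : HasDerivAt (fun s : ℝ => A.n (t + s * τ)) (τ • deriv A.n t) 0 := by
    have hnd' : HasDerivAt A.n (deriv A.n t) (t + 0 * τ) := by simpa using hnd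
    exact hnd'.scomp 0 (hlin t τ)
  have h2 : HasDerivAt (fun s : ℝ => (1 + s * r) • (A.c (t + s * τ) + (0 + s * x) • A.w +
      (0 + s * y) • A.n (t + s * τ))) _ 0 :=
    (hlin 1 r).smul ((hct.add ((hlin 0 x).smul_const A.w)).add ((hlin 0 y).smul hnt))
  have h3 := h1.unique h2
  rw [h3]
  simp only [zero_mul, add_zero, one_smul, zero_smul, zero_add]

theorem zero_good (t : ℝ) : ((t, 0, 0) : ℝ × ℝ × ℝ) ∈ A.good := by
  have hs : A.sg (t, 0, 0) = (t, 0, 0, 1) := by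
    unfold sg G
    simp [A.unit t]
  have hinj : Function.Injective (fderiv ℝ A.H (t, 0, 0, 1)) := by
    rw [injective_iff_map_eq_zero]
    rintro ⟨τ, x, y, r⟩ h
    rw [A.fderiv_zero] at h
    obtain ⟨h1, h2, h3, h4⟩ := A.ind t τ x y r h
    rw [h1, h2, h3, h4]
    rfl
  have hdim : Module.finrank ℝ (ℝ × ℝ × ℝ × ℝ) = Module.finrank ℝ E4 := by
    simp only [Module.finrank_prod, Module.finrank_self, finrank_euclideanSpace, Fintype.card_fin]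
  refine ⟨(LinearMap.linearEquivOfInjective (fderiv ℝ A.H (t, 0, 0, 1)).toLinearMap hinj
    hdim).toContinuousLinearEquiv, ?_⟩
  rw [hs]
  exact ContinuousLinearMap.ext fun v => rfl

theorem open_at (p : ℝ × ℝ × ℝ) (hp : p ∈ A.good) : 𝓝 (A.psi p) ≤ map A.psi (𝓝 p) := by
  obtain ⟨e, he⟩ := hp
  have hst : HasStrictFDerivAt A.H (e : (ℝ × ℝ × ℝ × ℝ) →L[ℝ] E4) (A.sg p) := by
    rw [he]
    exact A.H_smooth.contDiffAt.hasStrictFDerivAt (by simp)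
  intro U hU
  rw [mem_map] at hU
  have hpos : 0 < (A.sg p).2.2.2 := inv_pos.2 (A.G_pos p)
  have hV : {q : ℝ × ℝ × ℝ × ℝ | A.psi (q.1, q.2.1, q.2.2.1) ∈ U ∧ 0 < q.2.2.2} ∈ 𝓝 (A.sg p) := by
    apply Filter.inter_mem
    · have h1 : Continuous (fun q : ℝ × ℝ × ℝ × ℝ => ((q.1, q.2.1, q.2.2.1) : ℝ × ℝ × ℝ)) := by
        fun_prop
      have h2 := h1.tendsto (A.sg p)
      exact h2 hU
    · have h1 : IsOpen {q : ℝ × ℝ × ℝ × ℝ | 0 < q.2.2.2} :=
        isOpen_lt continuous_const (by fun_prop)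
      exact h1.mem_nhds hpos
  have h3 := image_mem_map (m := A.H) hV
  have h4 : map A.H (𝓝 (A.sg p)) = 𝓝 (A.H (A.sg p)) := hst.map_nhds_eq_of_equiv
  rw [h4, H_sg] at h3
  have h5 : (Subtype.val : S3 → E4) ⁻¹' (A.H '' {q : ℝ × ℝ × ℝ × ℝ |
      A.psi (q.1, q.2.1, q.2.2.1) ∈ U ∧ 0 < q.2.2.2}) ∈ 𝓝 (A.psi p) :=
    continuous_subtype_val.continuousAt.preimage_mem_nhds h3
  apply Filter.mem_of_superset h5
  rintro v ⟨⟨t, x, y, r⟩, ⟨hq1, hq2⟩, hqv⟩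
  have hq3 : A.H (t, x, y, r) = r • A.G (t, x, y) := rfl
  have hv : ‖(v : E4)‖ = 1 := mem_sphere_zero_iff_norm.1 v.2
  have hqv' : r • A.G (t, x, y) = (v : E4) := hqv
  have hq2' : 0 < r := hq2
  rw [← hqv', norm_smul, Real.norm_eq_abs, abs_of_pos hq2'] at hv
  have hr : r = ‖A.G (t, x, y)‖⁻¹ := eq_inv_of_mul_eq_one_left hv
  have hfin : v = A.psi (t, x, y) := by
    apply Subtype.ext
    rw [← hqv', hr]
    rfl
  rw [hfin]
  exact hq1

theorem inj_at (p : ℝ × ℝ × ℝ) (hp : p ∈ A.good) : ∃ U ∈ 𝓝 p, InjOn A.psi U := by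
  obtain ⟨e, he⟩ := hp
  have hst : HasStrictFDerivAt A.H (e : (ℝ × ℝ × ℝ × ℝ) →L[ℝ] E4) (A.sg p) := by
    rw [he]
    exact A.H_smooth.contDiffAt.hasStrictFDerivAt (by simp)
  set φ := hst.toOpenPartialHomeomorph A.H with hφ
  have h1 : A.sg p ∈ φ.source := hst.mem_toOpenPartialHomeomorph_source
  refine ⟨A.sg ⁻¹' φ.source, A.sg_cont.continuousAt.preimage_mem_nhds
    (φ.open_source.mem_nhds h1), ?_⟩
  intro a ha b hb hab
  apply A.sg_inj
  apply φ.injOn ha hb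
  rw [hφ, hst.toOpenPartialHomeomorph_coe, H_sg, H_sg, hab]

theorem fib_smooth (x y : ℝ) :
    ContDiff ℝ (⊤ : ℕ∞) (fun t : ℝ => (A.psi (t, x, y) : E4)) := by
  have h1 : ContDiff ℝ (⊤ : ℕ∞) (fun t : ℝ => A.G (t, x, y)) := by
    have h2 := A.hc
    have h3 := A.hn
    unfold G
    fun_prop
  have h2 : ContDiff ℝ (⊤ : ℕ∞) (fun t : ℝ => ‖A.G (t, x, y)‖⁻¹) :=
    (h1.norm ℝ (fun t => A.G_ne _)).inv (fun t => (A.G_pos _).ne')
  exact h2.smul h1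

theorem fib_regular (t x y : ℝ) (hp : ((t, x, y) : ℝ × ℝ × ℝ) ∈ A.good) :
    deriv (fun t : ℝ => (A.psi (t, x, y) : E4)) t ≠ 0 := by
  obtain ⟨e, he⟩ := hp
  have h1 : ContDiff ℝ (⊤ : ℕ∞) (fun t : ℝ => A.G (t, x, y)) := by
    have h2 := A.hc
    have h3 := A.hn
    unfold G
    fun_prop
  have h2 : ContDiff ℝ (⊤ : ℕ∞) (fun t : ℝ => ‖A.G (t, x, y)‖⁻¹) :=
    (h1.norm ℝ (fun t => A.G_ne _)).inv (fun t => (A.G_pos _).ne')
  have h3 : HasDerivAt (fun t : ℝ => ‖A.G (t, x, y)‖⁻¹)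
      (deriv (fun t : ℝ => ‖A.G (t, x, y)‖⁻¹) t) t :=
    (h2.differentiable (by simp)).differentiableAt.hasDerivAt
  have h4 : HasDerivAt (fun t : ℝ => A.sg (t, x, y))
      ((1, 0, 0, deriv (fun t : ℝ => ‖A.G (t, x, y)‖⁻¹) t) : ℝ × ℝ × ℝ × ℝ) t :=
    (hasDerivAt_id t).prodMk ((hasDerivAt_const t x).prodMk ((hasDerivAt_const t y).prodMk h3))
  have hH : HasFDerivAt A.H (fderiv ℝ A.H (A.sg (t, x, y))) (A.sg (t, x, y)) :=
    (A.H_smooth.differentiable (by simp)).differentiableAt.hasFDerivAt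
  have h5' : HasDerivAt (fun t : ℝ => A.H (A.sg (t, x, y)))
      (fderiv ℝ A.H (A.sg (t, x, y)) (1, 0, 0, deriv (fun t : ℝ => ‖A.G (t, x, y)‖⁻¹) t)) t := by
    have hH' : HasFDerivAt A.H (fderiv ℝ A.H (A.sg (t, x, y)))
        ((fun t : ℝ => A.sg (t, x, y)) t) := hH
    exact hH'.comp_hasDerivAt t h4
  have h5 : HasDerivAt (fun t : ℝ => (A.psi (t, x, y) : E4))
      (fderiv ℝ A.H (A.sg (t, x, y)) (1, 0, 0, deriv (fun t : ℝ => ‖A.G (t, x, y)‖⁻¹) t)) t := h5'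
  rw [h5.deriv, ← he]
  intro h6
  have h7 : ((1, 0, 0, deriv (fun t : ℝ => ‖A.G (t, x, y)‖⁻¹) t) : ℝ × ℝ × ℝ × ℝ) = 0 := by
    apply e.injective
    rw [map_zero]
    exact h6
  have h8 := congrArg Prod.fst h7
  exact one_ne_zero h8

theorem psi_per (t x y : ℝ) : A.psi (t + 1, x, y) = A.psi (t, x, y) := by
  apply Subtype.ext
  show ‖A.G (t + 1, x, y)‖⁻¹ • A.G (t + 1, x, y) = ‖A.G (t, x, y)‖⁻¹ • A.G (t, x, y)
  have : A.G (t + 1, x, y) = A.G (t, x, y) := by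
    show A.c (t + 1) + x • A.w + y • A.n (t + 1) = A.c t + x • A.w + y • A.n t
    rw [A.pc, A.pn]
  rw [this]

theorem psi_zero (t : ℝ) : (A.psi (t, 0, 0) : E4) = A.c t := by
  show ‖A.G (t, 0, 0)‖⁻¹ • A.G (t, 0, 0) = A.c t
  have : A.G (t, 0, 0) = A.c t := by
    show A.c t + (0 : ℝ) • A.w + (0 : ℝ) • A.n t = A.c t
    simp
  rw [this, A.unit, inv_one, one_smul]

end Fr

/-- every component of a smooth link can be framed -/
theorem exists_fr {m : ℕ} (K : Link m) (i : Fin m) : ∃ A : Fr, ∀ t, A.c t = (K.γ i t : E4) := by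
  set c : ℝ → E4 := fun t => (K.γ i t : E4) with hcdef
  have hc : ContDiff ℝ (⊤ : ℕ∞) c := K.smooth i
  have hper : ∀ t, c (t + 1) = c t := fun t => congrArg Subtype.val (K.periodic i t)
  have hunit : ∀ t, ‖c t‖ = 1 := fun t => mem_sphere_zero_iff_norm.1 (K.γ i t).2
  have hin : ∀ t, inner ℝ (c t) (c t) = (1 : ℝ) := by
    intro t
    rw [real_inner_self_eq_norm_sq, hunit t]
    norm_num
  obtain ⟨w, hw⟩ := exists_w c hc
  have hdper : ∀ t, deriv c (t + 1) = deriv c t := by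
    intro t
    have : (fun t => c (t + 1)) = c := funext hper
    conv_rhs => rw [← this]
    rw [deriv_comp_add_const]
  refine ⟨⟨c, fun t => X3 (c t) (deriv c t) w, w, hc, X3_smooth c hc w, hper, ?_, hunit, ?_⟩,
    fun t => rfl⟩
  · intro t
    show X3 (c (t + 1)) (deriv c (t + 1)) w = X3 (c t) (deriv c t) w
    rw [hper, hdper]
  · intro t τ x y r h
    exact indep (c t) (deriv c t) w (hin t) (vel_orth c hc hin t) (K.regular i t)
      (fun r s => hw t r s) τ x y r h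

end AG

end AltGenus
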