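import Pool.Agent.H99.AG.Tubes
import Pool.Graph.R_seed8.AltGenus.HopfLink

open Set Topology Filter

namespace AltGenus

namespace AG

/-- Disjoint open solid tori around the components of the link `J`: the `i`-th one is parametrised
by `Φ i : S¹ × ℝ² → S³`, and the `i`-th component of `J` is its core `S¹ × {(0, 0)}`. The
parametrisation may twist around the core, so it includes a framing of `J`. -/
structure Tubes {r : ℕ} (J : Link r) where
  Φ : Fin r → (UnitAddCircle × (ℝ × ℝ) → S3)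
  emb : ∀ i, IsOpenEmbedding (Φ i)
  disj : ∀ i j, i ≠ j → Disjoint (range (Φ i)) (range (Φ j))
  core : ∀ i (t : ℝ), Φ i ((t : UnitAddCircle), (0, 0)) = J.γ i t

/-- The union of the parallels `S¹ × {p}`, `p ∈ P i`, of the components of `J`. -/
def Tubes.parallels {r : ℕ} {J : Link r} (T : Tubes J) (P : Fin r → Finset (ℝ × ℝ)) : Set S3 :=
  {v | ∃ i, ∃ p ∈ P i, ∃ θ, v = T.Φ i (θ, p)}

theorem parallels_eq {r : ℕ} {J : Link r} (T : Tubes J) (P : Fin r → Finset (ℝ × ℝ)) :
    T.parallels P = ⋃ i, T.Φ i '' {q | q.2 ∈ P i} := by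
  ext v
  simp only [Tubes.parallels, mem_ofPred_eq, mem_iUnion, mem_image]
  constructor
  · rintro ⟨i, p, hp, θ, rfl⟩
    exact ⟨i, (θ, p), hp, rfl⟩
  · rintro ⟨i, ⟨θ, p⟩, hp, rfl⟩
    exact ⟨i, p, hp, θ, rfl⟩

theorem tubes_bound {r m : ℕ} {J : Link r} (T : Tubes J) (k : Fin r → ℕ)
    (P : Fin r → Finset (ℝ × ℝ)) (hP : ∀ i, (P i).card = 2 * k i) (K : Link m)
    (hK : K.carrier = T.parallels P) : ((∑ i, k i : ℕ) : ℕ∞) ≤ gAlt K + 1 :=
  parallels T.Φ T.emb T.disj k P hP K (hK.trans (parallels_eq T P))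

/-- the link of finitely many fibres -/
noncomputable def fibLink {r m : ℕ} (Φ : Fin r → (UnitAddCircle × (ℝ × ℝ) → S3))
    (h1 : ∀ i, IsOpenEmbedding (Φ i))
    (h2 : ∀ i j, i ≠ j → Disjoint (range (Φ i)) (range (Φ j)))
    (h3 : ∀ i z, ContDiff ℝ (⊤ : ℕ∞) (fun t : ℝ => (Φ i ((t : UnitAddCircle), z) : E4)))
    (h4 : ∀ i z (t : ℝ), deriv (fun t : ℝ => (Φ i ((t : UnitAddCircle), z) : E4)) t ≠ 0)
    (idx : Fin m → Fin r × (ℝ × ℝ)) (hidx : Function.Injective idx) : Link m where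
  γ := fun a t => Φ (idx a).1 ((t : UnitAddCircle), (idx a).2)
  smooth := fun a => h3 _ _
  regular := fun a t => h4 _ _ t
  periodic := fun a t => by
    rw [AddCircle.coe_add_period]
  inj := fun a b s t h => by
    have h5 : (idx a).1 = (idx b).1 := by
      by_contra hne
      exact Set.disjoint_left.1 (h2 _ _ hne) ⟨_, rfl⟩ ⟨_, h.symm⟩
    have h6 : Φ (idx b).1 ((s : UnitAddCircle), (idx a).2) =
        Φ (idx b).1 ((t : UnitAddCircle), (idx b).2) := by
      rw [← h, h5]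
    have h7 := (h1 _).injective h6
    rw [Prod.mk.injEq] at h7
    refine ⟨hidx (Prod.ext h5 h7.2), ?_⟩
    exact circ_eq h7.1

theorem fibLink_carrier {r m : ℕ} (Φ : Fin r → (UnitAddCircle × (ℝ × ℝ) → S3))
    (h1 : ∀ i, IsOpenEmbedding (Φ i))
    (h2 : ∀ i j, i ≠ j → Disjoint (range (Φ i)) (range (Φ j)))
    (h3 : ∀ i z, ContDiff ℝ (⊤ : ℕ∞) (fun t : ℝ => (Φ i ((t : UnitAddCircle), z) : E4)))
    (h4 : ∀ i z (t : ℝ), deriv (fun t : ℝ => (Φ i ((t : UnitAddCircle), z) : E4)) t ≠ 0)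
    (idx : Fin m → Fin r × (ℝ × ℝ)) (hidx : Function.Injective idx) :
    (fibLink Φ h1 h2 h3 h4 idx hidx).carrier = {v | ∃ a θ, v = Φ (idx a).1 (θ, (idx a).2)} := by
  ext v
  simp only [Link.carrier, mem_iUnion, mem_range, mem_ofPred_eq]
  constructor
  · rintro ⟨a, t, rfl⟩
    exact ⟨a, _, rfl⟩
  · rintro ⟨a, θ, rfl⟩
    obtain ⟨t, rfl⟩ := circ_surj θ
    exact ⟨a, t, rfl⟩

/-- every smooth link has solid tori around its components all of whose finite families of
fibres are smooth links -/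
theorem exists_good_tubes {r : ℕ} (J : Link r) : ∃ T : Tubes J,
    (∀ (m : ℕ) (idx : Fin m → Fin r × (ℝ × ℝ)), Function.Injective idx →
      ∃ K : Link m, ∀ a (t : ℝ), K.γ a t = T.Φ (idx a).1 ((t : UnitAddCircle), (idx a).2)) := by
  obtain ⟨Φ, h1, h2, hc, h3, h4⟩ := exists_tubes J
  refine ⟨⟨Φ, h1, h2, hc⟩, ?_⟩
  intro m idx hidx
  exact ⟨fibLink Φ h1 h2 h3 h4 idx hidx, fun a t => rfl⟩

/-- every smooth knot is a component of a link with `2N+2` parallel components and alternating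
genus at least `N` -/
theorem knot_parallels (N : ℕ) (J : Link 1) : ∃ (T : Tubes J) (p : Fin (2 * N + 2) → ℝ × ℝ)
    (L : Link (2 * N + 2)), Function.Injective p ∧ p 0 = (0, 0) ∧
      (∀ a (t : ℝ), L.γ a t = T.Φ 0 ((t : UnitAddCircle), p a)) ∧ (N : ℕ∞) ≤ gAlt L := by
  classical
  obtain ⟨T, hT⟩ := exists_good_tubes J
  set p : Fin (2 * N + 2) → ℝ × ℝ := fun a => (((a : ℕ) : ℝ), 0) with hp
  have hpi : Function.Injective p := by
    intro a b h
    have h1 : ((a : ℕ) : ℝ) = ((b : ℕ) : ℝ) := congrArg Prod.fst h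
    exact Fin.ext (by exact_mod_cast h1)
  obtain ⟨L, hL⟩ := hT (2 * N + 2) (fun a => (0, p a)) (fun a b h => hpi (congrArg Prod.snd h))
  refine ⟨T, p, L, hpi, ?_, hL, ?_⟩
  · simp [hp]
  · have h1 := tubes_bound T (fun _ => N + 1) (fun _ => Finset.univ.image p) (fun _ => by
      rw [Finset.card_image_of_injective _ hpi, Finset.card_univ, Fintype.card_fin]
      ring) L (by
      ext v
      simp only [Link.carrier, mem_iUnion, mem_range, Tubes.parallels, mem_ofPred_eq,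
        Finset.mem_image, Finset.mem_univ, true_and]
      constructor
      · rintro ⟨a, t, rfl⟩
        exact ⟨0, p a, ⟨a, rfl⟩, _, hL a t⟩
      · rintro ⟨i, _, ⟨a, rfl⟩, θ, rfl⟩
        obtain ⟨t, rfl⟩ := circ_surj θ
        have hi : i = 0 := Subsingleton.elim _ _
        subst hi
        exact ⟨a, t, hL a t⟩)
    simp only [Finset.univ_unique, Finset.sum_const, Finset.card_singleton, one_smul,
      Nat.cast_add, Nat.cast_one] at h1
    exact (ENat.add_le_add_iff_right (by simp)).1 h1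

/-- some knot -/
noncomputable def someKnot : Link 1 where
  γ := fun _ => (hopfLink 1).γ 0
  smooth := fun _ => (hopfLink 1).smooth 0
  regular := fun _ t => (hopfLink 1).regular 0 t
  periodic := fun _ t => (hopfLink 1).periodic 0 t
  inj := fun i j s t h => ⟨Subsingleton.elim _ _, ((hopfLink 1).inj 0 0 s t h).2⟩

end AG

end AltGenus
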