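import Pool.Graph.R_seed8.AltGenus.Defs

open Set Topology Filter

namespace AltGenus

namespace AG

abbrev E4 : Type := EuclideanSpace ℝ (Fin 4)

/-- the product of three vectors of `ℝ⁴` -/
def X3 (a b d : E4) : E4 :=
  !₂[a 1 * (b 2 * d 3 - b 3 * d 2) - a 2 * (b 1 * d 3 - b 3 * d 1) + a 3 * (b 1 * d 2 - b 2 * d 1),
    -(a 0 * (b 2 * d 3 - b 3 * d 2) - a 2 * (b 0 * d 3 - b 3 * d 0) + a 3 * (b 0 * d 2 - b 2 * d 0)),
    a 0 * (b 1 * d 3 - b 3 * d 1) - a 1 * (b 0 * d 3 - b 3 * d 0) + a 3 * (b 0 * d 1 - b 1 * d 0),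
    -(a 0 * (b 1 * d 2 - b 2 * d 1) - a 1 * (b 0 * d 2 - b 2 * d 0) + a 2 * (b 0 * d 1 - b 1 * d 0))]

theorem inner4 (x y : E4) : inner ℝ x y = x 0 * y 0 + x 1 * y 1 + x 2 * y 2 + x 3 * y 3 := by
  rw [PiLp.inner_apply, Fin.sum_univ_four]
  simp only [RCLike.inner_apply, conj_trivial]
  ring

theorem X0 (a b d : E4) : X3 a b d 0 =
    a 1 * (b 2 * d 3 - b 3 * d 2) - a 2 * (b 1 * d 3 - b 3 * d 1) + a 3 * (b 1 * d 2 - b 2 * d 1) :=
  rfl
theorem X1 (a b d : E4) : X3 a b d 1 =
    -(a 0 * (b 2 * d 3 - b 3 * d 2) - a 2 * (b 0 * d 3 - b 3 * d 0) +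
      a 3 * (b 0 * d 2 - b 2 * d 0)) :=
  rfl
theorem X2 (a b d : E4) : X3 a b d 2 =
    a 0 * (b 1 * d 3 - b 3 * d 1) - a 1 * (b 0 * d 3 - b 3 * d 0) + a 3 * (b 0 * d 1 - b 1 * d 0) :=
  rfl
theorem X3' (a b d : E4) : X3 a b d 3 =
    -(a 0 * (b 1 * d 2 - b 2 * d 1) - a 1 * (b 0 * d 2 - b 2 * d 0) +
      a 2 * (b 0 * d 1 - b 1 * d 0)) :=
  rfl

theorem X_a (a b d : E4) : inner ℝ (X3 a b d) a = 0 := by
  rw [inner4, X0, X1, X2, X3']
  ring

theorem X_b (a b d : E4) : inner ℝ (X3 a b d) b = 0 := by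
  rw [inner4, X0, X1, X2, X3']
  ring

theorem X_d (a b d : E4) : inner ℝ (X3 a b d) d = 0 := by
  rw [inner4, X0, X1, X2, X3']
  ring

theorem X_gram (a b d : E4) (ha : inner ℝ a a = (1 : ℝ)) (hab : inner ℝ a b = (0 : ℝ)) :
    inner ℝ (X3 a b d) (X3 a b d) =
      inner ℝ b b * (inner ℝ d d - inner ℝ a d ^ 2) - inner ℝ b d ^ 2 := by
  have key : inner ℝ (X3 a b d) (X3 a b d) =
      inner ℝ a a * (inner ℝ b b * inner ℝ d d - inner ℝ b d ^ 2)
      - inner ℝ a b * (inner ℝ a b * inner ℝ d d - inner ℝ b d * inner ℝ a d)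
      + inner ℝ a d * (inner ℝ a b * inner ℝ b d - inner ℝ b b * inner ℝ a d) := by
    simp only [inner4, X0, X1, X2, X3']
    ring
  rw [key, ha, hab]
  ring

/-- for a unit vector `a`, a nonzero vector `b` orthogonal to it, and `d` outside their span, the
four vectors `b, d, X3 a b d, a` are independent -/
theorem indep (a b d : E4) (ha : inner ℝ a a = (1 : ℝ)) (hab : inner ℝ a b = (0 : ℝ)) (hb : b ≠ 0)
    (hd : ∀ r s : ℝ, d ≠ r • a + s • b) (τ x y r : ℝ)
    (h : τ • b + x • d + y • X3 a b d + r • a = 0) : τ = 0 ∧ x = 0 ∧ y = 0 ∧ r = 0 := by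
  have hbb : 0 < inner ℝ b b := by
    rw [real_inner_self_eq_norm_sq]
    have := norm_pos_iff.2 hb
    positivity
  have hX : inner ℝ (X3 a b d) (X3 a b d) ≠ (0 : ℝ) := by
    rw [X_gram a b d ha hab]
    intro h0
    have h1 : d - (inner ℝ a d • a + (inner ℝ b d / inner ℝ b b) • b) ≠ 0 := by
      rw [sub_ne_zero]
      exact hd _ _
    have h2 : 0 < inner ℝ (d - (inner ℝ a d • a + (inner ℝ b d / inner ℝ b b) • b))
        (d - (inner ℝ a d • a + (inner ℝ b d / inner ℝ b b) • b)) := by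
      rw [real_inner_self_eq_norm_sq]
      have := norm_pos_iff.2 h1
      positivity
    have hba : inner ℝ b a = (0 : ℝ) := by rw [real_inner_comm]; exact hab
    have hda : inner ℝ d a = inner ℝ a d := real_inner_comm _ _
    have hdb : inner ℝ d b = inner ℝ b d := real_inner_comm _ _
    simp only [inner_sub_left, inner_sub_right, inner_add_left, inner_add_right,
      real_inner_smul_left, real_inner_smul_right, ha, hab, hba, hda, hdb] at h2
    have h3 : inner ℝ d d - inner ℝ a d ^ 2 = inner ℝ b d ^ 2 / inner ℝ b b := by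
      rw [eq_div_iff hbb.ne']
      linarith
    have h4 : inner ℝ b d / inner ℝ b b * inner ℝ b d = inner ℝ b d ^ 2 / inner ℝ b b := by
      ring
    have h5 : inner ℝ b d / inner ℝ b b * (inner ℝ b d / inner ℝ b b * inner ℝ b b) =
        inner ℝ b d ^ 2 / inner ℝ b b := by
      rw [div_mul_cancel₀ _ hbb.ne']
      ring
    nlinarith
  have hy : y = 0 := by
    have h1 : inner ℝ (X3 a b d) (τ • b + x • d + y • X3 a b d + r • a) = (0 : ℝ) := by
      rw [h, inner_zero_right]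
    simp only [inner_add_right, real_inner_smul_right, X_a, X_b, X_d] at h1
    have h2 : y * inner ℝ (X3 a b d) (X3 a b d) = 0 := by linarith
    exact (mul_eq_zero.1 h2).resolve_right hX
  subst hy
  rw [zero_smul, add_zero] at h
  have hx : x = 0 := by
    by_contra hx
    apply hd (-(r / x)) (-(τ / x))
    have h1 : x • d = -(r • a) - τ • b := by
      have : x • d = (τ • b + x • d + r • a) - r • a - τ • b := by abel
      rw [this, h, zero_sub]
    have h2 : d = (1 / x) • (x • d) := by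
      rw [smul_smul, one_div, inv_mul_cancel₀ hx, one_smul]
    rw [h2, h1, smul_sub, smul_neg, smul_smul, smul_smul, neg_smul, neg_smul, sub_eq_add_neg]
    congr 3
    · ring
    · ring
  subst hx
  rw [zero_smul, add_zero] at h
  have hr : r = 0 := by
    have h1 : inner ℝ a (τ • b + r • a) = (0 : ℝ) := by rw [h, inner_zero_right]
    simp only [inner_add_right, real_inner_smul_right, ha, hab] at h1
    linarith
  subst hr
  rw [zero_smul, add_zero] at h
  exact ⟨(smul_eq_zero.1 h).resolve_right hb, rfl, rfl, rfl⟩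

/-- a vector which is never in the span of the position and the velocity -/
theorem exists_w (c : ℝ → E4) (hc : ContDiff ℝ (⊤ : ℕ∞) c) :
    ∃ w : E4, ∀ t r s : ℝ, w ≠ r • c t + s • deriv c t := by
  have hc' : ContDiff ℝ (⊤ : ℕ∞) (deriv c) := (contDiff_infty_iff_deriv.1 hc).2
  have h1 : ContDiff ℝ 1 (fun p : ℝ × ℝ × ℝ => p.2.1 • c p.1 + p.2.2 • deriv c p.1) := by
    have a1 : ContDiff ℝ 1 c := hc.of_le (by exact_mod_cast le_top)
    have a2 : ContDiff ℝ 1 (deriv c) := hc'.of_le (by exact_mod_cast le_top)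
    exact ((contDiff_fst.comp contDiff_snd).smul (a1.comp contDiff_fst)).add
      ((contDiff_snd.comp contDiff_snd).smul (a2.comp contDiff_fst))
  have h2 := h1.dense_compl_range_of_finrank_lt_finrank (by
    simp only [Module.finrank_prod, Module.finrank_self, finrank_euclideanSpace, Fintype.card_fin]
    norm_num)
  obtain ⟨w, hw⟩ := h2.nonempty
  refine ⟨w, ?_⟩
  intro t r s h
  exact hw ⟨(t, r, s), h.symm⟩

theorem X3_smooth (c : ℝ → E4) (hc : ContDiff ℝ (⊤ : ℕ∞) c) (w : E4) :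
    ContDiff ℝ (⊤ : ℕ∞) (fun t => X3 (c t) (deriv c t) w) := by
  have hc' : ContDiff ℝ (⊤ : ℕ∞) (deriv c) := (contDiff_infty_iff_deriv.1 hc).2
  have h1 := contDiff_euclidean.1 hc
  have h2 := contDiff_euclidean.1 hc'
  rw [contDiff_euclidean]
  intro i
  fin_cases i
  · show ContDiff ℝ _ (fun t => X3 (c t) (deriv c t) w 0)
    simp only [X0]
    fun_prop
  · show ContDiff ℝ _ (fun t => X3 (c t) (deriv c t) w 1)
    simp only [X1]
    fun_prop
  · show ContDiff ℝ _ (fun t => X3 (c t) (deriv c t) w 2)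
    simp only [X2]
    fun_prop
  · show ContDiff ℝ _ (fun t => X3 (c t) (deriv c t) w 3)
    simp only [X3']
    fun_prop

/-- the velocity of a curve on the sphere is orthogonal to the position -/
theorem vel_orth (c : ℝ → E4) (hc : ContDiff ℝ (⊤ : ℕ∞) c) (h1 : ∀ t, inner ℝ (c t) (c t) = (1 : ℝ))
    (t : ℝ) : inner ℝ (c t) (deriv c t) = (0 : ℝ) := by
  have hd : HasDerivAt c (deriv c t) t := (hc.differentiable (by simp)).differentiableAt.hasDerivAt
  have h2 := hd.inner ℝ hd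
  have h3 : HasDerivAt (fun s => inner ℝ (c s) (c s)) (0 : ℝ) t := by
    have : (fun s => inner ℝ (c s) (c s)) = fun _ => (1 : ℝ) := funext h1
    rw [this]
    exact hasDerivAt_const t 1
  have h4 := h2.unique h3
  rw [real_inner_comm (c t) (deriv c t)] at h4
  linarith

end AG

end AltGenus
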