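import Pool.Agent.H99.AG.Base
import Pool.Graph.R_seed8.AltGenus.P_height_bound
import Pool.Graph.R_seed8.AltGenus.P_HB_connected
import Pool.Graph.R_seed8.AltGenus.P_push_continuous

open Set Topology Filter

namespace AltGenus

namespace AG

namespace X_Rp_facts
theorem kap_cont {n : ℕ} (P : WMap n) : Continuous P.κ := P.cont

theorem Lset_closed {n : ℕ} (P : WMap n) : IsClosed P.L := by
  have h : P.L = ⋃ i : Fin n, P.κ ⁻¹' {((0 : ℝ), ((i : ℕ) : ℝ))} := by
    ext v
    simp [WMap.L]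
  rw [h]
  exact isClosed_iUnion_of_finite fun i => isClosed_singleton.preimage (kap_cont P)

theorem Wp_compact {g : ℕ} (H : Heegaard g) : IsCompact H.Wp := by
  haveI : CompactSpace (HB g) := isCompact_iff_compactSpace.1 (HB_connected g).2.2
  have h : H.Wp = range (fun v : HB g => (H.hp v : S3)) := by
    ext x
    constructor
    · intro hx
      exact ⟨H.hp.symm ⟨x, hx⟩, by simp⟩
    · rintro ⟨v, rfl⟩
      exact (H.hp v).2
  rw [h]
  exact isCompact_range (continuous_subtype_val.comp H.hp.continuous)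

theorem Wm_compact {g : ℕ} (H : Heegaard g) : IsCompact H.Wm := by
  haveI : CompactSpace (HB g) := isCompact_iff_compactSpace.1 (HB_connected g).2.2
  have h : H.Wm = range (fun v : HB g => (H.hm v : S3)) := by
    ext x
    constructor
    · intro hx
      exact ⟨H.hm.symm ⟨x, hx⟩, by simp⟩
    · rintro ⟨v, rfl⟩
      exact (H.hm v).2
  rw [h]
  exact isCompact_range (continuous_subtype_val.comp H.hm.continuous)

theorem Wp_conn {g : ℕ} (H : Heegaard g) : IsConnected H.Wp := by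
  haveI : ConnectedSpace (HB g) := isConnected_iff_connectedSpace.1 (HB_connected g).1
  have h : H.Wp = range (fun v : HB g => (H.hp v : S3)) := by
    ext x
    constructor
    · intro hx
      exact ⟨H.hp.symm ⟨x, hx⟩, by simp⟩
    · rintro ⟨v, rfl⟩
      exact (H.hp v).2
  rw [h]
  exact isConnected_range (continuous_subtype_val.comp H.hp.continuous)

theorem Sig_compact {g : ℕ} (H : Heegaard g) : IsCompact H.Sig := by
  rw [← H.inter]
  exact (Wp_compact H).inter (Wm_compact H)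

theorem Sig_range {g : ℕ} {H : Heegaard g} (E : Collar H) {v : S3} (h : v ∈ H.Sig) :
    v ∈ range E.e := ⟨(⟨v, h⟩, 0), E.zero ⟨v, h⟩⟩

theorem notWm_of {g : ℕ} {H : Heegaard g} (E : Collar H) {v : S3} (h : v ∈ H.Wp)
    (h' : v ∉ range E.e) : v ∉ H.Wm := by
  intro hm
  apply h'
  apply Sig_range E
  rw [← H.inter]
  exact ⟨h, hm⟩

theorem Wp_of_notWm {g : ℕ} (H : Heegaard g) {v : S3} (h : v ∉ H.Wm) : v ∈ H.Wp := by
  have : v ∈ H.Wp ∪ H.Wm := by rw [H.union]; trivial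
  exact this.resolve_right h

theorem Rp_iff {g : ℕ} {H : Heegaard g} (E : Collar H) (L : Set S3) (s : H.Sig) (t : ℝ) :
    (∀ t', t ≤ t' → E.e (s, t') ∉ L) ↔ E.e (s, t) ∈ Rp E L := by
  constructor
  · intro h
    exact Or.inr ⟨s, t, rfl, h⟩
  · rintro (⟨_, h⟩ | ⟨s', t', h, h'⟩)
    · exact absurd ⟨(s, t), rfl⟩ h
    · have := E.emb.injective h
      rw [Prod.mk.injEq] at this
      obtain ⟨rfl, rfl⟩ := this
      exact h'

/-- the part of the collar above the link is open -/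
theorem up_open {g : ℕ} {H : Heegaard g} (E : Collar H) (L : Set S3) (hL : IsClosed L) (T : ℝ)
    (hT : ∀ s t, E.e (s, t) ∈ L → |t| < T) :
    IsOpen {p : H.Sig × ℝ | ∀ t', p.2 ≤ t' → E.e (p.1, t') ∉ L} := by
  rw [← isClosed_compl_iff]
  have hC : IsClosed ({q : (H.Sig × ℝ) × Icc (-T) T | q.1.2 ≤ (q.2 : ℝ)} ∩
      ((fun q : (H.Sig × ℝ) × Icc (-T) T => E.e (q.1.1, (q.2 : ℝ))) ⁻¹' L)) := by
    apply IsClosed.inter
    · exact isClosed_le (by fun_prop) (by fun_prop)
    · refine hL.preimage (E.emb.continuous.comp ?_)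
      fun_prop
  have hmap : IsClosedMap (Prod.fst : (H.Sig × ℝ) × Icc (-T) T → H.Sig × ℝ) :=
    isClosedMap_fst_of_compactSpace
  have h := hmap _ hC
  convert h using 1
  ext ⟨s, t⟩
  simp only [mem_compl_iff, mem_setOf_eq, mem_image, not_forall, not_not]
  constructor
  · rintro ⟨t', h1, h2⟩
    have h3 := hT s t' h2
    rw [abs_lt] at h3
    exact ⟨((s, t), ⟨t', h3.1.le, h3.2.le⟩), ⟨h1, h2⟩, rfl⟩
  · rintro ⟨⟨⟨s', t'⟩, ⟨u, hu⟩⟩, ⟨h1, h2⟩, h3⟩
    simp only [Prod.mk.injEq] at h3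
    obtain ⟨rfl, rfl⟩ := h3
    exact ⟨u, h1, h2⟩

theorem Rp_open {g : ℕ} {H : Heegaard g} (E : Collar H) (L : Set S3) (hL : IsClosed L)
    (hsub : L ⊆ range E.e) : IsOpen (Rp E L) := by
  obtain ⟨T, hT0, hT⟩ := height_bound E L hL hsub
  have hQ := up_open E L hL T hT
  have hQ' := E.emb.isOpenMap _ hQ
  haveI : CompactSpace H.Sig := isCompact_iff_compactSpace.1 (Sig_compact H)
  have hK : IsCompact (E.e '' (univ ×ˢ Icc 0 T)) :=
    (isCompact_univ.prod isCompact_Icc).image E.emb.continuous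
  have hN : IsOpen (H.Wmᶜ ∩ (E.e '' (univ ×ˢ Icc 0 T))ᶜ) :=
    (Wm_compact H).isClosed.isOpen_compl.inter hK.isClosed.isOpen_compl
  have heq : Rp E L = (E.e '' {p : H.Sig × ℝ | ∀ t', p.2 ≤ t' → E.e (p.1, t') ∉ L}) ∪
      (H.Wmᶜ ∩ (E.e '' (univ ×ˢ Icc 0 T))ᶜ) := by
    ext v
    constructor
    · rintro (⟨h1, h2⟩ | ⟨s, t, rfl, h⟩)
      · right
        refine ⟨notWm_of E h1 h2, ?_⟩
        rintro ⟨p, _, rfl⟩
        exact h2 ⟨p, rfl⟩
      · left
        exact ⟨(s, t), h, rfl⟩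
    · rintro (⟨⟨s, t⟩, h, rfl⟩ | ⟨h1, h2⟩)
      · exact Or.inr ⟨s, t, rfl, h⟩
      · by_cases hr : v ∈ range E.e
        · right
          obtain ⟨⟨s, t⟩, rfl⟩ := hr
          have ht0 : 0 < t := by
            by_contra hlt
            exact h1 (E.neg s t (not_lt.1 hlt))
          have htT : T < t := by
            by_contra hlt
            exact h2 ⟨(s, t), ⟨trivial, ht0.le, not_lt.1 hlt⟩, rfl⟩
          refine ⟨s, t, rfl, ?_⟩
          intro t' ht' hmem
          have := hT s t' hmem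
          rw [abs_lt] at this
          linarith [this.2]
        · exact Or.inl ⟨Wp_of_notWm H h1, hr⟩
  rw [heq]
  exact hQ'.union hN

open Classical in
/-- pushing the collar up to height `T` -/
noncomputable def pushM {g : ℕ} {H : Heegaard g} (E : Collar H) (T : ℝ) :
    unitInterval × S3 → S3 := fun p =>
  if h : p.2 ∈ range E.e then E.e (h.choose.1, max h.choose.2 T) else p.2

theorem pushM_e {g : ℕ} {H : Heegaard g} (E : Collar H) (T : ℝ) (τ : unitInterval) (s : H.Sig)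
    (t : ℝ) : pushM E T (τ, E.e (s, t)) = E.e (s, max t T) := by
  have h : E.e (s, t) ∈ range E.e := ⟨_, rfl⟩
  unfold pushM
  rw [dif_pos h]
  have h2 : h.choose = (s, t) := E.emb.injective h.choose_spec
  rw [h2]

theorem pushM_out {g : ℕ} {H : Heegaard g} (E : Collar H) (T : ℝ) (τ : unitInterval) (v : S3)
    (hv : v ∉ range E.e) : pushM E T (τ, v) = v := by
  unfold pushM
  rw [dif_neg hv]

theorem Rp_preconn {g : ℕ} {H : Heegaard g} (E : Collar H) (L : Set S3) (hL : IsClosed L)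
    (hsub : L ⊆ range E.e) : IsPreconnected (Rp E L) := by
  obtain ⟨T, hT0, hT⟩ := height_bound E L hL hsub
  have hcont := push_continuous E (fun p => max p.2 T) (by fun_prop) T
    (fun _ t ht => max_eq_left ht) (pushM E T) (pushM_e E T) (pushM_out E T)
  -- the top part
  have hAc : IsPreconnected ((fun v => pushM E T (0, v)) '' H.Wp) := by
    refine (Wp_conn H).isPreconnected.image _ ?_
    refine hcont.comp (by fun_prop) ?_
    intro v hv
    exact Or.inl hv
  have hA1 : ∀ v ∈ H.Wp, v ∉ range E.e → v ∈ ((fun v => pushM E T (0, v)) '' H.Wp) := by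
    intro v hv hr
    exact ⟨v, hv, pushM_out E T 0 v hr⟩
  have hA2 : ∀ s t, T ≤ t → E.e (s, t) ∈ ((fun v => pushM E T (0, v)) '' H.Wp) := by
    intro s t ht
    refine ⟨E.e (s, t), E.pos s t (hT0.le.trans ht), ?_⟩
    show pushM E T (0, E.e (s, t)) = _
    rw [pushM_e, max_eq_left ht]
  have htop : ∀ s t, T ≤ t → E.e (s, t) ∈ Rp E L := by
    intro s t ht
    refine (Rp_iff E L s t).1 ?_
    intro t' ht' hmem
    have := hT s t' hmem
    rw [abs_lt] at this
    linarith [this.2]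
  have hAsub : ((fun v => pushM E T (0, v)) '' H.Wp) ⊆ Rp E L := by
    rintro _ ⟨v, hv, rfl⟩
    show pushM E T (0, v) ∈ _
    by_cases hr : v ∈ range E.e
    · obtain ⟨⟨s, t⟩, rfl⟩ := hr
      rw [pushM_e]
      exact htop s _ (le_max_right _ _)
    · rw [pushM_out E T 0 v hr]
      exact Or.inl ⟨hv, hr⟩
  obtain ⟨v₀, hv₀⟩ := (Wp_conn H).nonempty
  refine isPreconnected_of_forall (pushM E T (0, v₀)) ?_
  intro y hy
  rcases hy with ⟨h1, h2⟩ | ⟨s, t, rfl, h⟩
  · exact ⟨_, hAsub, ⟨v₀, hv₀, rfl⟩, hA1 y h1 h2, hAc⟩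
  · refine ⟨((fun v => pushM E T (0, v)) '' H.Wp) ∪ ((fun t' => E.e (s, t')) '' Ici t), ?_,
      Or.inl ⟨v₀, hv₀, rfl⟩, Or.inr ⟨t, self_mem_Ici, rfl⟩, ?_⟩
    · apply union_subset hAsub
      rintro _ ⟨t', ht', rfl⟩
      refine (Rp_iff E L s t').1 ?_
      intro t'' ht''
      exact h t'' (le_trans ht' ht'')
    · refine IsPreconnected.union (E.e (s, max t T)) (hA2 s _ (le_max_right _ _))
        ⟨max t T, mem_Ici.2 (le_max_left _ _), rfl⟩ hAc ?_
      refine isPreconnected_Ici.image _ ?_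
      have : Continuous fun t' : ℝ => E.e (s, t') := E.emb.continuous.comp (by fun_prop)
      exact this.continuousOn

theorem WR_open {g : ℕ} {H : Heegaard g} (E : Collar H) :
    IsOpen {v : S3 | v ∈ H.Wp ∨ v ∈ range E.e} := by
  have h : {v : S3 | v ∈ H.Wp ∨ v ∈ range E.e} = (H.Wm ∩ (range E.e)ᶜ)ᶜ := by
    ext v
    simp only [mem_setOf_eq, mem_compl_iff, mem_inter_iff, not_and, not_not]
    constructor
    · rintro (h | h) hm
      · apply Sig_range E
        rw [← H.inter]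
        exact ⟨h, hm⟩
      · exact h
    · intro h
      by_cases hm : v ∈ H.Wm
      · exact Or.inr (h hm)
      · exact Or.inl (Wp_of_notWm H hm)
  rw [h]
  exact ((Wm_compact H).isClosed.inter E.emb.isOpen_range.isClosed_compl).isOpen_compl

theorem Rp_facts {g n : ℕ} {P : WMap n} {H : Heegaard g} (E : Collar H) (hL : P.L ⊆ range E.e) :
    IsOpen (Rp E P.L) ∧ IsPreconnected (Rp E P.L) ∧
    IsOpen {v : S3 | v ∈ H.Wp ∨ v ∈ range E.e} ∧
    (∀ s t, (∀ t', t ≤ t' → E.e (s, t') ∉ P.L) ↔ E.e (s, t) ∈ Rp E P.L) ∧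
    (∀ v ∈ Rp E P.L, ∀ i : Fin n, P.κ v ≠ (0, (i : ℝ))) := by
  refine ⟨Rp_open E _ (Lset_closed P) hL, Rp_preconn E _ (Lset_closed P) hL, WR_open E,
    Rp_iff E _, ?_⟩
  intro v hv i hi
  have hvL : v ∈ P.L := ⟨i, hi⟩
  obtain ⟨⟨s, t⟩, rfl⟩ := hL hvL
  exact (Rp_iff E _ s t).2 hv t le_rfl hvL

end X_Rp_facts

alias Rp_facts := X_Rp_facts.Rp_facts

end AG

end AltGenus
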