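import Pool.Agent.H99.AG.Base
import Pool.Graph.R_seed8.AltGenus.P_dconn
import Pool.Graph.R_seed8.AltGenus.P_sig_facts
import Pool.Graph.R_seed8.AltGenus.P_proj_closed
import Pool.Graph.R_seed8.AltGenus.P_under_lim
import Pool.Graph.R_seed8.AltGenus.P_count
import Pool.Graph.R_seed8.AltGenus.P_propagate

open Set Topology Filter

namespace AltGenus

namespace AG

namespace X_W_const
theorem W_const {g n m : ℕ} {P : WMap n} {H : Heegaard g} (E : Collar H) (K : Link m)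
    (hK : K.carrier = P.L) (D : Diagram E P.L) (hA : Alternating E K)
    (hC : Cellular E P.L) (hn : 0 < n) (W : S3 → ℝ)
    (hW2 : ∀ q ∈ P.L, ¬ E.Under P.L q → ∀ᶠ q' in 𝓝[P.L] q, W q' = W q)
    (hcr : ∀ (χ : ℝ × ℝ → H.Sig) (h₁ h₂ : ℝ → ℝ), IsOpenEmbedding χ → Continuous h₁ →
      Continuous h₂ → h₂ 0 < h₁ 0 →
      (∀ x y t, E.e (χ (x, y), t) ∈ P.L ↔ (y = 0 ∧ t = h₁ x) ∨ (x = 0 ∧ t = h₂ y)) →
      ∃ x₁ x₂ : ℝ, W (E.e (χ (0, 0), h₁ 0)) = ((x₁ + x₂) / 2) ^ 2 ∧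
        (∀ y, 0 < y → W (E.e (χ (0, y), h₂ y)) = x₁ ^ 2) ∧
        (∀ y, y < 0 → W (E.e (χ (0, y), h₂ y)) = x₂ ^ 2)) :
    ∀ q ∈ P.L, ∀ q' ∈ P.L, ¬ E.Under P.L q → ¬ E.Under P.L q' → W q = W q' := by
  classical
  intro q₀ hq₀
  have hLc : IsClosed P.L := by
    have hk : Continuous P.κ := P.cont
    have : P.L = ⋃ i : Fin n, P.κ ⁻¹' {((0 : ℝ), ((i : ℕ) : ℝ))} := by
      ext v; simp [WMap.L]
    rw [this]
    exact isClosed_iUnion_of_finite (fun i => isClosed_singleton.preimage hk)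
  have hinj : Function.Injective E.e := E.emb.injective
  have hkey : ∀ s ∈ D.cross, ∃ (χ : ℝ × ℝ → H.Sig) (h₁ h₂ : ℝ → ℝ) (x₁ x₂ : ℝ),
      IsOpenEmbedding χ ∧ Continuous h₁ ∧ Continuous h₂ ∧ χ (0, 0) = s ∧ h₂ 0 < h₁ 0 ∧
      (∀ x y t, E.e (χ (x, y), t) ∈ P.L ↔ (y = 0 ∧ t = h₁ x) ∨ (x = 0 ∧ t = h₂ y)) ∧
      W (E.e (χ (0, 0), h₁ 0)) = ((x₁ + x₂) / 2) ^ 2 ∧
        (∀ y, 0 < y → W (E.e (χ (0, y), h₂ y)) = x₁ ^ 2) ∧
        (∀ y, y < 0 → W (E.e (χ (0, y), h₂ y)) = x₂ ^ 2) := by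
    intro s hs
    obtain ⟨χ, h₁, h₂, a1, a2, a3, a4, a5, a6⟩ := D.crs s hs
    obtain ⟨x₁, x₂, b1, b2, b3⟩ := hcr χ h₁ h₂ a1 a2 a3 a5 a6
    exact ⟨χ, h₁, h₂, x₁, x₂, a1, a2, a3, a4, a5, a6, b1, b2, b3⟩
  choose χ h₁ h₂ x₁ x₂ p1 p2 p3 p4 p5 p6 p7 p8 p9 using hkey
  have hts : ∀ s (hs : s ∈ D.cross) τ, E.e (s, τ) ∈ P.L ↔ τ = h₁ s hs 0 ∨ τ = h₂ s hs 0 := by
    intro s hs τ
    have := p6 s hs 0 0 τ
    rw [p4] at this
    simpa using this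
  have hcross : ∀ s t t', t < t' → E.e (s, t) ∈ P.L → E.e (s, t') ∈ P.L →
      ∃ hs : s ∈ D.cross, t = h₂ s hs 0 ∧ t' = h₁ s hs 0 := by
    intro s t t' htt h1 h2
    have hs : s ∈ D.cross := by
      by_contra hs
      obtain ⟨χ', h, a1, a2, a3, a4⟩ := D.reg s ⟨t, h1⟩ hs
      have e1 := a4 0 0 t
      have e2 := a4 0 0 t'
      rw [a3] at e1 e2
      have e3 := (e1.1 h1).2
      have e4 := (e2.1 h2).2
      rw [e3, e4] at htt
      exact lt_irrefl _ htt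
    refine ⟨hs, ?_⟩
    have h3 := p5 s hs
    rcases (hts s hs t).1 h1 with e1 | e1 <;> rcases (hts s hs t').1 h2 with e2 | e2
    · rw [e1, e2] at htt; exact absurd htt (lt_irrefl _)
    · rw [e1, e2] at htt; exact absurd (htt.trans h3) (lt_irrefl _)
    · exact ⟨e1, e2⟩
    · rw [e1, e2] at htt; exact absurd htt (lt_irrefl _)
  set A : H.Sig → ℝ := fun s => if hs : s ∈ D.cross then (x₁ s hs) ^ 2 + (x₂ s hs) ^ 2 else 0
    with hAdef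
  set B : H.Sig → ℝ := fun s => if hs : s ∈ D.cross then ((x₁ s hs + x₂ s hs) / 2) ^ 2 else 0
    with hBdef
  have hAs : ∀ s (hs : s ∈ D.cross), A s = (x₁ s hs) ^ 2 + (x₂ s hs) ^ 2 := by
    intro s hs
    simp only [hAdef, dif_pos hs]
  have hBs : ∀ s (hs : s ∈ D.cross), B s = ((x₁ s hs + x₂ s hs) / 2) ^ 2 := by
    intro s hs
    simp only [hBdef, dif_pos hs]
  have hunder : ∀ i t s τ, K.γ i t = E.e (s, τ) → E.Under P.L (K.γ i t) →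
      ∃ vm vp : ℝ, (∀ᶠ u in 𝓝[<] t, W (K.γ i u) = vm) ∧ (∀ᶠ u in 𝓝[>] t, W (K.γ i u) = vp) ∧
        vm + vp = A s := by
    intro i t s τ he hU
    obtain ⟨hvL, s', τ', t', he', hlt, ht'⟩ := hU
    have h1 : (s, τ) = (s', τ') := hinj (he.symm.trans he')
    obtain ⟨rfl, rfl⟩ := Prod.mk.inj h1
    rw [he] at hvL
    obtain ⟨hs, e1, e2⟩ := hcross s τ t' hlt hvL ht'
    have ht : K.γ i t = E.e (χ s hs (0, 0), h₂ s hs 0) := by
      rw [he, p4, e1]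
    rcases under_lim K P.L hK (χ s hs) (h₁ s hs) (h₂ s hs) (p1 s hs) (p2 s hs) (p3 s hs)
      (p5 s hs) (p6 s hs) i t ht with ⟨a, b⟩ | ⟨a, b⟩
    · refine ⟨(x₁ s hs) ^ 2, (x₂ s hs) ^ 2, ?_, ?_, (hAs s hs).symm⟩
      · filter_upwards [a] with u hu
        obtain ⟨y, hy, hy2⟩ := hu
        rw [hy2, p8 s hs y hy]
      · filter_upwards [b] with u hu
        obtain ⟨y, hy, hy2⟩ := hu
        rw [hy2, p9 s hs y hy]
    · refine ⟨(x₂ s hs) ^ 2, (x₁ s hs) ^ 2, ?_, ?_, by rw [hAs s hs]; ring⟩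
      · filter_upwards [a] with u hu
        obtain ⟨y, hy, hy2⟩ := hu
        rw [hy2, p9 s hs y hy]
      · filter_upwards [b] with u hu
        obtain ⟨y, hy, hy2⟩ := hu
        rw [hy2, p8 s hs y hy]
  have hover : ∀ i t s τ, K.γ i t = E.e (s, τ) → E.Over P.L (K.γ i t) →
      W (K.γ i t) = B s := by
    intro i t s τ he hO
    obtain ⟨hvL, s', τ', t', he', hlt, ht'⟩ := hO
    have h1 : (s, τ) = (s', τ') := hinj (he.symm.trans he')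
    obtain ⟨rfl, rfl⟩ := Prod.mk.inj h1
    rw [he] at hvL
    obtain ⟨hs, e1, e2⟩ := hcross s t' τ hlt ht' hvL
    rw [he, hBs s hs, ← p7 s hs, p4, e2]
  have hle : ∀ s ∈ D.cross, 2 * B s ≤ A s := by
    intro s hs
    rw [hAs s hs, hBs s hs]
    nlinarith [sq_nonneg (x₁ s hs - x₂ s hs)]
  have hcount := count K P.L hK D hA W hW2 A B hunder hover hle
  have hxx : ∀ s (hs : s ∈ D.cross), x₁ s hs = x₂ s hs := by
    intro s hs
    have h1 := hcount s hs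
    rw [hAs s hs, hBs s hs] at h1
    have h2 : (x₁ s hs - x₂ s hs) ^ 2 = 0 := by nlinarith
    have h3 := pow_eq_zero_iff (two_ne_zero) |>.1 h2
    linarith
  have hconn : IsPreconnected (E.proj P.L) := by
    obtain ⟨c1, c2, c3⟩ := sig_facts E
    refine dconn (E.proj P.L) (proj_closed E P.L hLc D.sub) ?_ hC
    obtain ⟨⟨s, t⟩, hst⟩ := D.sub hq₀
    exact ⟨s, t, by rw [hst]; exact hq₀⟩
  refine propagate E P.L hLc D hconn W hW2 ?_ q₀ hq₀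
  intro s t t' htt h1 h2
  obtain ⟨hs, e1, e2⟩ := hcross s t t' htt h1 h2
  -- the open embedding
  have hΘ : IsOpenEmbedding (fun v : (ℝ × ℝ) × ℝ => E.e (χ s hs v.1, v.2)) :=
    E.emb.comp ((p1 s hs).prodMap IsOpenEmbedding.id)
  have hO : IsOpen {v : (ℝ × ℝ) × ℝ | v.2 < h₁ s hs v.1.1} := by
    have := p2 s hs
    exact isOpen_lt (by fun_prop) (by fun_prop)
  have hI := hΘ.isOpenMap _ hO
  have hmem : E.e (s, t) ∈ (fun v : (ℝ × ℝ) × ℝ => E.e (χ s hs v.1, v.2)) ''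
      {v : (ℝ × ℝ) × ℝ | v.2 < h₁ s hs v.1.1} := by
    refine ⟨((0, 0), t), ?_, ?_⟩
    · show t < h₁ s hs 0
      rw [e1]
      exact p5 s hs
    · show E.e (χ s hs (0, 0), t) = E.e (s, t)
      rw [p4]
  have hnh := hI.mem_nhds hmem
  have hnh2 : ∀ᶠ q' in 𝓝[P.L \ {E.e (s, t)}] (E.e (s, t)),
      q' ∈ (fun v : (ℝ × ℝ) × ℝ => E.e (χ s hs v.1, v.2)) ''
      {v : (ℝ × ℝ) × ℝ | v.2 < h₁ s hs v.1.1} := mem_nhdsWithin_of_mem_nhds hnh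
  filter_upwards [hnh2, self_mem_nhdsWithin] with q' hq1 hq2
  obtain ⟨⟨⟨x, y⟩, τ⟩, hv, rfl⟩ := hq1
  have hv' : τ < h₁ s hs x := hv
  have h3 := (p6 s hs x y τ).1 hq2.1
  rcases h3 with ⟨-, h3⟩ | ⟨h3, h4⟩
  · exact absurd (h3 ▸ hv') (lt_irrefl _)
  · have hW : W (E.e (s, t')) = (x₁ s hs) ^ 2 := by
      have h5 := p7 s hs
      rw [p4, ← e2, ← hxx s hs] at h5
      rw [h5]
      ring
    rw [hW]
    have hy : y ≠ 0 := by
      intro hy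
      apply hq2.2
      show E.e (χ s hs (x, y), τ) = E.e (s, t)
      rw [h4, h3, hy, p4, ← e1]
    show W (E.e (χ s hs (x, y), τ)) = (x₁ s hs) ^ 2
    rw [h4, h3]
    rcases lt_or_gt_of_ne hy with hy | hy
    · rw [p9 s hs y hy, hxx s hs]
    · rw [p8 s hs y hy]

end X_W_const

alias W_const := X_W_const.W_const

end AG

end AltGenus
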