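import Pool.Agent.H99.AG.Base

open Set Topology Filter

namespace AltGenus

namespace AG

namespace X_component_top
theorem component_top {g n m : ℕ} {P : WMap n} {H : Heegaard g} (E : Collar H) (K : Link m)
    (D : Diagram E P.L) (i : Fin m) (j : Fin n)
    (hk : ∀ t, P.κ (K.γ i t) = (0, (j : ℝ))) :
    ∃ q : S3, P.κ q = (0, (j : ℝ)) ∧ ¬ E.Under P.L q := by
  have hmem : ∀ t, K.γ i t ∈ P.L := fun t => ⟨j, hk t⟩
  have hfin : ∀ s ∈ D.cross, {t : ℝ | E.e (s, t) ∈ P.L}.Finite := by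
    intro s hs
    obtain ⟨χ, h₁, h₂, _, _, _, hχ, _, h⟩ := D.crs s hs
    refine (Set.toFinite {h₁ 0, h₂ 0}).subset ?_
    intro t ht
    have h3 := (h 0 0 t).1 (by rw [hχ]; exact ht)
    rcases h3 with h3 | h3
    · exact Or.inl h3.2
    · exact Or.inr h3.2
  have hP : {p : H.Sig × ℝ | p.1 ∈ D.cross ∧ E.e p ∈ P.L}.Finite := by
    have h1 : (⋃ s ∈ D.cross, (fun t : ℝ => ((s, t) : H.Sig × ℝ)) ''
        {t : ℝ | E.e (s, t) ∈ P.L}).Finite :=
      D.fin.biUnion (fun s hs => (hfin s hs).image _)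
    refine h1.subset ?_
    rintro ⟨s, t⟩ ⟨hs, ht⟩
    exact Set.mem_biUnion hs ⟨t, ht, rfl⟩
  have hinf : (K.γ i '' (Set.Ico (0:ℝ) 1)).Infinite := by
    refine (Set.Ico_infinite (by norm_num : (0:ℝ) < 1)).image ?_
    intro a ha b hb hab
    obtain ⟨_, m, hm⟩ := K.inj i i a b hab
    have h1 : (m : ℝ) < 1 := by
      have := ha.2; have := hb.1; linarith
    have h2 : (-1 : ℝ) < m := by
      have := ha.1; have := hb.2; linarith
    have h3 : m < 1 := by exact_mod_cast h1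
    have h4 : -1 < m := by exact_mod_cast h2
    have h5 : m = 0 := by omega
    rw [h5] at hm
    simpa using hm
  have hne : ∃ q ∈ K.γ i '' (Set.Ico (0:ℝ) 1),
      q ∉ E.e '' {p : H.Sig × ℝ | p.1 ∈ D.cross ∧ E.e p ∈ P.L} := by
    by_contra hcon
    push Not at hcon
    exact hinf ((hP.image E.e).subset hcon)
  obtain ⟨q, ⟨t, _, rfl⟩, hq⟩ := hne
  refine ⟨K.γ i t, hk t, ?_⟩
  obtain ⟨⟨s, τ⟩, hsτ⟩ := D.sub (hmem t)
  have hLs : E.e (s, τ) ∈ P.L := by rw [hsτ]; exact hmem t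
  have hs : s ∉ D.cross := fun hs => hq ⟨(s, τ), ⟨hs, hLs⟩, hsτ⟩
  obtain ⟨χ, h, _, _, hχ, hh⟩ := D.reg s ⟨τ, hLs⟩ hs
  have huniq : ∀ t', E.e (s, t') ∈ P.L → t' = h 0 := by
    intro t' ht'
    exact ((hh 0 0 t').1 (by rw [hχ]; exact ht')).2
  rintro ⟨_, s', t1, t2, h1, h2, h3⟩
  rw [← hsτ] at h1
  have h4 := E.emb.injective h1
  rw [Prod.mk.injEq] at h4
  obtain ⟨h5, h6⟩ := h4
  subst h5
  subst h6
  have h7 := huniq _ hLs
  have h8 := huniq _ h3
  linarith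

end X_component_top

alias component_top := X_component_top.component_top

end AG

end AltGenus
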