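import Pool.Agent.H99.AG.Base
import Pool.Graph.R_seed8.AltGenus.P_vert_contractible
import Pool.Agent.H99.AG.G_Rp_facts
import Pool.Graph.R_seed8.AltGenus.P_chart_facts

open Set Topology Filter

namespace AltGenus

namespace AG

namespace X_near_top

theorem kap_cont {n : ℕ} (P : WMap n) : Continuous P.κ := P.cont

theorem near_top_aux {g n : ℕ} {P : WMap n} {H : Heegaard g} (E : Collar H)
    (θ : ℝ × ℝ × ℝ → S3) (hθ : IsOpenEmbedding θ) (h : ℝ → ℝ) (hc : Continuous h)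
    (r₀ : ℝ) (hr₀ : 0 < r₀) (i : Fin n) (hq : P.κ (θ (0, 0, h 0)) = (0, (i : ℝ)))
    (ha : ∀ x y t, |x| < r₀ → |y| < r₀ → |t - h 0| < r₀ →
      (θ (x, y, t) ∈ Rp E P.L ↔ (y = 0 → h x < t)))
    (hb : ∀ x y t, |x| < r₀ → |y| < r₀ → |t - h 0| < r₀ → θ (x, y, t) ∈ P.L →
      ¬ E.Under P.L (θ (x, y, t))) :
    ∃ U : Set S3, IsOpen U ∧ θ (0, 0, h 0) ∈ U ∧ IsPreconnected (U ∩ Rp E P.L) ∧
      (∀ v ∈ U, |(P.κ v).2 - (i : ℝ)| < 1 / 2) ∧
      (∀ q' ∈ P.L ∩ U, ¬ E.Under P.L q' ∧ P.κ q' = (0, (i : ℝ))) := by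
  -- the radius
  have hcont : Continuous (fun v : ℝ × ℝ × ℝ => |(P.κ (θ v)).2 - (i : ℝ)|) :=
    ((continuous_snd.comp ((kap_cont P).comp hθ.continuous)).sub continuous_const).abs
  have hopen : IsOpen {v : ℝ × ℝ × ℝ | |(P.κ (θ v)).2 - (i : ℝ)| < 1 / 2} :=
    isOpen_lt hcont continuous_const
  have hmem : ((0, 0, h 0) : ℝ × ℝ × ℝ) ∈ {v : ℝ × ℝ × ℝ | |(P.κ (θ v)).2 - (i : ℝ)| < 1 / 2} := by
    simp only [mem_setOf_eq]
    rw [hq]
    norm_num
  obtain ⟨r₁, hr₁, hball⟩ := Metric.isOpen_iff.1 hopen _ hmem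
  have hball' : ∀ x y t : ℝ, |x| < r₁ → |y| < r₁ → |t - h 0| < r₁ →
      |(P.κ (θ (x, y, t))).2 - (i : ℝ)| < 1 / 2 := by
    intro x y t hx hy ht
    apply hball
    rw [Metric.mem_ball, Prod.dist_eq, Prod.dist_eq]
    simp only [Real.dist_eq, sub_zero]
    exact max_lt hx (max_lt hy ht)
  obtain ⟨r, hr, hrr₀, hrr₁⟩ : ∃ r : ℝ, 0 < r ∧ r ≤ r₀ ∧ r ≤ r₁ :=
    ⟨min r₀ r₁, lt_min hr₀ hr₁, min_le_left _ _, min_le_right _ _⟩
  obtain ⟨r₂, hr₂, hh⟩ := Metric.continuousAt_iff.1 (hc.continuousAt (x := 0)) (r / 2) (by linarith)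
  obtain ⟨r', hr', hr'r, hr'r₂⟩ : ∃ r' : ℝ, 0 < r' ∧ r' ≤ r ∧ r' ≤ r₂ :=
    ⟨min r r₂, lt_min hr hr₂, min_le_left _ _, min_le_right _ _⟩
  have hhx : ∀ x : ℝ, |x| < r' → |h x - h 0| < r / 2 := by
    intro x hx
    have := hh (x := x) (by rw [Real.dist_eq, sub_zero]; linarith)
    rwa [Real.dist_eq] at this
  -- the box
  let B : Set (ℝ × ℝ × ℝ) := {v | |v.1| < r' ∧ |v.2.1| < r' ∧ |v.2.2 - h 0| < r}
  have hBo : IsOpen B := by
    have o1 : IsOpen {v : ℝ × ℝ × ℝ | |v.1| < r'} := isOpen_lt (by fun_prop) continuous_const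
    have o2 : IsOpen {v : ℝ × ℝ × ℝ | |v.2.1| < r'} := isOpen_lt (by fun_prop) continuous_const
    have o3 : IsOpen {v : ℝ × ℝ × ℝ | |v.2.2 - h 0| < r} := isOpen_lt (by fun_prop) continuous_const
    exact o1.inter (o2.inter o3)
  let R : Set (ℝ × ℝ × ℝ) := {v | v ∈ B ∧ (v.2.1 = 0 → h v.1 < v.2.2)}
  have hUR : (θ '' B) ∩ Rp E P.L = θ '' R := by
    ext q'
    constructor
    · rintro ⟨⟨⟨x, y, t⟩, hv, rfl⟩, hq'⟩
      refine ⟨(x, y, t), ⟨hv, ?_⟩, rfl⟩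
      obtain ⟨h1, h2, h3⟩ := hv
      exact (ha x y t (by simp only at h1; linarith) (by simp only at h2; linarith)
        (by simp only at h3; linarith)).1 hq'
    · rintro ⟨⟨x, y, t⟩, ⟨hv, hv2⟩, rfl⟩
      refine ⟨⟨(x, y, t), hv, rfl⟩, ?_⟩
      obtain ⟨h1, h2, h3⟩ := hv
      exact (ha x y t (by simp only at h1; linarith) (by simp only at h2; linarith)
        (by simp only at h3; linarith)).2 hv2
  have hRc : ContractibleSpace R := by
    refine vert_contractible {w : ℝ × ℝ | |w.1| < r' ∧ |w.2| < r'} ?_ ⟨(0, 0), by simpa using hr'⟩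
      (fun _ => h 0 + r / 2) continuousOn_const R ?_ ?_ ?_
    · have e1 : {w : ℝ × ℝ | |w.1| < r' ∧ |w.2| < r'} = Ioo (-r') r' ×ˢ Ioo (-r') r' := by
        ext w
        simp only [mem_setOf_eq, mem_prod, mem_Ioo, abs_lt]
      rw [e1]
      exact (convex_Ioo _ _).prod (convex_Ioo _ _)
    · rintro x y t ⟨⟨h1, h2, h3⟩, h4⟩
      exact ⟨h1, h2⟩
    · rintro x y ⟨h1, h2⟩
      have h5 := abs_lt.1 (hhx x h1)
      refine ⟨⟨h1, h2, ?_⟩, ?_⟩
      · show |h 0 + r / 2 - h 0| < r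
        rw [abs_lt]; constructor <;> linarith
      · intro _
        show h x < h 0 + r / 2
        linarith [h5.2]
    · rintro x y t s ⟨⟨h1, h2, h3⟩, h4⟩ hs
      have h5 := abs_lt.1 (hhx x h1)
      have h3' := abs_lt.1 h3
      simp only at h1 h2 h3 h4 h3' h5 hs
      rw [mem_uIcc] at hs
      refine ⟨⟨h1, h2, ?_⟩, ?_⟩
      · show |s - h 0| < r
        rw [abs_lt]
        rcases hs with ⟨h6, h7⟩ | ⟨h6, h7⟩ <;> constructor <;> linarith [h3'.1, h3'.2]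
      · intro hy
        show h x < s
        have h8 := h4 hy
        rcases hs with ⟨h6, h7⟩ | ⟨h6, h7⟩ <;> linarith [h5.2]
  have hRp : IsPreconnected R := by
    haveI := hRc
    haveI : PathConnectedSpace R := inferInstance
    exact isPreconnected_iff_preconnectedSpace.2 inferInstance
  refine ⟨θ '' B, hθ.isOpenMap B hBo, ⟨(0, 0, h 0), ?_, rfl⟩, ?_, ?_, ?_⟩
  · exact ⟨by simpa using hr', by simpa using hr', by simpa using hr⟩
  · rw [hUR]
    exact hRp.image θ hθ.continuous.continuousOn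
  · rintro _ ⟨⟨x, y, t⟩, ⟨h1, h2, h3⟩, rfl⟩
    simp only at h1 h2 h3
    exact hball' x y t (by linarith) (by linarith) (by linarith)
  · rintro q' ⟨hq', ⟨x, y, t⟩, ⟨h1, h2, h3⟩, rfl⟩
    simp only at h1 h2 h3
    refine ⟨hb x y t (by linarith) (by linarith) (by linarith) hq', ?_⟩
    obtain ⟨j, hj⟩ := hq'
    have h5 := hball' x y t (by linarith) (by linarith) (by linarith)
    rw [hj] at h5 ⊢
    have h6 : |(((j : ℕ) : ℤ) - ((i : ℕ) : ℤ))| < 1 := by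
      have h7 : |((j : ℕ) : ℝ) - ((i : ℕ) : ℝ)| < 1 := by
        simp only at h5
        linarith
      exact_mod_cast h7
    rw [Int.abs_lt_one_iff] at h6
    have h8 : j = i := by
      apply Fin.ext
      omega
    rw [h8]

theorem near_top {g n : ℕ} {P : WMap n} {H : Heegaard g} (E : Collar H) (D : Diagram E P.L)
    (i : Fin n) (q : S3) (hq : P.κ q = (0, (i : ℝ))) (htop : ¬ E.Under P.L q) :
    ∃ U : Set S3, IsOpen U ∧ q ∈ U ∧ IsPreconnected (U ∩ Rp E P.L) ∧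
      (∀ v ∈ U, |(P.κ v).2 - (i : ℝ)| < 1 / 2) ∧
      (∀ q' ∈ P.L ∩ U, ¬ E.Under P.L q' ∧ P.κ q' = (0, (i : ℝ))) := by
  have hqL : q ∈ P.L := ⟨i, hq⟩
  obtain ⟨⟨s, τ⟩, hsτ⟩ := D.sub hqL
  have hinj : ∀ (s s' : H.Sig) (t t' : ℝ), E.e (s, t) = E.e (s', t') → s = s' ∧ t = t' := by
    intro s s' t t' hh
    have := E.emb.injective hh
    exact Prod.mk.inj this
  by_cases hs : s ∈ D.cross
  · obtain ⟨χ, h₁, h₂, hχ, hc1, hc2, h00, h21, hL⟩ := D.crs s hs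
    obtain ⟨hθ, _, hcr, _⟩ := chart_facts E P.L χ hχ
    have hup := hcr h₁ h₂ h21 hL
    have hτ : τ = h₁ 0 := by
      have h1 : E.e (χ (0, 0), τ) ∈ P.L := by rw [h00, hsτ]; exact hqL
      rcases (hL 0 0 τ).1 h1 with ⟨_, h2⟩ | ⟨_, h2⟩
      · exact h2
      · exfalso
        apply htop
        refine ⟨hqL, s, τ, h₁ 0, hsτ.symm, by rw [h2]; exact h21, ?_⟩
        rw [← h00]
        exact (hL 0 0 (h₁ 0)).2 (Or.inl ⟨rfl, rfl⟩)
    have hqθ : q = E.e (χ (0, 0), h₁ 0) := by rw [h00, ← hτ, hsτ]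
    -- radius
    obtain ⟨r₂, hr₂, hh2⟩ := Metric.continuousAt_iff.1 (hc2.continuousAt (x := 0))
      ((h₁ 0 - h₂ 0) / 2) (by linarith)
    obtain ⟨r₀, hr₀, h01, h02⟩ : ∃ r : ℝ, 0 < r ∧ r ≤ r₂ ∧ r ≤ (h₁ 0 - h₂ 0) / 2 :=
      ⟨min r₂ ((h₁ 0 - h₂ 0) / 2), lt_min hr₂ (by linarith), min_le_left _ _, min_le_right _ _⟩
    have hlow : ∀ y t : ℝ, |y| < r₀ → |t - h₁ 0| < r₀ → h₂ y < t := by
      intro y t hy ht
      have h1 := hh2 (x := y) (by rw [Real.dist_eq, sub_zero]; linarith)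
      rw [Real.dist_eq] at h1
      have h3 := abs_lt.1 h1
      have h4 := abs_lt.1 ht
      linarith [h3.2, h4.1]
    have key := near_top_aux E (fun v : ℝ × ℝ × ℝ => E.e (χ (v.1, v.2.1), v.2.2)) hθ h₁ hc1 r₀ hr₀ i
      (by simp only; rw [← hqθ]; exact hq) ?_ ?_
    · simp only at key
      rw [← hqθ] at key
      exact key
    · intro x y t hx hy ht
      have h1 := hup (x, y, t)
      simp only at h1
      simp only
      rw [h1]
      constructor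
      · intro h2; exact h2.1
      · intro h2; exact ⟨h2, fun _ => hlow y t hy ht⟩
    · intro x y t hx hy ht hmem hU
      simp only at hmem hU
      obtain ⟨_, s', t1, t2, he, hlt, hm2⟩ := hU
      obtain ⟨rfl, rfl⟩ := hinj _ _ _ _ he
      rcases (hL x y t).1 hmem with ⟨hy0, ht0⟩ | ⟨hx0, ht0⟩
      · rcases (hL x y t2).1 hm2 with ⟨_, h5⟩ | ⟨h6, h5⟩
        · linarith
        · rw [hy0] at h5
          rw [h6] at ht0
          linarith
      · have := hlow y t hy ht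
        linarith
  · obtain ⟨χ, h, hχ, hc, h00, hL⟩ := D.reg s ⟨τ, by rw [hsτ]; exact hqL⟩ hs
    obtain ⟨hθ, _, _, hrg⟩ := chart_facts E P.L χ hχ
    have hup := hrg h hL
    have hτ : τ = h 0 := by
      have h1 : E.e (χ (0, 0), τ) ∈ P.L := by rw [h00, hsτ]; exact hqL
      exact ((hL 0 0 τ).1 h1).2
    have hqθ : q = E.e (χ (0, 0), h 0) := by rw [h00, ← hτ, hsτ]
    have key := near_top_aux E (fun v : ℝ × ℝ × ℝ => E.e (χ (v.1, v.2.1), v.2.2)) hθ h hc 1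
      one_pos i (by simp only; rw [← hqθ]; exact hq) ?_ ?_
    · simp only at key
      rw [← hqθ] at key
      exact key
    · intro x y t hx hy ht
      have h1 := hup (x, y, t)
      simp only at h1
      simp only
      rw [h1]
      constructor
      · intro h2; exact h2.2
      · intro h2; exact ⟨mem_univ _, h2⟩
    · intro x y t hx hy ht hmem hU
      simp only at hmem hU
      obtain ⟨_, s', t1, t2, he, hlt, hm2⟩ := hU
      obtain ⟨rfl, rfl⟩ := hinj _ _ _ _ he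
      have h5 := ((hL x y t).1 hmem).2
      have h6 := ((hL x y t2).1 hm2).2
      linarith

end X_near_top

alias near_top := X_near_top.near_top

end AG

end AltGenus
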