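import Pool.Agent.H99.AG.Base
import Pool.Graph.R_seed8.AltGenus.P_low_ext
import Pool.Graph.R_seed8.AltGenus.P_mid_ext
import Pool.Graph.R_seed8.AltGenus.P_reg_ext
import Pool.Graph.R_seed8.AltGenus.P_flat_extend
import Pool.Graph.R_seed8.AltGenus.P_flat_image
import Pool.Graph.R_seed8.AltGenus.P_chart_facts
import Pool.Agent.H99.AG.G_Rp_facts

open Set Topology Filter

namespace AltGenus

namespace AG

namespace X_ext_below
theorem kap_cont_aux {n : ℕ} (P : WMap n) : Continuous P.κ := P.cont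

theorem Lset_closed_aux {n : ℕ} (P : WMap n) : IsClosed P.L := by
  have : P.L = ⋃ i : Fin n, P.κ ⁻¹' {((0 : ℝ), ((i : ℕ) : ℝ))} := by
    ext v
    simp [WMap.L]
  rw [this]
  exact isClosed_iUnion_of_finite fun i => isClosed_singleton.preimage (kap_cont_aux P)

theorem dj_open_aux (h : ℝ → ℝ) (hh : Continuous h) : IsOpen (DJ univ h) := by
  have : DJ univ h = {v : ℝ × ℝ × ℝ | v.2.1 ≠ 0} ∪ {v : ℝ × ℝ × ℝ | v.2.2 < h v.1} := by
    ext v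
    simp only [DJ, mem_univ, true_and, mem_union, mem_ofPred_eq]
    tauto
  rw [this]
  apply IsOpen.union
  · exact isOpen_ne_fun (by fun_prop) (by fun_prop)
  · exact isOpen_lt (by fun_prop) (by fun_prop)

theorem low_open_aux (h₁ h₂ : ℝ → ℝ) (hc₁ : Continuous h₁) (hc₂ : Continuous h₂) :
    IsOpen (LowR h₁ h₂) := by
  have : LowR h₁ h₂ = ({v : ℝ × ℝ × ℝ | v.2.1 ≠ 0} ∪ {v : ℝ × ℝ × ℝ | v.2.2 < h₁ v.1}) ∩
      ({v : ℝ × ℝ × ℝ | v.1 ≠ 0} ∪ {v : ℝ × ℝ × ℝ | v.2.2 < h₂ v.2.1}) := by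
    ext v
    simp only [LowR, mem_inter_iff, mem_union, mem_ofPred_eq]
    tauto
  rw [this]
  apply IsOpen.inter <;> apply IsOpen.union
  · exact isOpen_ne_fun (by fun_prop) (by fun_prop)
  · exact isOpen_lt (by fun_prop) (by fun_prop)
  · exact isOpen_ne_fun (by fun_prop) (by fun_prop)
  · exact isOpen_lt (by fun_prop) (by fun_prop)

theorem mid_open_aux (h₁ h₂ : ℝ → ℝ) (hc₁ : Continuous h₁) (hc₂ : Continuous h₂) :
    IsOpen (MidR h₁ h₂) := by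
  have : MidR h₁ h₂ = ({v : ℝ × ℝ × ℝ | v.2.1 ≠ 0} ∪ {v : ℝ × ℝ × ℝ | v.2.2 < h₁ v.1}) ∩
      ({v : ℝ × ℝ × ℝ | v.1 ≠ 0} ∪ {v : ℝ × ℝ × ℝ | h₂ v.2.1 < v.2.2}) := by
    ext v
    simp only [MidR, mem_inter_iff, mem_union, mem_ofPred_eq]
    tauto
  rw [this]
  apply IsOpen.inter <;> apply IsOpen.union
  · exact isOpen_ne_fun (by fun_prop) (by fun_prop)
  · exact isOpen_lt (by fun_prop) (by fun_prop)
  · exact isOpen_ne_fun (by fun_prop) (by fun_prop)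
  · exact isOpen_lt (by fun_prop) (by fun_prop)

/-- the local extension, from an extension on a region of the chart -/
theorem loc_aux {g n : ℕ} {P : WMap n} {H : Heegaard g} (E : Collar H)
    (a : Fin n → ℝ) (Z : S3 → ℝ)
    (θ : ℝ × ℝ × ℝ → S3) (hθ : IsOpenEmbedding θ) (hr : ∀ v, θ v ∈ range E.e)
    (W U : Set (ℝ × ℝ × ℝ)) (hW : IsOpen W) (hWL : ∀ v ∈ W, θ v ∉ P.L)
    (hU : ∀ v, θ v ∈ Rp E P.L ↔ v ∈ U)
    (G : ℝ × ℝ × ℝ → ℝ) (hG : FlatOn a (P.κ ∘ θ) W G)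
    (hGZ : ∀ v ∈ U ∩ W, G v = (Z ∘ θ) v) (w : ℝ × ℝ × ℝ) (hw : w ∈ W) :
    ∃ (W' : Set S3) (g' : S3 → ℝ), IsOpen W' ∧ θ w ∈ W' ∧
      W' ⊆ {v | (v ∈ H.Wp ∨ v ∈ range E.e) ∧ v ∉ P.L} ∧
      FlatOn a P.κ W' g' ∧ ∀ z ∈ W' ∩ Rp E P.L, g' z = Z z := by
  refine ⟨θ '' W, Function.extend θ G 0, hθ.isOpenMap _ hW, ⟨w, hw, rfl⟩, ?_,
    flat_image a P.κ θ hθ.isEmbedding W G hG, ?_⟩
  · rintro _ ⟨v, hv, rfl⟩
    exact ⟨Or.inr (hr v), hWL v hv⟩
  · rintro _ ⟨⟨v, hv, rfl⟩, hz⟩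
    rw [hθ.injective.extend_apply]
    exact hGZ v ⟨(hU v).1 hz, hv⟩

/-- points over the centre of a chart are limits of points of the top region -/
theorem closure_aux {g n : ℕ} {P : WMap n} {H : Heegaard g} (E : Collar H)
    (θ : ℝ × ℝ × ℝ → S3) (hθ : Continuous θ)
    (hU : ∀ v : ℝ × ℝ × ℝ, v.1 ≠ 0 → v.2.1 ≠ 0 → θ v ∈ Rp E P.L) (t : ℝ) :
    θ (0, 0, t) ∈ closure (Rp E P.L) := by
  have h1 : Tendsto (fun ε : ℝ => θ (ε, ε, t)) (𝓝[≠] (0 : ℝ)) (𝓝 (θ (0, 0, t))) := by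
    have h2 : Continuous (fun ε : ℝ => θ (ε, ε, t)) := hθ.comp (by fun_prop)
    exact (h2.tendsto 0).mono_left nhdsWithin_le_nhds
  apply mem_closure_of_tendsto h1
  filter_upwards [self_mem_nhdsWithin] with ε hε
  exact hU _ hε hε

theorem near_aux {g n : ℕ} {P : WMap n} {H : Heegaard g} (E : Collar H)
    (a : Fin n → ℝ) (Z : S3 → ℝ)
    (hnear : ∀ (i : Fin n) (q : S3), P.κ q = (0, (i : ℝ)) → ¬ E.Under P.L q →
      ∀ᶠ v in 𝓝[Rp E P.L] q, Z v = a i)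
    (θ : ℝ × ℝ × ℝ → S3) (hθ : Continuous θ) (U : Set (ℝ × ℝ × ℝ))
    (hU : ∀ v, θ v ∈ Rp E P.L ↔ v ∈ U) (i : Fin n) (q : ℝ × ℝ × ℝ)
    (hq : P.κ (θ q) = (0, (i : ℝ))) (hnu : ¬ E.Under P.L (θ q)) :
    ∀ᶠ v in 𝓝 q, v ∈ U → (Z ∘ θ) v = a i := by
  have h1 := hnear i (θ q) hq hnu
  rw [eventually_nhdsWithin_iff] at h1
  have h2 := (hθ.tendsto q).eventually h1
  filter_upwards [h2] with v hv hv'
  exact hv ((hU v).2 hv')

theorem ext_below {g n : ℕ} {P : WMap n} {H : Heegaard g} (E : Collar H) (D : Diagram E P.L)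
    (a : Fin n → ℝ) (Z : S3 → ℝ) (hZ : FlatOn a P.κ (Rp E P.L) Z)
    (hnear : ∀ (i : Fin n) (q : S3), P.κ q = (0, (i : ℝ)) → ¬ E.Under P.L q →
      ∀ᶠ v in 𝓝[Rp E P.L] q, Z v = a i) :
    ∃ F : S3 → ℝ, FlatOn a P.κ {v | (v ∈ H.Wp ∨ v ∈ range E.e) ∧ v ∉ P.L} F ∧
      ∀ v ∈ Rp E P.L, F v = Z v := by
  obtain ⟨hRo, _, hOo, hchar, hRk⟩ := Rp_facts E D.sub
  -- structure of the points of `O` outside `Rp`
  have hstr : ∀ v : S3, (v ∈ H.Wp ∨ v ∈ range E.e) → v ∉ P.L → v ∉ Rp E P.L →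
      ∃ s t t', v = E.e (s, t) ∧ t < t' ∧ E.e (s, t') ∈ P.L := by
    intro v hv hvL hvR
    have hre : v ∈ range E.e := by
      by_contra hc
      apply hvR
      left
      exact ⟨hv.resolve_right hc, hc⟩
    obtain ⟨⟨s, t⟩, rfl⟩ := hre
    rw [← hchar s t] at hvR
    push Not at hvR
    obtain ⟨t', ht, ht'⟩ := hvR
    refine ⟨s, t, t', rfl, lt_of_le_of_ne ht ?_, ht'⟩
    rintro rfl
    exact hvL ht'
  apply flat_extend a P.κ _ (Rp E P.L) _ hRo _ _ Z hZ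
  · -- local extensions
    intro v hv hvR
    obtain ⟨s, t, t', rfl, htt', ht'⟩ := hstr v hv.1 hv.2 hvR
    have hs : s ∈ E.proj P.L := ⟨t', ht'⟩
    by_cases hsc : s ∈ D.cross
    · obtain ⟨χ, h₁, h₂, hχ, hc₁, hc₂, h0, h21, hL⟩ := D.crs s hsc
      obtain ⟨hθ, -, hU, -⟩ := chart_facts E P.L χ hχ
      replace hU := hU h₁ h₂ h21 hL
      have hcontθ := hθ.continuous
      -- the facts about `h`
      have hnr : ∀ (i : Fin n) (q : ℝ × ℝ × ℝ),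
          (P.κ ∘ fun v : ℝ × ℝ × ℝ => E.e (χ (v.1, v.2.1), v.2.2)) q = (0, (i : ℝ)) →
          (∀ t, q.2.2 < t → (q.1, q.2.1, t) ∈ UpR h₁ h₂) →
          ∀ᶠ v in 𝓝 q, v ∈ UpR h₁ h₂ →
            (Z ∘ fun v : ℝ × ℝ × ℝ => E.e (χ (v.1, v.2.1), v.2.2)) v = a i := by
        intro i q hq hup
        apply near_aux E a Z hnear _ hcontθ (UpR h₁ h₂) hU i q hq
        rintro ⟨-, s', u, u', hsu, huu, huL⟩
        have h1 := E.emb.injective hsu
        rw [Prod.mk.injEq] at h1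
        obtain ⟨h1, h2⟩ := h1
        rw [← h1, hL] at huL
        have h3 := hup u' (by rw [h2]; exact huu)
        rcases huL with ⟨hy, ht⟩ | ⟨hx, ht⟩
        · have := h3.1 hy
          simp only at this
          linarith
        · have := h3.2 hx
          simp only at this
          linarith
      have hZθ : FlatOn a (P.κ ∘ fun v : ℝ × ℝ × ℝ => E.e (χ (v.1, v.2.1), v.2.2))
          (UpR h₁ h₂) (Z ∘ fun v : ℝ × ℝ × ℝ => E.e (χ (v.1, v.2.1), v.2.2)) :=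
        hZ.comp hcontθ.continuousOn (fun v hv => (hU v).2 hv)
      have hψ : Continuous (P.κ ∘ fun v : ℝ × ℝ × ℝ => E.e (χ (v.1, v.2.1), v.2.2)) :=
        (kap_cont_aux P).comp hcontθ
      have hΛ : ∀ x y t, (∃ i : Fin n,
          (P.κ ∘ fun v : ℝ × ℝ × ℝ => E.e (χ (v.1, v.2.1), v.2.2)) (x, y, t)
            = (0, (i : ℝ))) ↔ (y = 0 ∧ t = h₁ x) ∨ (x = 0 ∧ t = h₂ y) := by
        intro x y t
        exact hL x y t
      have ht1 : t < h₁ 0 := by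
        rw [← h0, hL] at ht'
        rcases ht' with ⟨-, h3⟩ | ⟨-, h3⟩ <;> linarith
      have ht2 : t ≠ h₂ 0 := by
        intro hc
        apply hv.2
        rw [← h0, hL]
        exact Or.inr ⟨rfl, hc⟩
      have hvθ : E.e (s, t) =
          (fun v : ℝ × ℝ × ℝ => E.e (χ (v.1, v.2.1), v.2.2)) (0, 0, t) := by
        simp only
        rw [h0]
      rcases lt_or_gt_of_ne ht2 with hlt | hgt
      · obtain ⟨G, hG, hGZ⟩ := low_ext a _ hψ h₁ h₂ hc₁ hc₂ h21 hΛ _ hZθ hnr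
        rw [hvθ]
        refine loc_aux E a Z _ hθ (fun v => ⟨_, rfl⟩) (LowR h₁ h₂) (UpR h₁ h₂)
          (low_open_aux h₁ h₂ hc₁ hc₂) ?_ hU G hG hGZ (0, 0, t) ⟨fun _ => ht1, fun _ => hlt⟩
        rintro ⟨x, y, u⟩ hvW hvL
        rcases (hL x y u).1 hvL with ⟨hy, ht⟩ | ⟨hx, ht⟩
        · exact absurd (hvW.1 hy) (by simp only; rw [ht]; exact lt_irrefl _)
        · exact absurd (hvW.2 hx) (by simp only; rw [ht]; exact lt_irrefl _)
      · obtain ⟨G, hG, hGZ⟩ := mid_ext a _ hψ h₁ h₂ hc₁ hc₂ h21 hΛ _ hZθ hnr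
        rw [hvθ]
        refine loc_aux E a Z _ hθ (fun v => ⟨_, rfl⟩) (MidR h₁ h₂) (UpR h₁ h₂)
          (mid_open_aux h₁ h₂ hc₁ hc₂) ?_ hU G hG hGZ (0, 0, t) ⟨fun _ => ht1, fun _ => hgt⟩
        rintro ⟨x, y, u⟩ hvW hvL
        rcases (hL x y u).1 hvL with ⟨hy, ht⟩ | ⟨hx, ht⟩
        · exact absurd (hvW.1 hy) (by simp only; rw [ht]; exact lt_irrefl _)
        · exact absurd (hvW.2 hx) (by simp only; rw [ht]; exact lt_irrefl _)
    · obtain ⟨χ, h, hχ, hh, h0, hL⟩ := D.reg s hs hsc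
      obtain ⟨hθ, -, -, hU⟩ := chart_facts E P.L χ hχ
      replace hU := hU h hL
      have hcontθ := hθ.continuous
      have hnr : ∀ (i : Fin n) (q : ℝ × ℝ × ℝ),
          (P.κ ∘ fun v : ℝ × ℝ × ℝ => E.e (χ (v.1, v.2.1), v.2.2)) q = (0, (i : ℝ)) →
          ∀ᶠ v in 𝓝 q, v ∈ UJ univ h →
            (Z ∘ fun v : ℝ × ℝ × ℝ => E.e (χ (v.1, v.2.1), v.2.2)) v = a i := by
        intro i q hq
        apply near_aux E a Z hnear _ hcontθ (UJ univ h) hU i q hq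
        rintro ⟨hqL, s', u, u', hsu, huu, huL⟩
        have h1 := E.emb.injective hsu
        rw [Prod.mk.injEq] at h1
        obtain ⟨h1, h2⟩ := h1
        rw [← h1, hL] at huL
        have h3 := (hL q.1 q.2.1 q.2.2).1 hqL
        have h4 := h3.2
        have h5 := huL.2
        linarith
      have hZθ : FlatOn a (P.κ ∘ fun v : ℝ × ℝ × ℝ => E.e (χ (v.1, v.2.1), v.2.2))
          (UJ univ h) (Z ∘ fun v : ℝ × ℝ × ℝ => E.e (χ (v.1, v.2.1), v.2.2)) :=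
        hZ.comp hcontθ.continuousOn (fun v hv => (hU v).2 hv)
      have hψ : Continuous (P.κ ∘ fun v : ℝ × ℝ × ℝ => E.e (χ (v.1, v.2.1), v.2.2)) :=
        (kap_cont_aux P).comp hcontθ
      have hΛ : ∀ x y t, (∃ i : Fin n,
          (P.κ ∘ fun v : ℝ × ℝ × ℝ => E.e (χ (v.1, v.2.1), v.2.2)) (x, y, t)
            = (0, (i : ℝ))) ↔ y = 0 ∧ t = h x := by
        intro x y t
        exact hL x y t
      have ht1 : t < h 0 := by
        rw [← h0, hL] at ht'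
        linarith [ht'.2]
      have hvθ : E.e (s, t) =
          (fun v : ℝ × ℝ × ℝ => E.e (χ (v.1, v.2.1), v.2.2)) (0, 0, t) := by
        simp only
        rw [h0]
      obtain ⟨G, hG, hGZ⟩ := reg_ext a _ hψ h hh hΛ _ hZθ hnr
      rw [hvθ]
      refine loc_aux E a Z _ hθ (fun v => ⟨_, rfl⟩) (DJ univ h) (UJ univ h)
        (dj_open_aux h hh) ?_ hU G hG hGZ (0, 0, t) ⟨mem_univ _, fun _ => ht1⟩
      rintro ⟨x, y, u⟩ hvW hvL
      have h3 := (hL x y u).1 hvL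
      exact absurd (hvW.2 h3.1) (by simp only; rw [h3.2]; exact lt_irrefl _)
  · have : {v : S3 | (v ∈ H.Wp ∨ v ∈ range E.e) ∧ v ∉ P.L} =
        {v : S3 | v ∈ H.Wp ∨ v ∈ range E.e} ∩ P.Lᶜ := by
      ext v
      rfl
    rw [this]
    exact hOo.inter (Lset_closed_aux P).isOpen_compl
  · intro v hv
    refine ⟨?_, ?_⟩
    · rcases hv with ⟨h1, _⟩ | ⟨s, t, h1, _⟩
      · exact Or.inl h1
      · exact Or.inr ⟨_, h1.symm⟩
    · rintro ⟨i, hi⟩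
      exact hRk v hv i hi
  · intro v hv
    by_cases hvR : v ∈ Rp E P.L
    · exact subset_closure hvR
    obtain ⟨s, t, t', rfl, htt', ht'⟩ := hstr v hv.1 hv.2 hvR
    have hs : s ∈ E.proj P.L := ⟨t', ht'⟩
    by_cases hsc : s ∈ D.cross
    · obtain ⟨χ, h₁, h₂, hχ, hc₁, hc₂, h0, h21, hL⟩ := D.crs s hsc
      obtain ⟨hθ, -, hU, -⟩ := chart_facts E P.L χ hχ
      replace hU := hU h₁ h₂ h21 hL
      have := closure_aux (n := n) E (fun v : ℝ × ℝ × ℝ => E.e (χ (v.1, v.2.1), v.2.2))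
        hθ.continuous (fun v h1 h2 => (hU v).2 ⟨fun h => absurd h h2, fun h => absurd h h1⟩) t
      simp only at this
      rwa [h0] at this
    · obtain ⟨χ, h, hχ, hh, h0, hL⟩ := D.reg s hs hsc
      obtain ⟨hθ, -, -, hU⟩ := chart_facts E P.L χ hχ
      replace hU := hU h hL
      have := closure_aux (n := n) E (fun v : ℝ × ℝ × ℝ => E.e (χ (v.1, v.2.1), v.2.2))
        hθ.continuous (fun v h1 h2 => (hU v).2 ⟨mem_univ _, fun h => absurd h h2⟩) t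
      simp only at this
      rwa [h0] at this

end X_ext_below

alias ext_below := X_ext_below.ext_below

end AG

end AltGenus
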