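import Pool.Agent.H99.AG.Base
import Pool.Graph.R_seed8.AltGenus.P_lift_homotopy
import Pool.Graph.R_seed8.AltGenus.P_exists_flatOn
import Pool.Graph.R_seed8.AltGenus.P_rank_HB
import Pool.Graph.R_seed8.AltGenus.P_HB_connected
import Pool.Graph.R_seed8.AltGenus.P_push_continuous
import Pool.Graph.R_seed8.AltGenus.P_height_bound
import Pool.Agent.H99.AG.G_Rp_facts

open Set Topology Filter

namespace AltGenus

namespace AG

namespace X_top_exists
theorem kap_cont747 {n : ℕ} (P : WMap n) : Continuous P.κ := P.cont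

theorem Lset_closed747 {n : ℕ} (P : WMap n) : IsClosed P.L := by
  have : P.L = ⋃ i : Fin n, P.κ ⁻¹' {((0 : ℝ), ((i : ℕ) : ℝ))} := by
    ext v
    simp [WMap.L]
  rw [this]
  exact isClosed_iUnion_of_finite (fun i => isClosed_singleton.preimage (kap_cont747 P))

open Classical in
/-- push along the collar -/
noncomputable def pushM747 {g : ℕ} {H : Heegaard g} (E : Collar H) (m : unitInterval × ℝ → ℝ)
    (p : unitInterval × S3) : S3 :=
  if h : p.2 ∈ range E.e then E.e ((Classical.choose h).1, m (p.1, (Classical.choose h).2))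
  else p.2

theorem pushM747_e {g : ℕ} {H : Heegaard g} (E : Collar H) (m : unitInterval × ℝ → ℝ)
    (τ : unitInterval) (s : H.Sig) (t : ℝ) :
    pushM747 E m (τ, E.e (s, t)) = E.e (s, m (τ, t)) := by
  unfold pushM747
  have h : E.e (s, t) ∈ range E.e := ⟨_, rfl⟩
  rw [dif_pos h]
  have h2 := Classical.choose_spec h
  have h3 := E.emb.injective h2
  rw [h3]

theorem pushM747_off {g : ℕ} {H : Heegaard g} (E : Collar H) (m : unitInterval × ℝ → ℝ)
    (τ : unitInterval) (v : S3) (hv : v ∉ range E.e) : pushM747 E m (τ, v) = v := by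
  unfold pushM747
  rw [dif_neg hv]

theorem flat_sub747 {n : ℕ} {Y : Type*} [TopologicalSpace Y] {a : Fin n → ℝ} {φ : Y → ℝ × ℝ}
    {A : Set Y} {f : Y → ℝ}
    (h : FlatOn a (fun y : A => φ y) univ (fun y : A => f y)) : FlatOn a φ A f := by
  intro y hy
  have h1 := h ⟨y, hy⟩ (mem_univ _)
  rw [nhdsWithin_univ] at h1
  rw [nhdsWithin_eq_map_subtype_coe hy]
  exact h1

theorem flat_sum747 {n : ℕ} {Y : Type*} [TopologicalSpace Y] {φ : Y → ℝ × ℝ}
    {A : Set Y} (b : Fin 3 → Fin n → ℝ) (f : Fin 3 → Y → ℝ) (h : ∀ k, FlatOn (b k) φ A (f k))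
    (x : Fin 3 → ℝ) : FlatOn (∑ k, x k • b k) φ A (fun y => ∑ k, x k * f k y) := by
  have h0 := (h 0).smul (x 0)
  have h1 := (h 1).smul (x 1)
  have h2 := (h 2).smul (x 2)
  have h3 := (h0.add h1).add h2
  have e1 : (∑ k, x k • b k) = x 0 • b 0 + x 1 • b 1 + x 2 • b 2 := by
    rw [Fin.sum_univ_three]
  have e2 : (fun y => ∑ k, x k * f k y) = x 0 • f 0 + x 1 • f 1 + x 2 • f 2 := by
    funext y
    rw [Fin.sum_univ_three]
    rfl
  rw [e1, e2]
  exact h3

theorem flat_zero747 {n : ℕ} {Y : Type*} [TopologicalSpace Y] (φ : Y → ℝ × ℝ)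
    (A : Set Y) : FlatOn (0 : Fin n → ℝ) φ A (fun _ => 0) := by
  intro y hy
  filter_upwards with y'
  unfold jump colour
  simp

theorem top_exists {g n : ℕ} {P : WMap n} (hgn : g + 2 ≤ n) {H : Heegaard g} (E : Collar H)
    (hL : P.L ⊆ range E.e) (i₀ : Fin n) (y₀ : S3) (hy₀ : y₀ ∈ Rp E P.L) :
    ∃ (a : Fin n → ℝ) (Z : S3 → ℝ), a ≠ 0 ∧ a i₀ = 0 ∧
      FlatOn a P.κ (Rp E P.L) Z ∧ Z y₀ = 0 := by
  classical
  obtain ⟨T, hT0, hT⟩ := height_bound E P.L (Lset_closed747 P) hL
  obtain ⟨hRo, hRc, hWo, hRe, hRk⟩ := Rp_facts (n := n) E hL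
  -- the pushes
  set mT : unitInterval × ℝ → ℝ := fun p => max p.2 T with hmT
  set m0 : unitInterval × ℝ → ℝ := fun p => max p.2 0 with hm0
  set mH : unitInterval × ℝ → ℝ := fun p => (1 - (p.1 : ℝ)) * max p.2 T + (p.1 : ℝ) * p.2 with hmH
  have cT : ContinuousOn (pushM747 E mT) {p | p.2 ∈ H.Wp ∨ p.2 ∈ range E.e} :=
    push_continuous E mT (by rw [hmT]; fun_prop) T (fun τ t ht => max_eq_left ht) _
      (pushM747_e E mT) (pushM747_off E mT)
  have c0 : ContinuousOn (pushM747 E m0) {p | p.2 ∈ H.Wp ∨ p.2 ∈ range E.e} :=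
    push_continuous E m0 (by rw [hm0]; fun_prop) 0 (fun τ t ht => max_eq_left ht) _
      (pushM747_e E m0) (pushM747_off E m0)
  have cH : ContinuousOn (pushM747 E mH) {p | p.2 ∈ H.Wp ∨ p.2 ∈ range E.e} :=
    push_continuous E mH (by rw [hmH]; fun_prop) T
      (fun τ t ht => by simp only [hmH]; rw [max_eq_left ht]; ring) _
      (pushM747_e E mH) (pushM747_off E mH)
  have hRsub : ∀ v ∈ Rp E P.L, v ∈ H.Wp ∨ v ∈ range E.e := by
    rintro v (⟨h, _⟩ | ⟨s, t, h, _⟩)
    · exact Or.inl h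
    · exact Or.inr ⟨_, h.symm⟩
  have hRoff : ∀ v ∈ H.Wp, v ∉ range E.e → v ∈ Rp E P.L := fun v h1 h2 => Or.inl ⟨h1, h2⟩
  have hRup : ∀ s t t', t ≤ t' → E.e (s, t) ∈ Rp E P.L → E.e (s, t') ∈ Rp E P.L := by
    intro s t t' htt h
    rw [← hRe] at h ⊢
    intro t'' ht''
    exact h t'' (htt.trans ht'')
  have hRT : ∀ s t, T ≤ t → E.e (s, t) ∈ Rp E P.L := by
    intro s t ht
    rw [← hRe]
    intro t' ht' hmem
    have := hT s t' hmem
    rw [abs_lt] at this
    linarith [this.2]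
  -- push to the top of points of Wp
  have hpT : ∀ v, (v ∈ H.Wp ∨ v ∈ range E.e) → pushM747 E mT (0, v) ∈ Rp E P.L := by
    intro v hv
    by_cases h : v ∈ range E.e
    · obtain ⟨⟨s, t⟩, rfl⟩ := h
      rw [pushM747_e]
      exact hRT _ _ (le_max_right _ _)
    · rw [pushM747_off E mT 0 v h]
      exact hRoff v (hv.resolve_right h) h
  -- the map r
  have hr : ∀ v ∈ Rp E P.L, pushM747 E m0 (0, v) ∈ H.Wp := by
    intro v hv
    by_cases h : v ∈ range E.e
    · obtain ⟨⟨s, t⟩, rfl⟩ := h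
      rw [pushM747_e]
      exact E.pos _ _ (le_max_right _ _)
    · rw [pushM747_off E m0 0 v h]
      exact (hRsub v hv).resolve_right h
  have hpr : ∀ v, pushM747 E mT (0, pushM747 E m0 (0, v)) = pushM747 E mT (0, v) := by
    intro v
    by_cases h : v ∈ range E.e
    · obtain ⟨⟨s, t⟩, rfl⟩ := h
      rw [pushM747_e, pushM747_e, pushM747_e]
      congr 2
      simp only [hmT, hm0]
      rw [max_assoc, max_eq_right hT0.le]
    · rw [pushM747_off E m0 0 v h]
  have hH1 : ∀ v, pushM747 E mH (1, v) = v := by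
    intro v
    by_cases h : v ∈ range E.e
    · obtain ⟨⟨s, t⟩, rfl⟩ := h
      rw [pushM747_e]
      congr 2
      simp [hmH]
    · rw [pushM747_off E mH 1 v h]
  have hH0 : ∀ v, pushM747 E mH (0, v) = pushM747 E mT (0, v) := by
    intro v
    by_cases h : v ∈ range E.e
    · obtain ⟨⟨s, t⟩, rfl⟩ := h
      rw [pushM747_e, pushM747_e]
      congr 2
      simp [hmH, hmT]
    · rw [pushM747_off E mH 0 v h, pushM747_off E mT 0 v h]
  have hHR : ∀ τ, ∀ v ∈ Rp E P.L, pushM747 E mH (τ, v) ∈ Rp E P.L := by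
    intro τ v hv
    by_cases h : v ∈ range E.e
    · obtain ⟨⟨s, t⟩, rfl⟩ := h
      rw [pushM747_e]
      refine hRup s t _ ?_ hv
      simp only [hmH]
      have h1 : t ≤ max t T := le_max_left _ _
      have h2 : 0 ≤ 1 - (τ : ℝ) := by linarith [τ.2.2]
      nlinarith
    · rw [pushM747_off E mH τ v h]
      exact hv
  -- the map Φ on the handlebody
  set Φ : (ℝ × ℝ) × ℝ → ℝ × ℝ := fun v =>
    if h : v ∈ HB g then P.κ (pushM747 E mT (0, (H.hp ⟨v, h⟩ : S3))) else (1, 1) with hΦ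
  have hΦ' : ∀ v : HB g, Φ v = P.κ (pushM747 E mT (0, (H.hp v : S3))) := by
    intro v
    simp only [hΦ]
    rw [dif_pos v.2]
  have hΦc : ContinuousOn Φ (HB g) := by
    rw [continuousOn_iff_continuous_domRestrict]
    have e : (HB g).domRestrict Φ = fun v => P.κ (pushM747 E mT (0, (H.hp v : S3))) := by
      funext v
      exact hΦ' v
    rw [e]
    apply (kap_cont747 P).comp
    exact cT.comp_continuous (by fun_prop) (fun v => Or.inl (H.hp v).2)
  have hΦa : ∀ v ∈ HB g, ∀ i : Fin n, Φ v ≠ (0, (i : ℝ)) := by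
    intro v hv i
    rw [hΦ' ⟨v, hv⟩]
    exact hRk _ (hpT _ (Or.inl (H.hp ⟨v, hv⟩).2)) i
  obtain ⟨b, f, hf, hind⟩ := rank_HB hgn Φ hΦc hΦa
  -- the flat functions on Rp
  set q : S3 → (ℝ × ℝ) × ℝ := fun v =>
    if h : v ∈ H.Wp then ((H.hp.symm ⟨v, h⟩ : HB g) : (ℝ × ℝ) × ℝ) else ((0, 0), 0) with hq
  have hq' : ∀ v : H.Wp, q v = (H.hp.symm v : HB g) := by
    intro v
    simp only [hq]
    rw [dif_pos v.2]
  have hlift : ∀ k, ∃ Z : S3 → ℝ, FlatOn (b k) P.κ (Rp E P.L) Z ∧
      ∀ s, Z (E.e (s, T)) = f k (q (E.e (s, T))) := by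
    intro k
    set Hh : unitInterval × (Rp E P.L) → ℝ × ℝ := fun p =>
      P.κ (pushM747 E mH (p.1, (p.2 : S3))) with hHh
    have hHc : Continuous Hh := by
      apply (kap_cont747 P).comp
      exact cH.comp_continuous (f := fun p : unitInterval × (Rp E P.L) => (p.1, (p.2 : S3)))
        (by fun_prop) (fun p => hRsub _ p.2.2)
    have hHa : ∀ p, ∀ i : Fin n, Hh p ≠ (0, (i : ℝ)) := fun p i =>
      hRk _ (hHR p.1 _ p.2.2) i
    have hf0 : FlatOn (b k) (fun y : Rp E P.L => Hh (0, y)) univ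
        (fun y : Rp E P.L => f k (q (pushM747 E m0 (0, (y : S3))))) := by
      have hcont : Continuous (fun y : Rp E P.L => q (pushM747 E m0 (0, (y : S3)))) := by
        have e : (fun y : Rp E P.L => q (pushM747 E m0 (0, (y : S3)))) =
            fun y : Rp E P.L =>
              ((H.hp.symm ⟨pushM747 E m0 (0, (y : S3)), hr _ y.2⟩ : HB g) : (ℝ × ℝ) × ℝ) := by
          funext y
          exact hq' ⟨pushM747 E m0 (0, (y : S3)), hr _ y.2⟩
        rw [e]
        apply continuous_subtype_val.comp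
        apply H.hp.symm.continuous.comp
        apply Continuous.subtype_mk
        exact c0.comp_continuous (f := fun y : Rp E P.L => ((0 : unitInterval), (y : S3)))
          (by fun_prop) (fun y => hRsub _ y.2)
      have h1 := (hf k).comp (g := fun y : Rp E P.L => q (pushM747 E m0 (0, (y : S3))))
        (B := univ) hcont.continuousOn (by
          intro y _
          show q _ ∈ HB g
          rw [hq' ⟨pushM747 E m0 (0, (y : S3)), hr _ y.2⟩]
          exact (H.hp.symm _).2)
      have e : (Φ ∘ fun y : Rp E P.L => q (pushM747 E m0 (0, (y : S3)))) =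
          (fun y : Rp E P.L => Hh (0, y)) := by
        funext y
        show Φ (q _) = _
        rw [hq' ⟨pushM747 E m0 (0, (y : S3)), hr _ y.2⟩, hΦ', H.hp.apply_symm_apply]
        show P.κ (pushM747 E mT (0, pushM747 E m0 (0, (y : S3)))) = P.κ (pushM747 E mH (0, _))
        rw [hpr, hH0]
      rw [e] at h1
      exact h1
    obtain ⟨F, hF, hF0⟩ := lift_homotopy (b k) Hh hHc hHa _ hf0
    refine ⟨fun v => if h : v ∈ Rp E P.L then F (1, ⟨v, h⟩) else 0, ?_, ?_⟩
    · apply flat_sub747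
      have h1 := hF.comp (g := fun y : Rp E P.L => ((1 : unitInterval), y)) (B := univ)
        (by fun_prop) (fun _ _ => mem_univ _)
      have e1 : (Hh ∘ fun y : Rp E P.L => ((1 : unitInterval), y)) =
          (fun y : Rp E P.L => P.κ y) := by
        funext y
        show P.κ (pushM747 E mH (1, _)) = _
        rw [hH1]
      have e2 : (F ∘ fun y : Rp E P.L => ((1 : unitInterval), y)) =
          (fun y : Rp E P.L => if h : (y : S3) ∈ Rp E P.L then F (1, ⟨y, h⟩) else 0) := by
        funext y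
        show F (1, y) = _
        rw [dif_pos y.2]
      rw [e1, e2] at h1
      exact h1
    · intro s
      have hmem : E.e (s, T) ∈ Rp E P.L := hRT s T le_rfl
      show (if h : E.e (s, T) ∈ Rp E P.L then F (1, ⟨E.e (s, T), h⟩) else 0) = _
      rw [dif_pos hmem]
      have hconst : ∀ τ, Hh (τ, ⟨E.e (s, T), hmem⟩) = P.κ (E.e (s, T)) := by
        intro τ
        show P.κ (pushM747 E mH (τ, E.e (s, T))) = _
        rw [pushM747_e]
        congr 3
        simp only [hmH, max_self]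
        ring
      have h1 := hF.comp (g := fun τ : unitInterval => (τ, (⟨E.e (s, T), hmem⟩ : Rp E P.L)))
        (B := univ) (by fun_prop) (fun _ _ => mem_univ _)
      have e1 : (Hh ∘ fun τ : unitInterval => (τ, (⟨E.e (s, T), hmem⟩ : Rp E P.L))) =
          fun _ => P.κ (E.e (s, T)) := by
        funext τ
        exact hconst τ
      rw [e1] at h1
      have h2 : FlatOn (b k) (fun _ : unitInterval => P.κ (E.e (s, T))) univ
          (fun _ => F (0, ⟨E.e (s, T), hmem⟩)) := by
        intro y _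
        filter_upwards with y'
        rw [jump_self]
      have h3 := h1.eqOn h2 isPreconnected_univ (mem_univ 0) rfl (mem_univ 1)
      have h4 : F (1, ⟨E.e (s, T), hmem⟩) = F (0, ⟨E.e (s, T), hmem⟩) := h3
      rw [h4, hF0]
      show f k (q (pushM747 E m0 (0, E.e (s, T)))) = _
      rw [pushM747_e]
      congr 4
      exact max_eq_left hT0.le
  choose Z hZ hZT using hlift
  -- a nonzero kernel vector
  let Lm : (Fin 3 → ℝ) →ₗ[ℝ] ℝ × ℝ :=
    { toFun := fun x => (∑ k, x k * b k i₀, ∑ k, x k * Z k y₀)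
      map_add' := by
        intro x y
        simp only [Pi.add_apply, add_mul, Finset.sum_add_distrib, Prod.mk_add_mk]
      map_smul' := by
        intro c x
        simp only [Pi.smul_apply, smul_eq_mul, mul_assoc, ← Finset.mul_sum, RingHom.id_apply,
          Prod.smul_mk] }
  have hker : LinearMap.ker Lm ≠ ⊥ := by
    intro hbot
    have h1 := LinearMap.finrank_le_finrank_of_injective (LinearMap.ker_eq_bot.1 hbot)
    simp at h1
  obtain ⟨x, hx, hx0⟩ := (Submodule.ne_bot_iff _).1 hker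
  have hx' : Lm x = 0 := hx
  have hxa : ∑ k, x k * b k i₀ = 0 := congrArg Prod.fst hx'
  have hxz : ∑ k, x k * Z k y₀ = 0 := congrArg Prod.snd hx'
  refine ⟨∑ k, x k • b k, fun v => ∑ k, x k * Z k v, ?_, ?_, flat_sum747 b Z hZ x, hxz⟩
  · intro ha
    apply hx0
    -- a point of the surface
    obtain ⟨hc1, hc2, hc3⟩ := HB_connected g
    obtain ⟨v, hv⟩ := hc2.nonempty
    have hvH : v ∈ HB g := by
      have := frontier_subset_closure hv
      rwa [hc3.isClosed.closure_eq] at this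
    have hs : (H.hp ⟨v, hvH⟩ : S3) ∈ H.Sig := (H.hp_mem ⟨v, hvH⟩).2 hv
    set s : H.Sig := ⟨_, hs⟩
    have hfl := flat_sum747 b Z hZ x
    rw [ha] at hfl
    have hz := hfl.eqOn (flat_zero747 P.κ _) hRc hy₀ hxz
    have hz' : ∑ k, x k * Z k (E.e (s, T)) = 0 := hz (hRT s T le_rfl)
    have hW : E.e (s, T) ∈ H.Wp := E.pos _ _ hT0.le
    have hqm : q (E.e (s, T)) ∈ HB g := by
      rw [hq' ⟨E.e (s, T), hW⟩]
      exact (H.hp.symm _).2
    have hfl2 := flat_sum747 b f hf x
    rw [ha] at hfl2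
    have h0 : ∑ k, x k * f k (q (E.e (s, T))) = 0 := by
      rw [← hz']
      apply Finset.sum_congr rfl
      intro k _
      rw [hZT]
    have hz2 := hfl2.eqOn (flat_zero747 Φ _) hc1.isPreconnected hqm h0
    exact hind x ha (fun v hv => hz2 hv)
  · rw [Finset.sum_apply]
    simpa using hxa

end X_top_exists

alias top_exists := X_top_exists.top_exists

end AG

end AltGenus
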