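import Pool.Agent.H99.AG.G_all_equal
import Pool.Agent.H99.AG.G_component_top
import Pool.Agent.H99.AG.G_crossing_W
import Pool.Agent.H99.AG.G_exists_W
import Pool.Agent.H99.AG.G_ext_all
import Pool.Agent.H99.AG.G_ext_below
import Pool.Agent.H99.AG.G_near_top
import Pool.Agent.H99.AG.G_top_exists
import Pool.Agent.H99.AG.G_W_const
import Pool.Agent.H99.AG.G_Rp_facts
import Pool.Agent.H99.AG.G_top_closure

open Set Topology Filter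

namespace AltGenus

namespace AG

theorem main_contra {g n m : ℕ} {P : WMap n} (hhol : Hol n P.κ)
    (hS1 : IsPreconnected {v : S3 | ¬ (0 ≤ (P.κ v).1 ∧ ∃ i : Fin n, (P.κ v).2 = (i : ℝ))})
    (hS2 : Dense {v : S3 | ¬ (0 ≤ (P.κ v).1 ∧ ∃ i : Fin n, (P.κ v).2 = (i : ℝ))})
    (hgn : g + 2 ≤ n) (K : Link m) (hK : K.carrier = P.L)
    (hk : ∀ j : Fin n, ∃ i : Fin m, ∀ t, P.κ (K.γ i t) = (0, (j : ℝ))) :
    ¬ HasAltDiagram K g := by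
  rintro ⟨H, E, ⟨D₀⟩, hA, hC₀⟩
  have D : Diagram E P.L := hK ▸ D₀
  have hC : Cellular E P.L := hK ▸ hC₀
  have hn : 0 < n := by omega
  have hmem : ∀ (i : Fin n) (q : S3), P.κ q = (0, (i : ℝ)) → q ∈ P.L := fun i q h => ⟨i, h⟩
  have hct : ∀ j : Fin n, ∃ q : S3, P.κ q = (0, (j : ℝ)) ∧ ¬ E.Under P.L q := by
    intro j
    obtain ⟨i, hi⟩ := hk j
    exact component_top E K D i j hi
  obtain ⟨q₀, hq₀, htop₀⟩ := hct ⟨0, hn⟩
  obtain ⟨U, hUo, hqU, hUc, hUn, -⟩ := near_top E D ⟨0, hn⟩ q₀ hq₀ htop₀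
  obtain ⟨y₀, hy₀U, hy₀R⟩ : (U ∩ Rp E P.L).Nonempty :=
    mem_closure_iff.1 (top_closure E D q₀ (hmem _ _ hq₀) htop₀) U hUo hqU
  obtain ⟨a, Z, ha0, hai, hZ, hZ0⟩ := top_exists hgn E D.sub ⟨0, hn⟩ y₀ hy₀R
  obtain ⟨W, hW1, hW2⟩ := exists_W E D a Z hZ
  have hWc := W_const E K hK D hA hC hn W hW2
    (fun χ h₁ h₂ hχ hc₁ hc₂ h21 hΛ => crossing_W hhol E D hn a Z hZ W hW1 hW2 χ h₁ h₂ hχ hc₁ hc₂ h21 hΛ)
  have hW0 : W q₀ = 0 := by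
    have hcl := top_closure E D q₀ (hmem _ _ hq₀) htop₀
    have hne : (𝓝[Rp E P.L] q₀).NeBot := mem_closure_iff_nhdsWithin_neBot.1 hcl
    have h1 := hW1 q₀ (hmem _ _ hq₀) htop₀
    have h2 : ∀ᶠ v in 𝓝[Rp E P.L] q₀, v ∈ U ∩ Rp E P.L := by
      filter_upwards [self_mem_nhdsWithin, mem_nhdsWithin_of_mem_nhds (hUo.mem_nhds hqU)] with v h3 h4
      exact ⟨h4, h3⟩
    obtain ⟨v, hv1, hv2⟩ := (h1.and h2).exists
    rw [← hv1, hq₀]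
    have h5 : colour a ((⟨0, hn⟩ : Fin n) : ℝ) = a ⟨0, hn⟩ := colour_self a ⟨0, hn⟩
    have h6 : (Z v - a ⟨0, hn⟩) ^ 2 = (Z y₀ - a ⟨0, hn⟩) ^ 2 :=
      (hZ.mono (fun x hx => hx.2 : U ∩ Rp E P.L ⊆ Rp E P.L)).sq_near hUc ⟨0, hn⟩
        (fun y hy => hUn y hy.1) hv2 ⟨hy₀U, hy₀R⟩
    show (Z v - colour a ((⟨0, hn⟩ : Fin n) : ℝ)) ^ 2 = 0
    rw [h5, h6, hZ0, hai]
    norm_num
  have hnear : ∀ (i : Fin n) (q : S3), P.κ q = (0, (i : ℝ)) → ¬ E.Under P.L q →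
      ∀ᶠ v in 𝓝[Rp E P.L] q, Z v = a i := by
    intro i q hq htop
    have h1 := hW1 q (hmem _ _ hq) htop
    rw [hWc q (hmem _ _ hq) q₀ (hmem _ _ hq₀) htop htop₀, hW0] at h1
    filter_upwards [h1] with v hv
    rw [hq] at hv
    have h5 : colour a ((i : Fin n) : ℝ) = a i := colour_self a i
    have h6 : (Z v - colour a ((i : Fin n) : ℝ)) ^ 2 = 0 := hv
    rw [h5] at h6
    have := pow_eq_zero_iff (two_ne_zero) |>.1 h6
    linarith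
  obtain ⟨F, hF, hFZ⟩ := ext_below E D a Z hZ hnear
  obtain ⟨G, hG, hGF⟩ := ext_all E D.sub a F hF
  have hfacts := Rp_facts (n := n) E D.sub
  have hsub : Rp E P.L ⊆ P.Lᶜ := by
    intro v hv hvL
    obtain ⟨i, hi⟩ := hvL
    exact hfacts.2.2.2.2 v hv i hi
  have heq := all_equal hS1 hS2 a G hG (Rp E P.L) hfacts.1 hsub (by
    intro i
    obtain ⟨q, hq, htop⟩ := hct i
    refine ⟨q, top_closure E D q (hmem _ _ hq) htop, hq, ?_⟩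
    filter_upwards [hnear i q hq htop, self_mem_nhdsWithin] with v hv hvR
    rw [hGF v _ (hsub hvR), hFZ v hvR, hv]
    rcases hvR with h | ⟨s, t, h, _⟩
    · exact Or.inl h.1
    · exact Or.inr ⟨(s, t), h.symm⟩)
  apply ha0
  ext i
  rw [heq i ⟨0, hn⟩, hai]
  rfl



end AG

end AltGenus
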