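import Pool.Agent.H99.AG.Base

open Set Topology Filter

namespace AltGenus

namespace AG

namespace X_all_equal
theorem all_equal {n : ℕ} {P : WMap n}
    (hS1 : IsPreconnected {v : S3 | ¬ (0 ≤ (P.κ v).1 ∧ ∃ i : Fin n, (P.κ v).2 = (i : ℝ))})
    (hS2 : Dense {v : S3 | ¬ (0 ≤ (P.κ v).1 ∧ ∃ i : Fin n, (P.κ v).2 = (i : ℝ))})
    (a : Fin n → ℝ) (G : S3 → ℝ) (hG : FlatOn a P.κ P.Lᶜ G)
    (R : Set S3) (hR : IsOpen R) (hRL : R ⊆ P.Lᶜ)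
    (h : ∀ i : Fin n, ∃ q : S3, q ∈ closure R ∧ P.κ q = (0, (i : ℝ)) ∧
      ∀ᶠ v in 𝓝[R] q, G v = a i) : ∀ i j, a i = a j := by
  have key : ∀ i : Fin n, ∃ v ∈ {v : S3 | ¬ (0 ≤ (P.κ v).1 ∧ ∃ i : Fin n, (P.κ v).2 = (i : ℝ))},
      G v = a i := by
    intro i
    obtain ⟨q, hq, _, hev⟩ := h i
    obtain ⟨O, hO, hqO, hOG⟩ := mem_nhdsWithin.mp hev
    have hne : (O ∩ R).Nonempty := mem_closure_iff.mp hq O hO hqO
    obtain ⟨v, hv, hvS⟩ := hS2.inter_open_nonempty (O ∩ R) (hO.inter hR) hne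
    exact ⟨v, hvS, hOG hv⟩
  intro i j
  obtain ⟨v, hv, hvi⟩ := key i
  obtain ⟨w, hw, hwj⟩ := key j
  have hflat : FlatOn a P.κ
      {v : S3 | ¬ (0 ≤ (P.κ v).1 ∧ ∃ i : Fin n, (P.κ v).2 = (i : ℝ))} G := by
    apply hG.mono
    rintro u hu ⟨k, hk⟩
    apply hu
    rw [hk]
    exact ⟨le_rfl, k, rfl⟩
  have hconst : FlatOn a P.κ
      {v : S3 | ¬ (0 ≤ (P.κ v).1 ∧ ∃ i : Fin n, (P.κ v).2 = (i : ℝ))} (fun _ => a i) := by
    intro u hu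
    refine Filter.Eventually.of_forall fun u' => ?_
    unfold jump
    rw [if_neg]
    rintro ⟨h1, _, h2⟩
    exact hu ⟨h1.le, h2⟩
  have h3 : G w = a i := hflat.eqOn hconst hS1 hv hvi hw
  rw [← hwj]
  exact h3.symm

end X_all_equal

alias all_equal := X_all_equal.all_equal

end AG

end AltGenus
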