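import Pool.Agent.H99.AG.Base

open Set Topology Filter

namespace AltGenus

namespace AG

/-- small loops around the points over `(0, i)` give the holonomy property -/
theorem hol_of_loops {n : ℕ} (κ : S3 → ℝ × ℝ)
    (h : ∀ (i : Fin n) (v₀ : S3), κ v₀ = (0, (i : ℝ)) → ∀ U : Set S3, IsOpen U → v₀ ∈ U →
      ∃ (ε : ℝ) (v : ℝ → S3), 0 < ε ∧ ε < 1 ∧ Continuous v ∧ (∀ t, v (t + 2 * Real.pi) = v t) ∧
        (∀ t, v t ∈ U) ∧ (∀ t, (κ (v t)).2 = (i : ℝ) + ε * Real.sin t) ∧
        (∀ t, 0 < (κ (v t)).1 ↔ 0 < Real.cos t) ∧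
        (∀ t, (κ (v t)).1 = 0 ↔ Real.cos t = 0)) : Hol n κ := by
  intro a i v₀ hv₀ U hU hv₀U F hF
  obtain ⟨ε, v, e1, e2, hvc, hvp, hvU, hv2, hvpos, hvz⟩ := h i v₀ hv₀ U hU hv₀U
  have hne : 0 < ε := e1
  have hsin : ∀ t, ∀ j : Fin n, (i : ℝ) + ε * Real.sin t = (j : ℝ) → Real.sin t = 0 := by
    intro t j hj
    have h4 : |(ε * Real.sin t)| < 1 := by
      rw [abs_mul, abs_of_pos hne]
      have := Real.abs_sin_le_one t
      nlinarith [abs_nonneg (Real.sin t)]
    have h5 : (ε * Real.sin t) = (((j : ℕ) : ℤ) - ((i : ℕ) : ℤ) : ℤ) := by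
      push_cast
      linarith
    rw [h5] at h4
    have h6 : |(((j : ℕ) : ℤ) - ((i : ℕ) : ℤ))| < 1 := by exact_mod_cast h4
    rw [Int.abs_lt_one_iff] at h6
    rw [h6] at h5
    simp only [Int.cast_zero] at h5
    exact (mul_eq_zero.mp h5).resolve_left hne.ne'
  have havoid : ∀ t, ∀ j : Fin n, κ (v t) ≠ (0, (j : ℝ)) := by
    intro t j hj
    have h4 : (κ (v t)).1 = 0 := congrArg Prod.fst hj
    have h5 : (κ (v t)).2 = (j : ℝ) := congrArg Prod.snd hj
    rw [hv2] at h5
    have h6 := hsin t j h5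
    have h7 : Real.cos t = 0 := (hvz t).1 h4
    have := Real.sin_sq_add_cos_sq t
    rw [h6, h7] at this
    norm_num at this
  have hG : FlatOn a (κ ∘ v) univ (F ∘ v) :=
    hF.comp hvc.continuousOn (fun t _ => ⟨hvU t, fun j => havoid t j⟩)
  set G := F ∘ v with hGd
  have hpi := Real.pi_pos
  -- constant on the open interval
  have hcst : FlatOn a (κ ∘ v) (Ioo 0 (2 * Real.pi)) (fun _ => G Real.pi) := by
    intro t ht
    filter_upwards with t'
    unfold jump
    rw [if_neg]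
    rintro ⟨h4, -, j, h5⟩
    simp only [Function.comp_apply] at h4 h5
    rw [hv2] at h5
    rw [hvpos] at h4
    have h6 := hsin t j h5
    rw [Real.sin_eq_zero_iff] at h6
    obtain ⟨m, hm⟩ := h6
    have h7 : 0 < Real.cos t := h4
    rw [← hm] at ht h7
    have h8 : 0 < m := by
      by_contra hcon
      push Not at hcon
      have : (m : ℝ) ≤ 0 := by exact_mod_cast hcon
      nlinarith [ht.1]
    have h9 : m < 2 := by
      by_contra hcon
      push Not at hcon
      have : (2 : ℝ) ≤ m := by exact_mod_cast hcon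
      nlinarith [ht.2]
    have h10 : m = 1 := by omega
    rw [h10] at h7
    simp only [Int.cast_one, one_mul, Real.cos_pi] at h7
    linarith
  have heq : EqOn G (fun _ => G Real.pi) (Ioo 0 (2 * Real.pi)) :=
    (hG.mono (subset_univ _)).eqOn hcst isPreconnected_Ioo ⟨hpi, by linarith⟩ rfl
  have h0 := hG 0 (mem_univ _)
  rw [nhdsWithin_univ] at h0
  have hright : G Real.pi = G 0 := by
    have h4 : ∀ᶠ t in 𝓝[>] (0 : ℝ), t ∈ Ioo 0 Real.pi := Ioo_mem_nhdsGT hpi
    obtain ⟨t, ht1, ht2⟩ := ((h0.filter_mono nhdsWithin_le_nhds).and h4).exists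
    have h5 := heq ⟨ht2.1, by linarith [ht2.2]⟩
    simp only at h5
    rw [← h5, ht1]
    unfold jump
    rw [if_neg]
    rintro ⟨-, h6, -⟩
    simp only [Function.comp_apply, hv2, Real.sin_zero] at h6
    have h7 := Real.sin_pos_of_pos_of_lt_pi ht2.1 ht2.2
    nlinarith
  have hleft : G Real.pi = 2 * a i - G 0 := by
    have h4 : ∀ᶠ t in 𝓝[<] (0 : ℝ), t ∈ Ioo (-Real.pi) 0 := Ioo_mem_nhdsLT (by linarith)
    obtain ⟨t, ht1, ht2⟩ := ((h0.filter_mono nhdsWithin_le_nhds).and h4).exists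
    have h5 := heq (show t + 2 * Real.pi ∈ Ioo 0 (2 * Real.pi) from
      ⟨by linarith [ht2.1], by linarith [ht2.2]⟩)
    simp only at h5
    have h6 : G (t + 2 * Real.pi) = G t := by
      simp only [hGd, Function.comp_apply, hvp]
    rw [← h5, h6, ht1]
    unfold jump
    rw [if_pos]
    · simp only [Function.comp_apply, hv2, Real.sin_zero, mul_zero, add_zero]
      rw [colour_self]
    · simp only [Function.comp_apply, hv2, Real.sin_zero, mul_zero, add_zero]
      refine ⟨(hvpos 0).2 (by rw [Real.cos_zero]; exact one_pos), ?_, i, rfl⟩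
      have h7 := Real.sin_neg_of_neg_of_neg_pi_lt ht2.2 ht2.1
      nlinarith
  refine ⟨v Real.pi, hvU _, fun j => havoid _ j, ?_⟩
  show G Real.pi = a i
  linarith

end AG

end AltGenus
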