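import Pool.Agent.H99.AG.SurfMap

open Set Topology Filter

namespace AltGenus

namespace AG

variable {n : ℕ} (S : SurfaceSystem n)

theorem compl_eq : {v : S3 | ¬ (0 ≤ ((wm S).κ v).1 ∧ ∃ i : Fin n, ((wm S).κ v).2 = (i : ℝ))} =
    (⋃ i, S.wall i)ᶜ := by
  ext v
  simp only [mem_ofPred_eq, mem_compl_iff, mem_iUnion, not_iff_not]
  constructor
  · rintro ⟨h1, i, h2⟩
    exact ⟨i, (wm_level S v i).1 ⟨h1, h2⟩⟩
  · rintro ⟨i, hi⟩
    obtain ⟨h1, h2⟩ := (wm_level S v i).2 hi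
    exact ⟨h1, i, h2⟩

theorem wall_range (i : Fin n) : S.wall i ⊆ range (S.e i) := by
  rintro _ ⟨m, _, rfl⟩
  exact ⟨_, rfl⟩

theorem on_wall (i j : Fin n) (m : S.M i) (s : ℝ) :
    S.e i (m, s) ∈ S.wall j ↔ i = j ∧ m ∈ S.F i ∧ s = 0 := by
  constructor
  · intro h
    by_cases hij : i = j
    · subst hij
      obtain ⟨m', hm', h2⟩ := h
      have h3 := (S.emb i).injective h2
      rw [Prod.mk.injEq] at h3
      obtain ⟨rfl, rfl⟩ := h3
      exact ⟨rfl, hm', rfl⟩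
    · exact absurd (wall_range S j h) (off_other S (fun h => hij h.symm) _)
  · rintro ⟨rfl, hm, rfl⟩
    exact ⟨m, hm, rfl⟩

theorem walls_closed : IsClosed (⋃ i, S.wall i) :=
  isClosed_iUnion_of_finite fun i => (wall_compact S i).isClosed

theorem compl_dense : Dense (⋃ i, S.wall i)ᶜ := by
  intro v
  by_cases hv : v ∈ ⋃ i, S.wall i
  · obtain ⟨i, hi⟩ := mem_iUnion.1 hv
    obtain ⟨m, hm, rfl⟩ := hi
    have hcont : Continuous (fun s : ℝ => S.e i (m, s)) :=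
      (S.emb i).continuous.comp (by fun_prop)
    have hten : Tendsto (fun s : ℝ => S.e i (m, s)) (𝓝[>] 0) (𝓝 (S.e i (m, 0))) :=
      (hcont.tendsto 0).mono_left nhdsWithin_le_nhds
    apply mem_closure_of_tendsto hten
    filter_upwards [self_mem_nhdsWithin] with s hs
    have hs' : 0 < s := hs
    intro h
    obtain ⟨j, hj⟩ := mem_iUnion.1 h
    exact hs'.ne' ((on_wall S i j m s).1 hj).2.2
  · exact subset_closure hv

/-- the product neighbourhood of a surface, minus the surface -/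
def Nn (i : Fin n) : Set S3 := S.e i '' {p | ¬ (p.1 ∈ S.F i ∧ p.2 = 0)}

theorem Nn_preconn (i : Fin n) : IsPreconnected (Nn S i) := by
  apply IsPreconnected.image _ _ (S.emb i).continuous.continuousOn
  obtain ⟨m₁, hm₁⟩ := Fc_nonempty S i
  have hup : IsPreconnected ((univ : Set (S.M i)) ×ˢ Ioi (0 : ℝ)) :=
    isPreconnected_univ.prod isPreconnected_Ioi
  have hdn : IsPreconnected ((univ : Set (S.M i)) ×ˢ Iio (0 : ℝ)) :=
    isPreconnected_univ.prod isPreconnected_Iio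
  have hline : ∀ m : S.M i, IsPreconnected (({m} : Set (S.M i)) ×ˢ (univ : Set ℝ)) :=
    fun m => isPreconnected_singleton.prod isPreconnected_univ
  have hlsub : ∀ m : S.M i, m ∉ S.F i → (({m} : Set (S.M i)) ×ˢ (univ : Set ℝ)) ⊆
      {p | ¬ (p.1 ∈ S.F i ∧ p.2 = 0)} := by
    rintro m hm ⟨a, b⟩ ⟨ha, _⟩ ⟨h1, _⟩
    simp only [mem_singleton_iff] at ha
    subst ha
    exact hm h1
  have hupsub : ((univ : Set (S.M i)) ×ˢ Ioi (0 : ℝ)) ⊆ {p | ¬ (p.1 ∈ S.F i ∧ p.2 = 0)} := by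
    rintro ⟨a, b⟩ ⟨_, hb⟩ ⟨_, h1⟩
    simp only [mem_Ioi] at hb h1
    rw [h1] at hb
    exact lt_irrefl _ hb
  have hdnsub : ((univ : Set (S.M i)) ×ˢ Iio (0 : ℝ)) ⊆ {p | ¬ (p.1 ∈ S.F i ∧ p.2 = 0)} := by
    rintro ⟨a, b⟩ ⟨_, hb⟩ ⟨_, h1⟩
    simp only [mem_Iio] at hb h1
    rw [h1] at hb
    exact lt_irrefl _ hb
  have hUL : ∀ m : S.M i, IsPreconnected ((({m} : Set (S.M i)) ×ˢ (univ : Set ℝ)) ∪
      ((univ : Set (S.M i)) ×ˢ Ioi (0 : ℝ))) := fun m =>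
    IsPreconnected.union (m, 1) ⟨rfl, trivial⟩ ⟨trivial, mem_Ioi.2 one_pos⟩ (hline m) hup
  have hDL : IsPreconnected ((({m₁} : Set (S.M i)) ×ˢ (univ : Set ℝ)) ∪
      ((univ : Set (S.M i)) ×ˢ Iio (0 : ℝ))) :=
    IsPreconnected.union (m₁, -1) ⟨rfl, trivial⟩ ⟨trivial, mem_Iio.2 (by norm_num)⟩ (hline m₁) hdn
  apply isPreconnected_of_forall (m₁, (0 : ℝ))
  rintro ⟨m, s⟩ hms
  rcases lt_trichotomy s 0 with hs | hs | hs
  · exact ⟨_, union_subset (hlsub m₁ hm₁) hdnsub, Or.inl ⟨rfl, trivial⟩, Or.inr ⟨trivial, hs⟩, hDL⟩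
  · have hm : m ∉ S.F i := fun h => hms ⟨h, hs⟩
    refine ⟨_, union_subset (union_subset (hlsub m₁ hm₁) hupsub)
      (union_subset (hlsub m hm) hupsub), Or.inl (Or.inl ⟨rfl, trivial⟩),
      Or.inr (Or.inl ⟨rfl, trivial⟩), ?_⟩
    exact IsPreconnected.union (m₁, 1) (Or.inr ⟨trivial, mem_Ioi.2 one_pos⟩)
      (Or.inr ⟨trivial, mem_Ioi.2 one_pos⟩) (hUL m₁) (hUL m)
  · exact ⟨_, union_subset (hlsub m₁ hm₁) hupsub, Or.inl ⟨rfl, trivial⟩, Or.inr ⟨trivial, hs⟩,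
      hUL m₁⟩

theorem Nn_sub (i : Fin n) : Nn S i ⊆ (⋃ i, S.wall i)ᶜ := by
  rintro _ ⟨⟨m, s⟩, h, rfl⟩ h2
  obtain ⟨j, hj⟩ := mem_iUnion.1 h2
  obtain ⟨_, h3, h4⟩ := (on_wall S i j m s).1 hj
  exact h ⟨h3, h4⟩

theorem mem_Nn (i : Fin n) (v : S3) (h1 : v ∈ (⋃ i, S.wall i)ᶜ) (h2 : v ∈ range (S.e i)) :
    v ∈ Nn S i := by
  obtain ⟨⟨m, s⟩, rfl⟩ := h2
  refine ⟨(m, s), ?_, rfl⟩
  rintro ⟨h3, h4⟩
  exact h1 (mem_iUnion.2 ⟨i, (on_wall S i i m s).2 ⟨rfl, h3, h4⟩⟩)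

theorem S3_preconn : IsPreconnected (univ : Set S3) := by
  have h : 1 < Module.rank ℝ (EuclideanSpace ℝ (Fin 4)) := by
    rw [rank_eq_card_basis (EuclideanSpace.basisFun (Fin 4) ℝ).toBasis]
    simp
  have h2 := isPreconnected_sphere h (0 : EuclideanSpace ℝ (Fin 4)) 1
  have := Subtype.preconnectedSpace h2
  exact isPreconnected_univ

theorem compl_preconn : IsPreconnected (⋃ i, S.wall i)ᶜ := by
  rw [isPreconnected_iff_subset_of_disjoint]
  intro u v hu hv huv hdis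
  have hso : IsOpen (⋃ i, S.wall i)ᶜ := (walls_closed S).isOpen_compl
  have hN : ∀ i, Nn S i ⊆ u ∨ Nn S i ⊆ v := by
    intro i
    have h1 := (isPreconnected_iff_subset_of_disjoint.1 (Nn_preconn S i)) u v hu hv
      ((Nn_sub S i).trans huv)
    apply h1
    apply eq_empty_of_subset_empty
    rw [← hdis]
    exact inter_subset_inter_left _ (Nn_sub S i)
  set A : Set S3 := (u ∩ (⋃ i, S.wall i)ᶜ) ∪ ⋃ (i) (_ : Nn S i ⊆ u), range (S.e i) with hA
  set B : Set S3 := (v ∩ (⋃ i, S.wall i)ᶜ) ∪ ⋃ (i) (_ : ¬ Nn S i ⊆ u), range (S.e i) with hB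
  have hAo : IsOpen A := (hu.inter hso).union
    (isOpen_iUnion fun i => isOpen_iUnion fun _ => (S.emb i).isOpen_range)
  have hBo : IsOpen B := (hv.inter hso).union
    (isOpen_iUnion fun i => isOpen_iUnion fun _ => (S.emb i).isOpen_range)
  have hcov : (univ : Set S3) ⊆ A ∪ B := by
    intro x _
    by_cases hx : x ∈ ⋃ i, S.wall i
    · obtain ⟨i, hi⟩ := mem_iUnion.1 hx
      by_cases h : Nn S i ⊆ u
      · exact Or.inl (Or.inr (mem_iUnion₂.2 ⟨i, h, wall_range S i hi⟩))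
      · exact Or.inr (Or.inr (mem_iUnion₂.2 ⟨i, h, wall_range S i hi⟩))
    · rcases huv hx with h | h
      · exact Or.inl (Or.inl ⟨h, hx⟩)
      · exact Or.inr (Or.inl ⟨h, hx⟩)
  have hcontra : ∀ x, x ∈ (⋃ i, S.wall i)ᶜ → x ∈ u → x ∈ v → False := by
    intro x h1 h2 h3
    have : x ∈ (⋃ i, S.wall i)ᶜ ∩ (u ∩ v) := ⟨h1, h2, h3⟩
    rw [hdis] at this
    exact this
  have hAB : (univ : Set S3) ∩ (A ∩ B) = ∅ := by
    apply eq_empty_of_forall_notMem
    rintro x ⟨_, h1, h2⟩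
    rcases h1 with ⟨h1, h1'⟩ | h1 <;> rcases h2 with ⟨h2, h2'⟩ | h2
    · exact hcontra x h1' h1 h2
    · obtain ⟨i, hi, hxi⟩ := mem_iUnion₂.1 h2
      exact hcontra x h1' h1 (((hN i).resolve_left hi) (mem_Nn S i x h1' hxi))
    · obtain ⟨i, hi, hxi⟩ := mem_iUnion₂.1 h1
      exact hcontra x h2' (hi (mem_Nn S i x h2' hxi)) h2
    · obtain ⟨i, hi, hxi⟩ := mem_iUnion₂.1 h1
      obtain ⟨j, hj, hxj⟩ := mem_iUnion₂.1 h2
      by_cases hij : i = j
      · subst hij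
        exact hj hi
      · exact Set.disjoint_left.1 (S.disj i j hij) hxi hxj
  rcases (isPreconnected_iff_subset_of_disjoint.1 S3_preconn) A B hAo hBo hcov hAB with h | h
  · left
    intro x hx
    rcases h (mem_univ x) with h1 | h1
    · exact h1.1
    · obtain ⟨i, hi, hxi⟩ := mem_iUnion₂.1 h1
      exact hi (mem_Nn S i x hx hxi)
  · right
    intro x hx
    rcases h (mem_univ x) with h1 | h1
    · exact h1.1
    · obtain ⟨i, hi, hxi⟩ := mem_iUnion₂.1 h1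
      exact ((hN i).resolve_left hi) (mem_Nn S i x hx hxi)

theorem link_cont {m : ℕ} (K : Link m) (i : Fin m) : Continuous (K.γ i) :=
  continuous_induced_rng.2 (K.smooth i).continuous

theorem level_component {m : ℕ} (K : Link m) (hK : K.carrier = S.boundary) (j : Fin n) :
    ∃ i : Fin m, ∀ t, (wm S).κ (K.γ i t) = (0, (j : ℝ)) := by
  obtain ⟨b, hb⟩ := S.bd j
  have h1 : S.e j (b, 0) ∈ S.bdry j := ⟨b, hb, rfl⟩
  have h2 : S.e j (b, 0) ∈ K.carrier := by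
    rw [hK]
    exact mem_iUnion.2 ⟨j, h1⟩
  obtain ⟨i, t₀, ht₀⟩ := mem_iUnion.1 h2
  refine ⟨i, ?_⟩
  have hval : ∀ t, ∃ k : Fin n, (wm S).κ (K.γ i t) = (0, (k : ℝ)) := by
    intro t
    have h3 : K.γ i t ∈ S.boundary := by
      rw [← hK]
      exact mem_iUnion.2 ⟨i, t, rfl⟩
    obtain ⟨k, hk⟩ := mem_iUnion.1 h3
    exact ⟨k, (wm_zero S _ k).2 hk⟩
  choose k hk using hval
  have hcont : Continuous (fun t => ((wm S).κ (K.γ i t)).2) :=
    continuous_snd.comp ((wm S).cont.comp (link_cont K i))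
  have hlc : IsLocallyConstant k := by
    rw [IsLocallyConstant.iff_eventually_eq]
    intro t
    have h4 : ∀ᶠ t' in 𝓝 t, dist ((wm S).κ (K.γ i t')).2 ((wm S).κ (K.γ i t)).2 < 1 :=
      (hcont.tendsto t).eventually (Metric.ball_mem_nhds _ one_pos)
    filter_upwards [h4] with t' ht'
    rw [hk t', hk t, Real.dist_eq] at ht'
    have ht2 : |(((k t' : ℕ) : ℝ) - ((k t : ℕ) : ℝ))| < 1 := ht'
    have h5 : |(((k t' : ℕ) : ℤ) - ((k t : ℕ) : ℤ))| < 1 := by exact_mod_cast ht2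
    rw [Int.abs_lt_one_iff] at h5
    apply Fin.ext
    omega
  intro t
  rw [hk t, hlc.apply_eq_of_preconnectedSpace t t₀]
  have h6 : (wm S).κ (K.γ i t₀) = (0, (j : ℝ)) := by
    rw [ht₀]
    exact (wm_zero S _ j).2 h1
  rw [← hk t₀, h6]

/-- a link which bounds `n` disjoint surfaces has no alternating diagram on a Heegaard surface of
genus less than `n - 1` -/
theorem surf_contra {g m : ℕ} (hgn : g + 2 ≤ n) (K : Link m) (hK : K.carrier = S.boundary) :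
    ¬ HasAltDiagram K g := by
  apply main_contra (P := wm S) (wm_hol S) _ _ hgn K (hK.trans (wm_L S).symm)
    (level_component S K hK)
  · rw [compl_eq]
    exact compl_preconn S
  · rw [compl_eq]
    exact compl_dense S

theorem surfaces {m : ℕ} (K : Link m) (hK : K.carrier = S.boundary) :
    (n : ℕ∞) ≤ gAlt K + 1 := by
  rcases Nat.eq_zero_or_pos n with h0 | h0
  · subst h0
    simp
  · obtain ⟨k, rfl⟩ : ∃ k, n = k + 1 := ⟨n - 1, by omega⟩
    push_cast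
    gcongr
    unfold gAlt
    refine le_iInf₂ fun g hg => ?_
    by_contra hlt
    rw [not_le] at hlt
    have h1 : g < k := by exact_mod_cast hlt
    exact surf_contra S (by omega) K hK hg

end AG

end AltGenus
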