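import Pool.Agent.H99.AG.Planar
import Pool.Agent.H99.AG.SurfConn

open Set Topology Filter

namespace AltGenus

namespace AG

instance circ_compact : CompactSpace UnitAddCircle := inferInstance

instance circ_conn : ConnectedSpace UnitAddCircle := by
  have h : Function.Surjective (fun x : ℝ => (x : UnitAddCircle)) := QuotientAddGroup.mk_surjective
  exact h.connectedSpace (AddCircle.continuous_mk' 1)

theorem circ_coe_inj {x y : ℝ} (h : (x : UnitAddCircle) = (y : UnitAddCircle)) (hxy : |x - y| < 1) :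
    x = y := by
  have h1 : ((x - y : ℝ) : UnitAddCircle) = 0 := by
    rw [AddCircle.coe_sub, h, sub_self]
  rw [AddCircle.coe_eq_zero_iff] at h1
  obtain ⟨k, hk⟩ := h1
  rw [zsmul_eq_mul, mul_one] at hk
  rw [← hk] at hxy
  have h2 : |k| < 1 := by exact_mod_cast hxy
  rw [Int.abs_lt_one_iff] at h2
  rw [h2, Int.cast_zero] at hk
  linarith

/-- an arc of the circle -/
noncomputable def arc (y : ℝ) : UnitAddCircle := ((Real.arctan y / 8 : ℝ) : UnitAddCircle)

theorem arc_open : IsOpenEmbedding arc := by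
  have hmono : StrictMono (fun y : ℝ => Real.arctan y / 8) := by
    intro x y hxy
    have := Real.arctan_strictMono hxy
    simp only
    linarith
  have hcont : Continuous (fun y : ℝ => Real.arctan y / 8) := by
    have := Real.continuous_arctan
    fun_prop
  apply IsOpenEmbedding.of_continuous_injective_isOpenMap
  · exact (AddCircle.continuous_mk' 1).comp hcont
  · intro x y hxy
    apply hmono.injective
    apply circ_coe_inj hxy
    have h1 := Real.arctan_lt_pi_div_two x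
    have h2 := Real.neg_pi_div_two_lt_arctan x
    have h3 := Real.arctan_lt_pi_div_two y
    have h4 := Real.neg_pi_div_two_lt_arctan y
    have h5 : Real.pi < 4 := Real.pi_lt_four
    rw [abs_lt]
    constructor <;> linarith
  · exact (QuotientAddGroup.isOpenMap_coe).comp (mono_open _ hcont hmono).isOpenMap

theorem arc_zero : arc 0 = 0 := by
  unfold arc
  simp

noncomputable def bet (x : ℝ) : ℝ := Real.arctan x / 2

theorem bet_mono : StrictMono bet := by
  intro x y hxy
  have := Real.arctan_strictMono hxy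
  unfold bet
  linarith

theorem bet_cont : Continuous bet := by
  have := Real.continuous_arctan
  unfold bet
  fun_prop

theorem bet_zero : bet 0 = 0 := by
  unfold bet
  simp

theorem bet_nonneg (x : ℝ) : 0 ≤ bet x ↔ 0 ≤ x := by
  have h := bet_mono.le_iff_le (a := 0) (b := x)
  rwa [bet_zero] at h

theorem bet_lt (x : ℝ) : bet x < 1 := by
  unfold bet
  have h1 := Real.arctan_lt_pi_div_two x
  have h5 : Real.pi < 4 := Real.pi_lt_four
  linarith

/-- the annulus -/
def Ann : Set (UnitAddCircle × ℝ) := univ ×ˢ Icc (0 : ℝ) 1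

theorem Ann_frontier : frontier Ann = univ ×ˢ ({0, 1} : Set ℝ) := by
  unfold Ann
  rw [frontier_univ_prod_eq, frontier_Icc zero_le_one]

theorem Ann_chart : ∀ m ∈ frontier Ann, ∃ χ : ℝ × ℝ → UnitAddCircle × ℝ, IsOpenEmbedding χ ∧
    χ (0, 0) = m ∧ ∀ x y, χ (x, y) ∈ Ann ↔ 0 ≤ x := by
  rw [Ann_frontier]
  rintro ⟨θ, x₀⟩ ⟨_, hx₀⟩
  simp only [mem_insert_iff, mem_singleton_iff] at hx₀
  have hrot : IsOpenEmbedding (fun y : ℝ => θ + arc y) :=
    (Homeomorph.addLeft θ).isOpenEmbedding.comp arc_open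
  rcases hx₀ with rfl | rfl
  · refine ⟨fun p => (θ + arc p.2, bet p.1), ?_, ?_, ?_⟩
    · exact (hrot.prodMap (mono_open _ bet_cont bet_mono)).comp
        (Homeomorph.prodComm ℝ ℝ).isOpenEmbedding
    · show (θ + arc 0, bet 0) = (θ, 0)
      rw [arc_zero, add_zero, bet_zero]
    · intro x y
      constructor
      · rintro ⟨_, h1, _⟩
        exact (bet_nonneg x).1 h1
      · intro h1
        exact ⟨trivial, (bet_nonneg x).2 h1, (bet_lt x).le⟩
  · have hneg : IsOpenEmbedding (fun x : ℝ => 1 - bet x) :=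
      (Homeomorph.subLeft (1 : ℝ)).isOpenEmbedding.comp (mono_open _ bet_cont bet_mono)
    refine ⟨fun p => (θ + arc p.2, 1 - bet p.1), ?_, ?_, ?_⟩
    · exact (hrot.prodMap hneg).comp (Homeomorph.prodComm ℝ ℝ).isOpenEmbedding
    · show (θ + arc 0, 1 - bet 0) = (θ, 1)
      rw [arc_zero, add_zero, bet_zero, sub_zero]
    · intro x y
      constructor
      · rintro ⟨_, _, h1⟩
        have h2 : 1 - bet x ≤ 1 := h1
        exact (bet_nonneg x).1 (by linarith)
      · intro h1
        have h2 := (bet_nonneg x).2 h1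
        have h3 := bet_lt x
        exact ⟨trivial, by show 0 ≤ 1 - bet x; linarith, by show 1 - bet x ≤ 1; linarith⟩

/-- the annuli in the boxes `B z` of the solid tori `Φ z` -/
noncomputable def annSys {n : ℕ} (E : Fin n → ((UnitAddCircle × ℝ) × ℝ → S3))
    (hE : ∀ i, IsOpenEmbedding (E i))
    (hd : ∀ i j, i ≠ j → Disjoint (range (E i)) (range (E j))) : SurfaceSystem n where
  M := fun _ => UnitAddCircle × ℝ
  top := fun _ => inferInstance
  conn := fun _ => inferInstance
  F := fun _ => Ann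
  cpt := fun _ => isCompact_univ.prod isCompact_Icc
  bd := fun _ => by
    rw [Ann_frontier]
    exact ⟨(0, 0), trivial, Or.inl rfl⟩
  chart := fun _ => Ann_chart
  e := E
  emb := hE
  disj := hd

theorem annSys_boundary {n : ℕ} (E : Fin n → ((UnitAddCircle × ℝ) × ℝ → S3))
    (hE : ∀ i, IsOpenEmbedding (E i))
    (hd : ∀ i j, i ≠ j → Disjoint (range (E i)) (range (E j))) :
    (annSys E hE hd).boundary = {v | ∃ i θ, v = E i ((θ, 0), 0) ∨ v = E i ((θ, 1), 0)} := by
  ext v
  simp only [SurfaceSystem.boundary, mem_iUnion, mem_ofPred_eq]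
  constructor
  · rintro ⟨i, ⟨θ, x⟩, hm, rfl⟩
    have hm' : (θ, x) ∈ frontier Ann := hm
    rw [Ann_frontier] at hm'
    rcases hm'.2 with h | h
    · have h' : x = 0 := h
      subst h'
      exact ⟨i, θ, Or.inl rfl⟩
    · have h' : x = 1 := h
      subst h'
      exact ⟨i, θ, Or.inr rfl⟩
  · rintro ⟨i, θ, h | h⟩
    · refine ⟨i, (θ, 0), ?_, h.symm⟩
      show (θ, (0 : ℝ)) ∈ frontier Ann
      rw [Ann_frontier]
      exact ⟨trivial, Or.inl rfl⟩
    · refine ⟨i, (θ, 1), ?_, h.symm⟩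
      show (θ, (1 : ℝ)) ∈ frontier Ann
      rw [Ann_frontier]
      exact ⟨trivial, Or.inr rfl⟩

/-- **Parallels.** Fibres of disjoint open solid tori: if the `i`-th torus contains `2 k i` of them,
the alternating genus is at least `∑ k i - 1`. -/
theorem parallels {r m : ℕ} (Φ : Fin r → (UnitAddCircle × (ℝ × ℝ) → S3))
    (hΦ : ∀ i, IsOpenEmbedding (Φ i))
    (hd : ∀ i j, i ≠ j → Disjoint (range (Φ i)) (range (Φ j)))
    (k : Fin r → ℕ) (P : Fin r → Finset (ℝ × ℝ)) (hP : ∀ i, (P i).card = 2 * k i)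
    (K : Link m) (hK : K.carrier = ⋃ i, Φ i '' {q | q.2 ∈ P i}) :
    ((∑ i, k i : ℕ) : ℕ∞) ≤ gAlt K + 1 := by
  choose B hB1 hB2 hB3 using fun i => planar (k i) (P i) (hP i)
  set Ez : (Σ i : Fin r, Fin (k i)) → ((UnitAddCircle × ℝ) × ℝ → S3) :=
    fun z p => Φ z.1 (p.1.1, B z.1 z.2 (p.1.2, p.2)) with hEz
  have hEz1 : ∀ z, IsOpenEmbedding (Ez z) := fun z =>
    (hΦ z.1).comp ((IsOpenEmbedding.id.prodMap (hB1 z.1 z.2)).comp
      (Homeomorph.prodAssoc UnitAddCircle ℝ ℝ).isOpenEmbedding)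
  have hEz2 : ∀ z z', z ≠ z' → Disjoint (range (Ez z)) (range (Ez z')) := by
    rintro ⟨i, j⟩ ⟨i', j'⟩ hne
    by_cases hi : i = i'
    · subst hi
      have hj : j ≠ j' := fun h => hne (by rw [h])
      rw [Set.disjoint_left]
      rintro v ⟨p, rfl⟩ ⟨p', hp'⟩
      have h1 := (hΦ i).injective hp'
      rw [Prod.mk.injEq] at h1
      exact Set.disjoint_left.1 (hB2 i j j' hj) ⟨_, rfl⟩ ⟨_, h1.2⟩
    · rw [Set.disjoint_left]
      rintro v ⟨p, rfl⟩ ⟨p', hp'⟩
      exact Set.disjoint_left.1 (hd i i' hi) ⟨_, rfl⟩ ⟨_, hp'⟩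
  set E : Fin (∑ i, k i) → ((UnitAddCircle × ℝ) × ℝ → S3) :=
    fun a => Ez (finSigmaFinEquiv.symm a) with hE
  have hE1 : ∀ a, IsOpenEmbedding (E a) := fun a => hEz1 _
  have hE2 : ∀ a b, a ≠ b → Disjoint (range (E a)) (range (E b)) := fun a b hab =>
    hEz2 _ _ (fun h => hab (finSigmaFinEquiv.symm.injective h))
  have hE' : ∀ z p, E (finSigmaFinEquiv z) p = Ez z p := by
    intro z p
    show Ez (finSigmaFinEquiv.symm (finSigmaFinEquiv z)) p = Ez z p
    rw [Equiv.symm_apply_apply]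
  refine surfaces (annSys E hE1 hE2) K ?_
  rw [hK, annSys_boundary]
  ext v
  simp only [mem_iUnion, mem_image, mem_ofPred_eq]
  constructor
  · rintro ⟨i, ⟨θ, q⟩, hq, rfl⟩
    have h1 : q ∈ (P i : Set (ℝ × ℝ)) := hq
    rw [hB3 i] at h1
    obtain ⟨j, hj⟩ := mem_iUnion.1 h1
    refine ⟨finSigmaFinEquiv ⟨i, j⟩, θ, ?_⟩
    rw [hE', hE']
    rcases hj with h | h
    · left
      rw [h]
    · right
      have h' : q = B i j (1, 0) := h
      rw [h']
  · rintro ⟨a, θ, h⟩
    obtain ⟨⟨i, j⟩, rfl⟩ := finSigmaFinEquiv.surjective a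
    rw [hE', hE'] at h
    rcases h with h | h
    · refine ⟨i, (θ, B i j (0, 0)), ?_, h.symm⟩
      have : B i j (0, 0) ∈ (P i : Set (ℝ × ℝ)) := by
        rw [hB3 i]
        exact mem_iUnion.2 ⟨j, Or.inl rfl⟩
      exact this
    · refine ⟨i, (θ, B i j (1, 0)), ?_, h.symm⟩
      have : B i j (1, 0) ∈ (P i : Set (ℝ × ℝ)) := by
        rw [hB3 i]
        exact mem_iUnion.2 ⟨j, Or.inr rfl⟩
      exact this

end AG

end AltGenus
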