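import Mathlib

open Set Topology Filter

namespace AltGenus

namespace AG

theorem mono_open (h : ℝ → ℝ) (hc : Continuous h) (hm : StrictMono h) : IsOpenEmbedding h := by
  apply IsOpenEmbedding.of_continuous_injective_isOpenMap hc hm.injective
  intro U hU
  rw [isOpen_iff_mem_nhds]
  rintro _ ⟨x, hx, rfl⟩
  obtain ⟨r, hr, hball⟩ := Metric.isOpen_iff.1 hU x hx
  have h1 : Ioo (h (x - r)) (h (x + r)) ⊆ h '' Ioo (x - r) (x + r) :=
    intermediate_value_Ioo (by linarith) hc.continuousOn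
  have h2 : Ioo (h (x - r)) (h (x + r)) ∈ 𝓝 (h x) :=
    Ioo_mem_nhds (hm (by linarith)) (hm (by linarith))
  apply Filter.mem_of_superset h2
  refine h1.trans (image_mono ?_)
  rw [← Real.ball_eq_Ioo]
  exact hball

/-- a strictly increasing function with `0 ↦ a`, `1 ↦ b` and range within `(a - δ, b + δ)` -/
noncomputable def hh (a b δ : ℝ) (x : ℝ) : ℝ :=
  a + (b - a) * max 0 (min 1 x) + δ * (Real.arctan (x - max 0 (min 1 x)) / 2)

theorem hh_cont (a b δ : ℝ) : Continuous (hh a b δ) := by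
  unfold hh
  have := Real.continuous_arctan
  fun_prop

theorem hh_mono {a b δ : ℝ} (hab : a < b) (hδ : 0 < δ) : StrictMono (hh a b δ) := by
  intro x y hxy
  unfold hh
  have h1 : max 0 (min 1 x) ≤ max 0 (min 1 y) := max_le_max le_rfl (min_le_min le_rfl hxy.le)
  have h2 : x - max 0 (min 1 x) ≤ y - max 0 (min 1 y) := by
    rcases le_total 1 x with h3 | h3
    · rw [min_eq_left h3, min_eq_left (h3.trans hxy.le)]
      linarith
    · rw [min_eq_right h3]
      rcases le_total 1 y with h4 | h4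
      · rw [min_eq_left h4]
        have : max 0 (1 : ℝ) = 1 := by norm_num
        rw [this]
        have := le_max_right 0 x
        linarith
      · rw [min_eq_right h4]
        rcases le_total 0 x with h5 | h5
        · rw [max_eq_right h5, max_eq_right (h5.trans hxy.le)]
          linarith
        · rw [max_eq_left h5]
          rcases le_total 0 y with h6 | h6
          · rw [max_eq_right h6]
            linarith
          · rw [max_eq_left h6]
            linarith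
  have h3 := Real.arctan_strictMono.monotone h2
  rcases h1.lt_or_eq with h4 | h4
  · have : (b - a) * max 0 (min 1 x) < (b - a) * max 0 (min 1 y) :=
      mul_lt_mul_of_pos_left h4 (by linarith)
    have h5 : δ * (Real.arctan (x - max 0 (min 1 x)) / 2) ≤
        δ * (Real.arctan (y - max 0 (min 1 y)) / 2) :=
      mul_le_mul_of_nonneg_left (by linarith) hδ.le
    linarith
  · rw [h4]
    rw [h4] at h2
    have h6 : Real.arctan (x - max 0 (min 1 y)) < Real.arctan (y - max 0 (min 1 y)) :=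
      Real.arctan_strictMono (by linarith)
    have h5 : δ * (Real.arctan (x - max 0 (min 1 y)) / 2) <
        δ * (Real.arctan (y - max 0 (min 1 y)) / 2) :=
      mul_lt_mul_of_pos_left (by linarith) hδ
    linarith

theorem hh_zero (a b δ : ℝ) : hh a b δ 0 = a := by
  unfold hh
  simp

theorem hh_one (a b δ : ℝ) : hh a b δ 1 = b := by
  unfold hh
  simp

theorem hh_bound {a b δ : ℝ} (hab : a < b) (hδ : 0 < δ) (x : ℝ) :
    a - δ < hh a b δ x ∧ hh a b δ x < b + δ := by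
  unfold hh
  have h1 : 0 ≤ max 0 (min 1 x) := le_max_left _ _
  have h2 : max 0 (min 1 x) ≤ 1 := max_le zero_le_one (min_le_left _ _)
  have h3 := Real.arctan_lt_pi_div_two (x - max 0 (min 1 x))
  have h4 := Real.neg_pi_div_two_lt_arctan (x - max 0 (min 1 x))
  have h5 : Real.pi < 4 := Real.pi_lt_four
  have h6 : -1 < Real.arctan (x - max 0 (min 1 x)) / 2 := by linarith
  have h7 : Real.arctan (x - max 0 (min 1 x)) / 2 < 1 := by linarith
  constructor
  · nlinarith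
  · nlinarith

/-- the plane homeomorphism of the coordinates `(u, s)` -/
def LL (c y₀ k a : ℝ) : ℝ × ℝ ≃ₜ ℝ × ℝ where
  toFun p := (p.1 - c * (p.2 + (y₀ + k * (p.1 - a))), p.2 + (y₀ + k * (p.1 - a)))
  invFun q := (q.1 + c * q.2, q.2 - (y₀ + k * (q.1 + c * q.2 - a)))
  left_inv := by
    rintro ⟨u, s⟩
    ext
    · show u - c * (s + (y₀ + k * (u - a))) + c * (s + (y₀ + k * (u - a))) = u
      ring
    · show s + (y₀ + k * (u - a)) - (y₀ + k * (u - c * (s + (y₀ + k * (u - a))) +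
        c * (s + (y₀ + k * (u - a))) - a)) = s
      ring
  right_inv := by
    rintro ⟨x, y⟩
    ext
    · show x + c * y - c * (y - (y₀ + k * (x + c * y - a)) + (y₀ + k * (x + c * y - a))) = x
      ring
    · show y - (y₀ + k * (x + c * y - a)) + (y₀ + k * (x + c * y - a)) = y
      ring
  continuous_toFun := by fun_prop
  continuous_invFun := by fun_prop

/-- the box around the pair of points `(a - c y₀, y₀)`, `(b - c y₁, y₁)` -/
noncomputable def BB (c a b δ y₀ y₁ : ℝ) (p : ℝ × ℝ) : ℝ × ℝ :=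
  LL c y₀ ((y₁ - y₀) / (b - a)) a (hh a b δ p.1, p.2)

theorem BB_open {c a b δ y₀ y₁ : ℝ} (hab : a < b) (hδ : 0 < δ) :
    IsOpenEmbedding (BB c a b δ y₀ y₁) :=
  (LL c y₀ ((y₁ - y₀) / (b - a)) a).isOpenEmbedding.comp
    ((mono_open _ (hh_cont a b δ) (hh_mono hab hδ)).prodMap IsOpenEmbedding.id)

theorem BB_ell (c a b δ y₀ y₁ : ℝ) (p : ℝ × ℝ) :
    (BB c a b δ y₀ y₁ p).1 + c * (BB c a b δ y₀ y₁ p).2 = hh a b δ p.1 := by
  show hh a b δ p.1 - c * (p.2 + (y₀ + (y₁ - y₀) / (b - a) * (hh a b δ p.1 - a))) +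
    c * (p.2 + (y₀ + (y₁ - y₀) / (b - a) * (hh a b δ p.1 - a))) = hh a b δ p.1
  ring

theorem BB_zero (c a b δ y₀ y₁ : ℝ) : BB c a b δ y₀ y₁ (0, 0) = (a - c * y₀, y₀) := by
  show (hh a b δ 0 - c * (0 + (y₀ + (y₁ - y₀) / (b - a) * (hh a b δ 0 - a))),
    0 + (y₀ + (y₁ - y₀) / (b - a) * (hh a b δ 0 - a))) = (a - c * y₀, y₀)
  rw [hh_zero]
  ext
  · show a - c * (0 + (y₀ + (y₁ - y₀) / (b - a) * (a - a))) = a - c * y₀
    ring
  · show 0 + (y₀ + (y₁ - y₀) / (b - a) * (a - a)) = y₀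
    ring

theorem BB_one {c a b δ y₀ y₁ : ℝ} (hab : a < b) :
    BB c a b δ y₀ y₁ (1, 0) = (b - c * y₁, y₁) := by
  show (hh a b δ 1 - c * (0 + (y₀ + (y₁ - y₀) / (b - a) * (hh a b δ 1 - a))),
    0 + (y₀ + (y₁ - y₀) / (b - a) * (hh a b δ 1 - a))) = (b - c * y₁, y₁)
  have hne : b - a ≠ 0 := by
    intro h
    linarith
  rw [hh_one, div_mul_cancel₀ _ hne]
  ext
  · show b - c * (0 + (y₀ + (y₁ - y₀))) = b - c * y₁
    ring
  · show 0 + (y₀ + (y₁ - y₀)) = y₁
    ring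

/-- a projection to a line which is injective on a finite set -/
theorem exists_proj (P : Finset (ℝ × ℝ)) :
    ∃ c : ℝ, ∀ p ∈ P, ∀ q ∈ P, p.1 + c * p.2 = q.1 + c * q.2 → p = q := by
  classical
  have hfin : ((P ×ˢ P).image (fun z => -(z.1.1 - z.2.1) / (z.1.2 - z.2.2)) : Set ℝ).Finite :=
    Finset.finite_toSet _
  obtain ⟨c, hc⟩ := hfin.exists_notMem
  refine ⟨c, ?_⟩
  intro p hp q hq h
  by_contra hne
  apply hc
  rw [Finset.mem_coe, Finset.mem_image]
  refine ⟨(p, q), Finset.mem_product.2 ⟨hp, hq⟩, ?_⟩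
  have h2 : p.2 - q.2 ≠ 0 := by
    intro h3
    apply hne
    have h4 : p.2 = q.2 := by linarith
    rw [h4] at h
    ext
    · linarith
    · exact h4
  show -(p.1 - q.1) / (p.2 - q.2) = c
  rw [div_eq_iff h2]
  linarith

theorem exists_gap {m : ℕ} (v : Fin m ↪o ℝ) : ∃ δ : ℝ, 0 < δ ∧ ∀ a b, a < b → 2 * δ ≤ v b - v a := by
  have h : ∀ᶠ δ in 𝓝[>] (0 : ℝ), ∀ a b, a < b → 2 * δ ≤ v b - v a := by
    rw [eventually_all]
    intro a
    rw [eventually_all]
    intro b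
    by_cases hab : a < b
    · have h1 : 0 < v b - v a := sub_pos.2 (v.strictMono hab)
      filter_upwards [Ioo_mem_nhdsGT (show (0 : ℝ) < (v b - v a) / 2 by linarith)] with δ hδ _
      linarith [hδ.2]
    · filter_upwards with δ h2
      exact absurd h2 hab
  obtain ⟨δ, h1, h2⟩ := (h.and self_mem_nhdsWithin).exists
  exact ⟨δ, h2, h1⟩

/-- a finite set of `2k` points of the plane is the union of the pairs of marked points of `k`
disjoint boxes -/
theorem planar (k : ℕ) (P : Finset (ℝ × ℝ)) (hP : P.card = 2 * k) :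
    ∃ B : Fin k → (ℝ × ℝ → ℝ × ℝ), (∀ j, IsOpenEmbedding (B j)) ∧
      (∀ i j, i ≠ j → Disjoint (range (B i)) (range (B j))) ∧
      (P : Set (ℝ × ℝ)) = ⋃ j, {B j (0, 0), B j (1, 0)} := by
  classical
  obtain ⟨c, hc⟩ := exists_proj P
  have hcard : (P.image (fun p => p.1 + c * p.2)).card = 2 * k := by
    rw [Finset.card_image_of_injOn (fun p hp q hq h => hc p hp q hq h), hP]
  set v := (P.image (fun p => p.1 + c * p.2)).orderEmbOfFin hcard with hv
  have hq : ∀ a : Fin (2 * k), ∃ p ∈ P, p.1 + c * p.2 = v a := by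
    intro a
    have := Finset.orderEmbOfFin_mem (P.image (fun p => p.1 + c * p.2)) hcard a
    rw [Finset.mem_image] at this
    exact this
  choose q hqP hqv using hq
  obtain ⟨δ, hδ, hgap⟩ := exists_gap v
  have hi0 : ∀ j : Fin k, 2 * (j : ℕ) < 2 * k := fun j => by omega
  have hi1 : ∀ j : Fin k, 2 * (j : ℕ) + 1 < 2 * k := fun j => by omega
  have hlt : ∀ j : Fin k, v ⟨2 * (j : ℕ), hi0 j⟩ < v ⟨2 * (j : ℕ) + 1, hi1 j⟩ := by
    intro j
    apply v.strictMono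
    rw [Fin.mk_lt_mk]
    omega
  have hq1 : ∀ a, q a = (v a - c * (q a).2, (q a).2) := by
    intro a
    ext
    · show (q a).1 = v a - c * (q a).2
      linarith [hqv a]
    · rfl
  refine ⟨fun j => BB c (v ⟨2 * (j : ℕ), hi0 j⟩) (v ⟨2 * (j : ℕ) + 1, hi1 j⟩) δ
    (q ⟨2 * (j : ℕ), hi0 j⟩).2 (q ⟨2 * (j : ℕ) + 1, hi1 j⟩).2, ?_, ?_, ?_⟩
  · intro j
    exact BB_open (hlt j) hδ
  · have key : ∀ i j : Fin k, i < j → Disjoint
        (range (BB c (v ⟨2 * (i : ℕ), hi0 i⟩) (v ⟨2 * (i : ℕ) + 1, hi1 i⟩) δ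
          (q ⟨2 * (i : ℕ), hi0 i⟩).2 (q ⟨2 * (i : ℕ) + 1, hi1 i⟩).2))
        (range (BB c (v ⟨2 * (j : ℕ), hi0 j⟩) (v ⟨2 * (j : ℕ) + 1, hi1 j⟩) δ
          (q ⟨2 * (j : ℕ), hi0 j⟩).2 (q ⟨2 * (j : ℕ) + 1, hi1 j⟩).2)) := by
      intro i j hij
      rw [Set.disjoint_left]
      rintro x ⟨p, hp⟩ ⟨p', hp'⟩
      have h1 := BB_ell c (v ⟨2 * (i : ℕ), hi0 i⟩) (v ⟨2 * (i : ℕ) + 1, hi1 i⟩) δ
          (q ⟨2 * (i : ℕ), hi0 i⟩).2 (q ⟨2 * (i : ℕ) + 1, hi1 i⟩).2 p
      have h2 := BB_ell c (v ⟨2 * (j : ℕ), hi0 j⟩) (v ⟨2 * (j : ℕ) + 1, hi1 j⟩) δ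
          (q ⟨2 * (j : ℕ), hi0 j⟩).2 (q ⟨2 * (j : ℕ) + 1, hi1 j⟩).2 p'
      rw [hp] at h1
      rw [hp'] at h2
      have h3 := (hh_bound (hlt i) hδ p.1).2
      have h4 := (hh_bound (hlt j) hδ p'.1).1
      have hij' : (i : ℕ) < (j : ℕ) := hij
      have h5 := hgap ⟨2 * (i : ℕ) + 1, hi1 i⟩ ⟨2 * (j : ℕ), hi0 j⟩ (by
        rw [Fin.mk_lt_mk]
        omega)
      rw [← h1] at h3
      rw [← h2] at h4
      linarith
    intro i j hij
    rcases lt_or_gt_of_ne hij with h | h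
    · exact key i j h
    · exact (key j i h).symm
  · ext x
    simp only [Finset.mem_coe, mem_iUnion, mem_insert_iff, mem_singleton_iff]
    have hB0 : ∀ j : Fin k, BB c (v ⟨2 * (j : ℕ), hi0 j⟩) (v ⟨2 * (j : ℕ) + 1, hi1 j⟩) δ
        (q ⟨2 * (j : ℕ), hi0 j⟩).2 (q ⟨2 * (j : ℕ) + 1, hi1 j⟩).2 (0, 0) =
        q ⟨2 * (j : ℕ), hi0 j⟩ := by
      intro j
      rw [BB_zero]
      exact (hq1 _).symm
    have hB1 : ∀ j : Fin k, BB c (v ⟨2 * (j : ℕ), hi0 j⟩) (v ⟨2 * (j : ℕ) + 1, hi1 j⟩) δ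
        (q ⟨2 * (j : ℕ), hi0 j⟩).2 (q ⟨2 * (j : ℕ) + 1, hi1 j⟩).2 (1, 0) =
        q ⟨2 * (j : ℕ) + 1, hi1 j⟩ := by
      intro j
      rw [BB_one (hlt j)]
      exact (hq1 _).symm
    constructor
    · intro hx
      have h1 : x.1 + c * x.2 ∈ Set.range v := by
        rw [hv, Finset.range_orderEmbOfFin, Finset.coe_image]
        exact ⟨x, hx, rfl⟩
      obtain ⟨a, ha⟩ := h1
      have h2 : x = q a := hc x hx (q a) (hqP a) (by rw [hqv a, ha])
      rcases Nat.even_or_odd' (a : ℕ) with ⟨b, hb | hb⟩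
      · have hbk : b < k := by omega
        refine ⟨⟨b, hbk⟩, Or.inl ?_⟩
        rw [hB0, h2]
        congr 1
        exact Fin.ext hb
      · have hbk : b < k := by omega
        refine ⟨⟨b, hbk⟩, Or.inr ?_⟩
        rw [hB1, h2]
        congr 1
        exact Fin.ext hb
    · rintro ⟨j, h | h⟩
      · rw [h, hB0]
        exact hqP _
      · rw [h, hB1]
        exact hqP _

end AG

end AltGenus
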