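import Pool.Graph.R_seed8.AltGenus.Defs

open Set Topology Filter

namespace AltGenus

namespace AG

/-- `n` pairwise disjoint compact surfaces `F i` in the 3-sphere. The surface `F i` is a compact
part, with nonempty frontier, of a connected open surface `M i`; near each point of its frontier
it is the closed half plane `0 ≤ x` in a chart `(x, y)` of `M i`; and `e i` is a product
neighbourhood `M i × ℝ` of `M i = M i × {0}` in the 3-sphere. -/
structure SurfaceSystem (n : ℕ) where
  M : Fin n → Type
  top : ∀ i, TopologicalSpace (M i)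
  conn : ∀ i, ConnectedSpace (M i)
  F : ∀ i, Set (M i)
  cpt : ∀ i, IsCompact (F i)
  bd : ∀ i, (frontier (F i)).Nonempty
  chart : ∀ i, ∀ m ∈ frontier (F i), ∃ χ : ℝ × ℝ → M i, IsOpenEmbedding χ ∧ χ (0, 0) = m ∧
    ∀ x y, χ (x, y) ∈ F i ↔ 0 ≤ x
  e : ∀ i, M i × ℝ → S3
  emb : ∀ i, IsOpenEmbedding (e i)
  disj : ∀ i j, i ≠ j → Disjoint (range (e i)) (range (e j))

attribute [instance] SurfaceSystem.top SurfaceSystem.conn

/-- the boundary of the `i`-th surface, in the 3-sphere -/
def SurfaceSystem.bdry {n : ℕ} (S : SurfaceSystem n) (i : Fin n) : Set S3 :=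
  (fun m => S.e i (m, 0)) '' frontier (S.F i)

/-- the union of the boundaries of all the surfaces, in the 3-sphere -/
def SurfaceSystem.boundary {n : ℕ} (S : SurfaceSystem n) : Set S3 := ⋃ i, S.bdry i

end AG

end AltGenus
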