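import Pool.Agent.H99.AG.GMain
import Pool.Agent.H99.AG.Hol
import Pool.Agent.H99.AG.Surf

open Set Topology Filter

namespace AltGenus

namespace AG

variable {n : ℕ} (S : SurfaceSystem n)

/-- the surface as a subset of the 3-sphere -/
def SurfaceSystem.wall (i : Fin n) : Set S3 := (fun m => S.e i (m, 0)) '' (S.F i)

theorem ze (i : Fin n) : IsEmbedding (fun m : S.M i => S.e i (m, (0 : ℝ))) :=
  (S.emb i).isEmbedding.comp (isEmbedding_prodMkLeft (0 : ℝ))

theorem t2 (i : Fin n) : T2Space (S.M i) := (ze S i).t2Space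

theorem F_closed (i : Fin n) : IsClosed (S.F i) := by
  have := t2 S i
  exact (S.cpt i).isClosed

theorem wall_compact (i : Fin n) : IsCompact (S.wall i) := (S.cpt i).image (ze S i).continuous

theorem F_frontier (i : Fin n) : frontier (S.F i) ⊆ S.F i := (F_closed S i).frontier_subset

theorem F_nonempty (i : Fin n) : (S.F i).Nonempty := (S.bd i).mono (F_frontier S i)

theorem frontier_iff (i : Fin n) (m : S.M i) :
    m ∈ frontier (S.F i) ↔ m ∈ S.F i ∧ m ∈ closure (S.F i)ᶜ := by
  rw [frontier_eq_closure_inter_closure, (F_closed S i).closure_eq]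
  rfl

theorem Fc_nonempty (i : Fin n) : (S.F i)ᶜ.Nonempty := by
  obtain ⟨m, hm⟩ := S.bd i
  exact closure_nonempty_iff.1 ⟨m, ((frontier_iff S i m).1 hm).2⟩

/-- a function which is positive inside the surface, zero on its frontier, negative outside -/
noncomputable def rh (i : Fin n) (m : S.M i) : ℝ :=
  Metric.infDist (S.e i (m, 0)) ((fun m => S.e i (m, 0)) '' (S.F i)ᶜ) -
    Metric.infDist (S.e i (m, 0)) (S.wall i)

theorem rh_cont (i : Fin n) : Continuous (rh S i) :=
  ((Metric.continuous_infDist_pt _).comp (ze S i).continuous).sub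
    ((Metric.continuous_infDist_pt _).comp (ze S i).continuous)

theorem rh_nonneg (i : Fin n) (m : S.M i) : 0 ≤ rh S i m ↔ m ∈ S.F i := by
  unfold rh
  constructor
  · intro h
    by_contra hm
    have h0 : Metric.infDist (S.e i (m, 0)) ((fun m => S.e i (m, 0)) '' (S.F i)ᶜ) = 0 :=
      Metric.infDist_zero_of_mem ⟨m, hm, rfl⟩
    rw [h0] at h
    have h1 : S.e i (m, 0) ∉ S.wall i := by
      rintro ⟨m', hm', h2⟩
      have := (ze S i).injective h2
      exact hm (this ▸ hm')
    have h2 := ((wall_compact S i).isClosed.notMem_iff_infDist_pos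
      ((F_nonempty S i).image _)).1 h1
    linarith
  · intro hm
    have h1 : Metric.infDist (S.e i (m, 0)) (S.wall i) = 0 :=
      Metric.infDist_zero_of_mem (mem_image_of_mem _ hm)
    rw [h1, sub_zero]
    exact Metric.infDist_nonneg

theorem rh_zero (i : Fin n) (m : S.M i) : rh S i m = 0 ↔ m ∈ frontier (S.F i) := by
  have key : m ∈ S.F i → (rh S i m = 0 ↔ m ∈ closure (S.F i)ᶜ) := by
    intro hm
    have h1 : Metric.infDist (S.e i (m, 0)) (S.wall i) = 0 :=
      Metric.infDist_zero_of_mem (mem_image_of_mem _ hm)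
    unfold rh
    rw [h1, sub_zero, ← Metric.mem_closure_iff_infDist_zero ((Fc_nonempty S i).image _),
      (ze S i).closure_eq_preimage_closure_image]
    rfl
  rw [frontier_iff]
  constructor
  · intro h
    have hm : m ∈ S.F i := (rh_nonneg S i m).1 h.ge
    exact ⟨hm, (key hm).1 h⟩
  · rintro ⟨hm, h⟩
    exact (key hm).2 h

/-- a clamped height -/
noncomputable def ht (s : ℝ) : ℝ := max (-(1 / 2)) (min (1 / 2) s)

theorem ht_cont : Continuous ht := by unfold ht; fun_prop

theorem ht_zero (s : ℝ) (h : ht s = 0) : s = 0 := by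
  unfold ht at h
  rcases le_total (1 / 2) s with h1 | h1
  · rw [min_eq_left h1] at h
    norm_num at h
  · rw [min_eq_right h1] at h
    rcases le_total (-(1 / 2)) s with h2 | h2
    · rw [max_eq_right h2] at h
      exact h
    · rw [max_eq_left h2] at h
      norm_num at h

theorem ht_abs (s : ℝ) : |ht s| ≤ 1 / 2 := by
  rw [abs_le]
  exact ⟨le_max_left _ _, max_le (by norm_num) (min_le_left _ _)⟩

theorem ht_eq (s : ℝ) (h : |s| ≤ 1 / 2) : ht s = s := by
  rw [abs_le] at h
  unfold ht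
  rw [min_eq_right h.2, max_eq_right h.1]

/-- a cut-off function -/
theorem exists_u (i : Fin n) : ∃ u : C(S3, ℝ), EqOn u 0 (range (S.e i))ᶜ ∧ EqOn u 1 (S.wall i) ∧
    ∀ x, u x ∈ Icc (0 : ℝ) 1 := by
  apply exists_continuous_zero_one_of_isClosed (S.emb i).isOpen_range.isClosed_compl
    (wall_compact S i).isClosed
  rw [Set.disjoint_left]
  rintro x hx ⟨m, _, rfl⟩
  exact hx ⟨_, rfl⟩

noncomputable def uu (i : Fin n) : C(S3, ℝ) := (exists_u S i).choose

theorem uu_zero (i : Fin n) (x : S3) (hx : x ∉ range (S.e i)) : uu S i x = 0 :=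
  (exists_u S i).choose_spec.1 hx

theorem uu_one (i : Fin n) (x : S3) (hx : x ∈ S.wall i) : uu S i x = 1 :=
  (exists_u S i).choose_spec.2.1 hx

/-- the fast cut-off -/
noncomputable def m1 (i : Fin n) (x : S3) : ℝ := max 0 (min 1 (4 * uu S i x - 2))

/-- the slow cut-off -/
noncomputable def m2 (i : Fin n) (x : S3) : ℝ := max 0 (min 1 (4 * uu S i x - 1))

theorem m1_cont (i : Fin n) : Continuous (m1 S i) := by unfold m1; fun_prop
theorem m2_cont (i : Fin n) : Continuous (m2 S i) := by unfold m2; fun_prop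

theorem m1_le (i : Fin n) (x : S3) : m1 S i x ≤ 1 := max_le zero_le_one (min_le_left _ _)
theorem m1_nonneg (i : Fin n) (x : S3) : 0 ≤ m1 S i x := le_max_left _ _

theorem m1_one (i : Fin n) (x : S3) (h : 3 / 4 ≤ uu S i x) : m1 S i x = 1 := by
  unfold m1
  rw [min_eq_left (by linarith)]
  norm_num

theorem m2_one (i : Fin n) (x : S3) (h : 1 / 2 ≤ uu S i x) : m2 S i x = 1 := by
  unfold m2
  rw [min_eq_left (by linarith)]
  norm_num

theorem m1_zero (i : Fin n) (x : S3) (h : uu S i x ≤ 1 / 2) : m1 S i x = 0 := by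
  unfold m1
  apply max_eq_left
  exact (min_le_right _ _).trans (by linarith)

theorem m2_zero (i : Fin n) (x : S3) (h : uu S i x ≤ 1 / 4) : m2 S i x = 0 := by
  unfold m2
  apply max_eq_left
  exact (min_le_right _ _).trans (by linarith)

/-- multiplying by a cut-off makes extensions by zero continuous -/
theorem cut_cont {X : Type} [TopologicalSpace X] (e : X → S3) (he : IsOpenEmbedding e)
    (μ : S3 → ℝ) (hμ : Continuous μ) (C : Set S3) (hC : IsClosed C) (hCe : C ⊆ range e)
    (h0 : ∀ x, x ∉ C → μ x = 0) (g : X → ℝ) (hg : Continuous g) :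
    Continuous (fun v => μ v * Function.extend e g 0 v) := by
  rw [continuous_iff_continuousAt]
  intro v
  by_cases hv : v ∈ range e
  · obtain ⟨x, rfl⟩ := hv
    refine hμ.continuousAt.mul ?_
    rw [← he.continuousAt_iff, Function.extend_comp he.injective]
    exact hg.continuousAt
  · have hvC : v ∈ Cᶜ := fun h => hv (hCe h)
    have : (fun v => μ v * Function.extend e g 0 v) =ᶠ[𝓝 v] fun _ => 0 := by
      filter_upwards [hC.isOpen_compl.mem_nhds hvC] with x hx
      rw [h0 x hx, zero_mul]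
    exact continuousAt_const.congr this.symm

noncomputable def fA (i : Fin n) (v : S3) : ℝ :=
  m1 S i v * Function.extend (S.e i) (fun p => rh S i p.1 + 1) 0 v

noncomputable def fB (i : Fin n) (v : S3) : ℝ :=
  m2 S i v * Function.extend (S.e i) (fun p => (i : ℝ) + ht p.2) 0 v

theorem fA_cont (i : Fin n) : Continuous (fA S i) := by
  apply cut_cont (S.e i) (S.emb i) (m1 S i) (m1_cont S i) {x | 1 / 2 ≤ uu S i x}
    (isClosed_le continuous_const (uu S i).continuous)
  · intro x hx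
    by_contra h
    rw [mem_ofPred_eq, uu_zero S i x h] at hx
    norm_num at hx
  · intro x hx
    exact m1_zero S i x (not_le.1 hx).le
  · exact ((rh_cont S i).comp continuous_fst).add continuous_const

theorem fB_cont (i : Fin n) : Continuous (fB S i) := by
  apply cut_cont (S.e i) (S.emb i) (m2 S i) (m2_cont S i) {x | 1 / 4 ≤ uu S i x}
    (isClosed_le continuous_const (uu S i).continuous)
  · intro x hx
    by_contra h
    rw [mem_ofPred_eq, uu_zero S i x h] at hx
    norm_num at hx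
  · intro x hx
    exact m2_zero S i x (not_le.1 hx).le
  · exact continuous_const.add (ht_cont.comp continuous_snd)

/-- the wall map of a surface system -/
noncomputable def wm : WMap n where
  κ := fun v => (-1 + ∑ i, fA S i v, ∑ i, fB S i v)
  cont := (continuous_const.add (continuous_finsetSum _ fun i _ => fA_cont S i)).prodMk
    (continuous_finsetSum _ fun i _ => fB_cont S i)

theorem fA_off (i : Fin n) (v : S3) (h : v ∉ range (S.e i)) : fA S i v = 0 := by
  unfold fA
  rw [m1_zero S i v (by rw [uu_zero S i v h]; norm_num), zero_mul]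

theorem fB_off (i : Fin n) (v : S3) (h : v ∉ range (S.e i)) : fB S i v = 0 := by
  unfold fB
  rw [m2_zero S i v (by rw [uu_zero S i v h]; norm_num), zero_mul]

theorem fA_on (i : Fin n) (m : S.M i) (s : ℝ) :
    fA S i (S.e i (m, s)) = m1 S i (S.e i (m, s)) * (rh S i m + 1) := by
  unfold fA
  rw [(S.emb i).injective.extend_apply]

theorem fB_on (i : Fin n) (m : S.M i) (s : ℝ) :
    fB S i (S.e i (m, s)) = m2 S i (S.e i (m, s)) * ((i : ℝ) + ht s) := by
  unfold fB
  rw [(S.emb i).injective.extend_apply]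

theorem off_other {i j : Fin n} (h : j ≠ i) (p : S.M i × ℝ) : S.e i p ∉ range (S.e j) :=
  fun h' => Set.disjoint_left.1 (S.disj j i h) h' ⟨p, rfl⟩

theorem wm_on (i : Fin n) (m : S.M i) (s : ℝ) : (wm S).κ (S.e i (m, s)) =
    (-1 + m1 S i (S.e i (m, s)) * (rh S i m + 1), m2 S i (S.e i (m, s)) * ((i : ℝ) + ht s)) := by
  show (-1 + ∑ j, fA S j (S.e i (m, s)), ∑ j, fB S j (S.e i (m, s))) = _
  rw [Finset.sum_eq_single i (fun j _ hj => fA_off S j _ (off_other S hj _)) (by simp),
    Finset.sum_eq_single i (fun j _ hj => fB_off S j _ (off_other S hj _)) (by simp),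
    fA_on, fB_on]

theorem wm_off (v : S3) (h : ∀ i, v ∉ range (S.e i)) : (wm S).κ v = (-1, 0) := by
  show (-1 + ∑ j, fA S j v, ∑ j, fB S j v) = _
  rw [Finset.sum_eq_zero (fun j _ => fA_off S j _ (h j)),
    Finset.sum_eq_zero (fun j _ => fB_off S j _ (h j)), add_zero]

/-- near the surface the wall map is `(rh, i + height)` -/
theorem wm_near (i : Fin n) (m : S.M i) (s : ℝ) (hu : 3 / 4 ≤ uu S i (S.e i (m, s)))
    (hs : |s| ≤ 1 / 2) : (wm S).κ (S.e i (m, s)) = (rh S i m, (i : ℝ) + s) := by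
  rw [wm_on, m1_one S i _ hu, m2_one S i _ (by linarith), ht_eq s hs]
  ext
  · show -1 + 1 * (rh S i m + 1) = rh S i m
    ring
  · show 1 * ((i : ℝ) + s) = (i : ℝ) + s
    ring

theorem wm_wall (i : Fin n) (m : S.M i) (hm : m ∈ S.F i) :
    (wm S).κ (S.e i (m, 0)) = (rh S i m, (i : ℝ)) := by
  rw [wm_near S i m 0 (by rw [uu_one S i _ ⟨m, hm, rfl⟩]; norm_num) (by norm_num), add_zero]

theorem wm_level (v : S3) (j : Fin n) :
    (0 ≤ ((wm S).κ v).1 ∧ ((wm S).κ v).2 = (j : ℝ)) ↔ v ∈ S.wall j := by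
  constructor
  · rintro ⟨h1, h2⟩
    by_cases hv : ∃ i, v ∈ range (S.e i)
    · obtain ⟨i, ⟨m, s⟩, rfl⟩ := hv
      rw [wm_on] at h1 h2
      simp only at h1 h2
      have hpos : 0 < m1 S i (S.e i (m, s)) := by
        rcases (m1_nonneg S i (S.e i (m, s))).lt_or_eq with h | h
        · exact h
        · rw [← h] at h1
          linarith
      have hr : 0 ≤ rh S i m := by
        by_contra hneg
        have h3 := m1_le S i (S.e i (m, s))
        nlinarith
      have hu : 1 / 2 ≤ uu S i (S.e i (m, s)) := by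
        by_contra hneg
        rw [m1_zero S i _ (not_le.1 hneg).le] at hpos
        exact lt_irrefl _ hpos
      rw [m2_one S i _ hu, one_mul] at h2
      have h4 : |ht s| ≤ 1 / 2 := ht_abs s
      have h5 : ht s = (((j : ℕ) : ℤ) - ((i : ℕ) : ℤ) : ℤ) := by
        push_cast
        linarith
      have h6 : |(((j : ℕ) : ℤ) - ((i : ℕ) : ℤ))| < 1 := by
        rw [h5] at h4
        have h7 : |((((j : ℕ) : ℤ) - ((i : ℕ) : ℤ) : ℤ) : ℝ)| < 1 := by linarith
        exact_mod_cast h7
      rw [Int.abs_lt_one_iff] at h6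
      rw [h6] at h5
      simp only [Int.cast_zero] at h5
      have h8 : s = 0 := ht_zero s h5
      have h9 : i = j := by
        apply Fin.ext
        omega
      subst h9
      subst h8
      exact ⟨m, (rh_nonneg S i m).1 hr, rfl⟩
    · push Not at hv
      rw [wm_off S v hv] at h1
      norm_num at h1
  · rintro ⟨m, hm, rfl⟩
    show 0 ≤ ((wm S).κ (S.e j (m, 0))).1 ∧ ((wm S).κ (S.e j (m, 0))).2 = (j : ℝ)
    rw [wm_wall S j m hm]
    exact ⟨(rh_nonneg S j m).2 hm, rfl⟩

theorem wm_zero (v : S3) (j : Fin n) : (wm S).κ v = (0, (j : ℝ)) ↔ v ∈ S.bdry j := by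
  constructor
  · intro h
    have h1 : v ∈ S.wall j := by
      apply (wm_level S v j).1
      rw [h]
      exact ⟨le_rfl, rfl⟩
    obtain ⟨m, hm, rfl⟩ := h1
    simp only at h
    rw [wm_wall S j m hm] at h
    exact ⟨m, (rh_zero S j m).1 (congrArg Prod.fst h), rfl⟩
  · rintro ⟨m, hm, rfl⟩
    show (wm S).κ (S.e j (m, 0)) = _
    rw [wm_wall S j m (F_frontier S j hm), (rh_zero S j m).2 hm]

theorem wm_L : (wm S).L = S.boundary := by
  ext v
  simp only [SurfaceSystem.boundary, mem_iUnion]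
  constructor
  · rintro ⟨j, hj⟩
    exact ⟨j, (wm_zero S v j).1 hj⟩
  · rintro ⟨j, hj⟩
    exact ⟨j, (wm_zero S v j).2 hj⟩

theorem chart_sign (i : Fin n) (χ : ℝ × ℝ → S.M i) (hχ : IsOpenEmbedding χ)
    (h : ∀ x y, χ (x, y) ∈ S.F i ↔ 0 ≤ x) (x y : ℝ) :
    (0 < rh S i (χ (x, y)) ↔ 0 < x) ∧ (rh S i (χ (x, y)) = 0 ↔ x = 0) := by
  have h1 : χ ⁻¹' (S.F i) = Prod.fst ⁻¹' Ici (0 : ℝ) := by
    ext ⟨a, b⟩
    exact h a b
  have h2 : χ ⁻¹' frontier (S.F i) = Prod.fst ⁻¹' {(0 : ℝ)} := by
    rw [hχ.isOpenMap.preimage_frontier_eq_frontier_preimage hχ.continuous, h1,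
      ← isOpenMap_fst.preimage_frontier_eq_frontier_preimage continuous_fst, frontier_Ici]
  have h3 : rh S i (χ (x, y)) = 0 ↔ x = 0 := by
    rw [rh_zero]
    constructor
    · intro h4
      have : (x, y) ∈ χ ⁻¹' frontier (S.F i) := h4
      rw [h2] at this
      exact this
    · intro h4
      have : (x, y) ∈ χ ⁻¹' frontier (S.F i) := by
        rw [h2]
        exact h4
      exact this
  refine ⟨?_, h3⟩
  have h4 : 0 ≤ rh S i (χ (x, y)) ↔ 0 ≤ x := (rh_nonneg S i _).trans (h x y)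
  constructor
  · intro h5
    exact lt_of_le_of_ne (h4.1 h5.le) (fun h6 => h5.ne' (h3.2 h6.symm))
  · intro h5
    exact lt_of_le_of_ne (h4.2 h5.le) (fun h6 => h5.ne' (h3.1 h6.symm))

theorem wm_hol : Hol n (wm S).κ := by
  apply hol_of_loops
  intro i v₀ hv₀ U hU hv₀U
  obtain ⟨m₀, hm₀, rfl⟩ := (wm_zero S v₀ i).1 hv₀
  obtain ⟨χ, hχ, hχ0, hχF⟩ := S.chart i m₀ hm₀
  set θ : ℝ × ℝ → S3 := fun p => S.e i (χ (p.1, 0), p.2) with hθdef
  have hθ : Continuous θ := by
    have h1 := hχ.continuous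
    have h2 := (S.emb i).continuous
    exact h2.comp ((h1.comp (by fun_prop)).prodMk continuous_snd)
  have h00 : θ (0, 0) = S.e i (m₀, 0) := by
    show S.e i (χ (0, 0), 0) = _
    rw [hχ0]
  have hopen : IsOpen {p : ℝ × ℝ | θ p ∈ U ∧ 3 / 4 < uu S i (θ p)} :=
    (hU.preimage hθ).inter (isOpen_lt continuous_const ((uu S i).continuous.comp hθ))
  have hmem : ((0, 0) : ℝ × ℝ) ∈ {p : ℝ × ℝ | θ p ∈ U ∧ 3 / 4 < uu S i (θ p)} := by
    refine ⟨by rw [h00]; exact hv₀U, ?_⟩
    rw [h00, uu_one S i _ ⟨m₀, F_frontier S i hm₀, rfl⟩]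
    norm_num
  obtain ⟨r, hr, hball⟩ := Metric.isOpen_iff.1 hopen (0, 0) hmem
  set ε : ℝ := min (r / 2) (1 / 4) with hε
  have hε0 : 0 < ε := lt_min (by linarith) (by norm_num)
  have hεr : ε < r := (min_le_left _ _).trans_lt (by linarith)
  have hε4 : ε ≤ 1 / 4 := min_le_right _ _
  have hin : ∀ t : ℝ, θ (ε * Real.cos t, ε * Real.sin t) ∈ U ∧
      3 / 4 < uu S i (θ (ε * Real.cos t, ε * Real.sin t)) := by
    intro t
    apply hball
    rw [Metric.mem_ball, Prod.dist_eq]
    apply max_lt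
    · rw [Real.dist_eq, sub_zero, abs_mul, abs_of_pos hε0]
      have := Real.abs_cos_le_one t
      nlinarith [abs_nonneg (Real.cos t)]
    · rw [Real.dist_eq, sub_zero, abs_mul, abs_of_pos hε0]
      have := Real.abs_sin_le_one t
      nlinarith [abs_nonneg (Real.sin t)]
  have hκ : ∀ t : ℝ, (wm S).κ (θ (ε * Real.cos t, ε * Real.sin t)) =
      (rh S i (χ (ε * Real.cos t, 0)), (i : ℝ) + ε * Real.sin t) := by
    intro t
    apply wm_near S i _ _ (hin t).2.le
    rw [abs_mul, abs_of_pos hε0]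
    have := Real.abs_sin_le_one t
    nlinarith [abs_nonneg (Real.sin t)]
  refine ⟨ε, fun t => θ (ε * Real.cos t, ε * Real.sin t), hε0, by linarith, ?_, ?_, ?_, ?_, ?_, ?_⟩
  · exact hθ.comp (by fun_prop)
  · intro t
    show θ (ε * Real.cos (t + 2 * Real.pi), ε * Real.sin (t + 2 * Real.pi)) = _
    rw [Real.cos_add_two_pi, Real.sin_add_two_pi]
  · intro t
    exact (hin t).1
  · intro t
    show ((wm S).κ (θ (ε * Real.cos t, ε * Real.sin t))).2 = _
    rw [hκ]
  · intro t
    show 0 < ((wm S).κ (θ (ε * Real.cos t, ε * Real.sin t))).1 ↔ _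
    rw [hκ]
    show 0 < rh S i (χ (ε * Real.cos t, 0)) ↔ _
    rw [(chart_sign S i χ hχ hχF _ _).1]
    exact mul_pos_iff_of_pos_left hε0
  · intro t
    show ((wm S).κ (θ (ε * Real.cos t, ε * Real.sin t))).1 = 0 ↔ _
    rw [hκ]
    show rh S i (χ (ε * Real.cos t, 0)) = 0 ↔ _
    rw [(chart_sign S i χ hχ hχF _ _).2]
    constructor
    · intro h
      exact (mul_eq_zero.1 h).resolve_left hε0.ne'
    · intro h
      rw [h, mul_zero]

end AG

end AltGenus
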