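import Pool.Agent.H99.AG.Curve
import Pool.Agent.H99.AG.Par

open Set Topology Filter

namespace AltGenus

namespace AG

theorem circ_eq {a b : ℝ} (h : (a : UnitAddCircle) = (b : UnitAddCircle)) : ∃ k : ℤ, a = b + k := by
  have h1 : ((a - b : ℝ) : UnitAddCircle) = 0 := by
    rw [AddCircle.coe_sub, h, sub_self]
  rw [AddCircle.coe_eq_zero_iff] at h1
  obtain ⟨k, hk⟩ := h1
  rw [zsmul_eq_mul, mul_one] at hk
  exact ⟨k, by linarith⟩

theorem circ_surj (θ : UnitAddCircle) : ∃ t : ℝ, (t : UnitAddCircle) = θ :=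
  QuotientAddGroup.mk_surjective θ

/-- `(t, z) ↦ (t mod 1, z)` -/
def qq (p : ℝ × (ℝ × ℝ)) : UnitAddCircle × (ℝ × ℝ) := ((p.1 : UnitAddCircle), p.2)

theorem qq_quot : IsOpenQuotientMap qq :=
  IsOpenQuotientMap.prodMap (QuotientAddGroup.isOpenQuotientMap_mk) IsOpenQuotientMap.id

namespace Fr

variable (A : Fr)

theorem psi_int (t x y : ℝ) (k : ℤ) : A.psi (t + k, x, y) = A.psi (t, x, y) := by
  have hp : Function.Periodic (fun t : ℝ => A.psi (t, x, y)) 1 := fun t => A.psi_per t x y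
  have := hp.int_mul k t
  simp only [mul_one] at this
  exact this

noncomputable def pm (q : UnitAddCircle × (ℝ × ℝ)) : S3 :=
  A.psi ((circ_surj q.1).choose, q.2)

theorem pm_coe (p : ℝ × (ℝ × ℝ)) : A.pm (qq p) = A.psi p := by
  obtain ⟨t, x, y⟩ := p
  unfold pm qq
  obtain ⟨k, hk⟩ := circ_eq (circ_surj (t : UnitAddCircle)).choose_spec
  show A.psi ((circ_surj (t : UnitAddCircle)).choose, (x, y)) = A.psi (t, x, y)
  rw [hk]
  exact A.psi_int t x y k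

theorem pm_comp : A.pm ∘ qq = A.psi := funext A.pm_coe

theorem pm_cont : Continuous A.pm := by
  rw [← qq_quot.continuous_comp_iff, A.pm_comp]
  exact A.psi_cont

def goodc : Set (UnitAddCircle × (ℝ × ℝ)) := qq '' A.good

theorem goodc_open : IsOpen A.goodc := qq_quot.isOpenMap _ A.good_open

theorem zero_goodc (θ : UnitAddCircle) : (θ, ((0 : ℝ), (0 : ℝ))) ∈ A.goodc := by
  obtain ⟨t, rfl⟩ := circ_surj θ
  exact ⟨(t, 0, 0), A.zero_good t, rfl⟩

theorem pm_open (q : UnitAddCircle × (ℝ × ℝ)) (hq : q ∈ A.goodc) :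
    𝓝 (A.pm q) ≤ map A.pm (𝓝 q) := by
  obtain ⟨p, hp, rfl⟩ := hq
  rw [A.pm_coe]
  refine (A.open_at p hp).trans ?_
  rw [← A.pm_comp, ← Filter.map_map]
  exact Filter.map_mono qq_quot.continuous.continuousAt

theorem pm_inj (q : UnitAddCircle × (ℝ × ℝ)) (hq : q ∈ A.goodc) :
    ∃ U ∈ 𝓝 q, InjOn A.pm U := by
  obtain ⟨p, hp, rfl⟩ := hq
  obtain ⟨U, hU, hinj⟩ := A.inj_at p hp
  refine ⟨qq '' U, qq_quot.isOpenMap.image_mem_nhds hU, ?_⟩
  rintro _ ⟨a, ha, rfl⟩ _ ⟨b, hb, rfl⟩ hab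
  rw [A.pm_coe, A.pm_coe] at hab
  rw [hinj ha hb hab]

theorem fibc_smooth (z : ℝ × ℝ) :
    ContDiff ℝ (⊤ : ℕ∞) (fun t : ℝ => (A.pm ((t : UnitAddCircle), z) : E4)) := by
  have : (fun t : ℝ => (A.pm ((t : UnitAddCircle), z) : E4)) =
      fun t : ℝ => (A.psi (t, z.1, z.2) : E4) := by
    funext t
    rw [← A.pm_coe]
    rfl
  rw [this]
  exact A.fib_smooth z.1 z.2

theorem fibc_regular (t : ℝ) (z : ℝ × ℝ) (h : ((t : UnitAddCircle), z) ∈ A.goodc) :
    deriv (fun t : ℝ => (A.pm ((t : UnitAddCircle), z) : E4)) t ≠ 0 := by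
  have h1 : (fun t : ℝ => (A.pm ((t : UnitAddCircle), z) : E4)) =
      fun t : ℝ => (A.psi (t, z.1, z.2) : E4) := by
    funext t
    rw [← A.pm_coe]
    rfl
  rw [h1]
  obtain ⟨⟨t', x, y⟩, hp, hq⟩ := h
  have h2 : (t' : UnitAddCircle) = (t : UnitAddCircle) := congrArg Prod.fst hq
  have h3 : (x, y) = z := congrArg Prod.snd hq
  subst h3
  obtain ⟨k, hk⟩ := circ_eq h2
  have h4 := A.fib_regular t' x y hp
  rw [hk] at h4
  have h5 : (fun t : ℝ => (A.psi (t, x, y) : E4)) = fun t : ℝ => (A.psi (t + k, x, y) : E4) := by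
    funext s
    rw [A.psi_int]
  show deriv (fun t : ℝ => (A.psi (t, x, y) : E4)) t ≠ 0
  rw [h5, deriv_comp_add_const (fun t : ℝ => (A.psi (t, x, y) : E4)) (k : ℝ) t]
  exact h4

theorem pm_core (t : ℝ) : (A.pm ((t : UnitAddCircle), (0, 0)) : E4) = A.c t := by
  have h : A.pm ((t : UnitAddCircle), (0, 0)) = A.psi (t, 0, 0) := A.pm_coe (t, 0, 0)
  rw [h]
  exact A.psi_zero t

end Fr

theorem tube_nhds (N : Set (UnitAddCircle × (ℝ × ℝ))) (hN : IsOpen N)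
    (h0 : ∀ θ, (θ, ((0 : ℝ), (0 : ℝ))) ∈ N) :
    ∀ᶠ δ in 𝓝[>] (0 : ℝ), ∀ θ z, ‖z‖ < δ → (θ, z) ∈ N := by
  obtain ⟨u, v, hu, hv, hsu, htv, huv⟩ := generalized_tube_lemma
    (isCompact_univ : IsCompact (univ : Set UnitAddCircle))
    (isCompact_singleton : IsCompact ({((0 : ℝ), (0 : ℝ))} : Set (ℝ × ℝ))) hN (by
      rintro ⟨θ, z⟩ ⟨_, hz⟩
      have hz' : z = (0, 0) := hz
      rw [hz']
      exact h0 θ)
  obtain ⟨ε, hε, hball⟩ := Metric.isOpen_iff.1 hv (0, 0) (htv rfl)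
  filter_upwards [Ioo_mem_nhdsGT hε] with δ hδ θ z hz
  apply huv
  refine ⟨hsu trivial, hball ?_⟩
  rw [Metric.mem_ball]
  have : dist z ((0, 0) : ℝ × ℝ) = ‖z‖ := dist_zero_right z
  rw [this]
  exact hz.trans hδ.2

theorem bet_abs (x : ℝ) : |bet x| < 1 := by
  unfold bet
  have h1 := Real.arctan_lt_pi_div_two x
  have h2 := Real.neg_pi_div_two_lt_arctan x
  have h5 : Real.pi < 4 := Real.pi_lt_four
  rw [abs_lt]
  constructor <;> linarith

/-- the plane as a small square -/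
noncomputable def sq (δ : ℝ) (z : ℝ × ℝ) : ℝ × ℝ := (δ * bet z.1, δ * bet z.2)

theorem sq_open {δ : ℝ} (hδ : 0 < δ) : IsOpenEmbedding (sq δ) := by
  have h : IsOpenEmbedding (fun x => δ * bet x) :=
    mono_open _ (continuous_const.mul bet_cont) (fun x y h => mul_lt_mul_of_pos_left (bet_mono h) hδ)
  exact h.prodMap h

theorem sq_norm {δ : ℝ} (hδ : 0 < δ) (z : ℝ × ℝ) : ‖sq δ z‖ < δ := by
  rw [Prod.norm_def]
  apply max_lt
  · show ‖δ * bet z.1‖ < δ
    rw [Real.norm_eq_abs, abs_mul, abs_of_pos hδ]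
    have := bet_abs z.1
    nlinarith
  · show ‖δ * bet z.2‖ < δ
    rw [Real.norm_eq_abs, abs_mul, abs_of_pos hδ]
    have := bet_abs z.2
    nlinarith

theorem sq_zero (δ : ℝ) : sq δ (0, 0) = (0, 0) := by
  unfold sq
  simp [bet_zero]

/-- **Tubular neighbourhoods.** The components of a smooth link are the cores of disjoint open
solid tori with smooth fibres. -/
theorem exists_tubes {r : ℕ} (K : Link r) :
    ∃ Φ : Fin r → (UnitAddCircle × (ℝ × ℝ) → S3), (∀ i, IsOpenEmbedding (Φ i)) ∧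
      (∀ i j, i ≠ j → Disjoint (range (Φ i)) (range (Φ j))) ∧
      (∀ i (t : ℝ), Φ i ((t : UnitAddCircle), (0, 0)) = K.γ i t) ∧
      (∀ i z, ContDiff ℝ (⊤ : ℕ∞) (fun t : ℝ => (Φ i ((t : UnitAddCircle), z) : E4))) ∧
      (∀ i z (t : ℝ), deriv (fun t : ℝ => (Φ i ((t : UnitAddCircle), z) : E4)) t ≠ 0) := by
  choose A hA using fun i => exists_fr K i
  set F : Fin r × (UnitAddCircle × (ℝ × ℝ)) → S3 := fun p => (A p.1).pm p.2 with hF
  have hFc : Continuous F := by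
    rw [continuous_prod_of_discrete_left]
    intro i
    exact (A i).pm_cont
  set s : Set (Fin r × (UnitAddCircle × (ℝ × ℝ))) :=
    (univ : Set (Fin r)) ×ˢ ((univ : Set UnitAddCircle) ×ˢ ({((0 : ℝ), (0 : ℝ))} : Set (ℝ × ℝ)))
    with hs
  have hsc : IsCompact s := isCompact_univ.prod (isCompact_univ.prod isCompact_singleton)
  have hcore : ∀ i (t : ℝ), (A i).pm ((t : UnitAddCircle), (0, 0)) = K.γ i t := by
    intro i t
    apply Subtype.ext
    rw [(A i).pm_core, hA]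
  have hsi : InjOn F s := by
    rintro ⟨i, θ, z⟩ ⟨_, _, hz⟩ ⟨j, θ', z'⟩ ⟨_, _, hz'⟩ h
    have hz2 : z = (0, 0) := hz
    have hz2' : z' = (0, 0) := hz'
    subst hz2
    subst hz2'
    obtain ⟨t, rfl⟩ := circ_surj θ
    obtain ⟨t', rfl⟩ := circ_surj θ'
    have h1 : (A i).pm ((t : UnitAddCircle), (0, 0)) = (A j).pm ((t' : UnitAddCircle), (0, 0)) := h
    rw [hcore, hcore] at h1
    obtain ⟨hij, k, hk⟩ := K.inj i j t t' h1
    subst hij
    have : (t : UnitAddCircle) = (t' : UnitAddCircle) := by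
      rw [hk, AddCircle.coe_add]
      have h2 : ((k : ℝ) : UnitAddCircle) = 0 := by
        rw [AddCircle.coe_eq_zero_iff]
        exact ⟨k, by simp⟩
      rw [h2, add_zero]
    rw [this]
  have hloc : ∀ p ∈ s, ∃ u ∈ 𝓝 p, InjOn F u := by
    rintro ⟨i, θ, z⟩ ⟨_, _, hz⟩
    have hz2 : z = (0, 0) := hz
    subst hz2
    obtain ⟨U, hU, hinj⟩ := (A i).pm_inj _ ((A i).zero_goodc θ)
    refine ⟨{i} ×ˢ U, ?_, ?_⟩
    · rw [nhds_prod_eq]
      exact Filter.prod_mem_prod (by rw [nhds_discrete]; exact rfl) hU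
    · rintro ⟨a, q⟩ ⟨ha, hq⟩ ⟨b, q'⟩ ⟨hb, hq'⟩ h
      have ha' : a = i := ha
      have hb' : b = i := hb
      subst ha'
      subst hb'
      have h2 : q = q' := hinj hq hq' h
      rw [h2]
  obtain ⟨T, hT, hTinj⟩ := hsi.exists_mem_nhdsSet hsc (fun p _ => hFc.continuousAt) hloc
  have hTs : s ⊆ interior T := subset_interior_iff_mem_nhdsSet.2 hT
  have hev : ∀ᶠ δ in 𝓝[>] (0 : ℝ), ∀ i : Fin r, ∀ θ z, ‖z‖ < δ →
      (i, (θ, z)) ∈ T ∧ (θ, z) ∈ (A i).goodc := by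
    rw [eventually_all]
    intro i
    have h1 : Continuous (fun q : UnitAddCircle × (ℝ × ℝ) => (i, q)) := by fun_prop
    have h2 := tube_nhds ((fun q : UnitAddCircle × (ℝ × ℝ) => (i, q)) ⁻¹' interior T)
      (isOpen_interior.preimage h1) (fun θ => hTs ⟨trivial, trivial, rfl⟩)
    have h3 := tube_nhds (A i).goodc (A i).goodc_open (A i).zero_goodc
    filter_upwards [h2, h3] with δ h4 h5 θ z hz
    exact ⟨interior_subset (h4 θ z hz), h5 θ z hz⟩
  obtain ⟨δ, hδ, hδ0⟩ := (hev.and self_mem_nhdsWithin).exists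
  have hδ1 : 0 < δ := hδ0
  have hin : ∀ i θ z, (i, (θ, sq δ z)) ∈ T ∧ (θ, sq δ z) ∈ (A i).goodc :=
    fun i θ z => hδ i θ _ (sq_norm hδ1 z)
  have hmul : IsOpenEmbedding (fun q : UnitAddCircle × (ℝ × ℝ) => (q.1, sq δ q.2)) :=
    IsOpenEmbedding.id.prodMap (sq_open hδ1)
  have hkey : ∀ (i j : Fin r) (q q' : UnitAddCircle × (ℝ × ℝ)), (A i).pm (q.1, sq δ q.2) = (A j).pm (q'.1, sq δ q'.2) →
      i = j ∧ q = q' := by
    intro i j q q' h
    have h1 := hTinj (hin i q.1 q.2).1 (hin j q'.1 q'.2).1 h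
    rw [Prod.mk.injEq] at h1
    exact ⟨h1.1, hmul.injective h1.2⟩
  refine ⟨fun i q => (A i).pm (q.1, sq δ q.2), ?_, ?_, ?_, ?_, ?_⟩
  · intro i
    apply IsOpenEmbedding.of_continuous_injective_isOpenMap
    · exact (A i).pm_cont.comp hmul.continuous
    · intro q q' h
      exact (hkey i i q q' h).2
    · rw [isOpenMap_iff_nhds_le]
      intro q
      refine ((A i).pm_open _ (hin i q.1 q.2).2).trans ?_
      have h1 : 𝓝 (q.1, sq δ q.2) = map (fun q : UnitAddCircle × (ℝ × ℝ) => (q.1, sq δ q.2)) (𝓝 q) :=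
        (hmul.map_nhds_eq q).symm
      rw [h1, Filter.map_map]
      exact le_rfl
  · intro i j hij
    rw [Set.disjoint_left]
    rintro v ⟨q, rfl⟩ ⟨q', hq'⟩
    exact hij (hkey i j q q' hq'.symm).1
  · intro i t
    show (A i).pm ((t : UnitAddCircle), sq δ (0, 0)) = K.γ i t
    rw [sq_zero]
    exact hcore i t
  · intro i z
    exact (A i).fibc_smooth (sq δ z)
  · intro i z t
    exact (A i).fibc_regular t (sq δ z) (hin i _ z).2

end AG

end AltGenus
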